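import Pool.Agent.MP_1e211b_nt.H60.Ev

set_option autoImplicit false

namespace Pool.Agent.MP_1e211b_nt.H60

open PowerSeries

variable {ι F : Type*} [Fintype ι] [Field F]

/-- exponent vectors -/
noncomputable def toE {n : ℕ} (e : ι → Fin n) : ι →₀ ℕ :=
  Finsupp.equivFunOnFinite.symm fun i => (e i : ℕ)

theorem toE_apply {n : ℕ} (e : ι → Fin n) (i : ι) : toE e i = e i := rfl

theorem toE_injective {n : ℕ} : Function.Injective (toE : (ι → Fin n) → ι →₀ ℕ) := by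
  intro e e' h
  funext i
  apply Fin.ext
  rw [← toE_apply, ← toE_apply, h]

theorem totalDegree_monomial_toE {d : ℕ} (e : ι → Fin (d + 1)) (c : F) :
    (MvPolynomial.monomial (toE e) c).totalDegree ≤ Fintype.card ι * d := by
  classical
  refine (MvPolynomial.totalDegree_monomial_le _ _).trans ?_
  rw [Finsupp.sum_fintype _ _ (by simp)]
  calc ∑ i, id (toE e i) ≤ ∑ _i : ι, d := Finset.sum_le_sum fun i _ => by
        rw [id, toE_apply]; exact Nat.lt_succ_iff.1 (e i).2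
    _ = _ := by simp

theorem eq_zero_of_coeff_toE {d : ℕ} (p : MvPolynomial ι F) (hp : p.totalDegree ≤ d)
    (h : ∀ e : ι → Fin (d + 1), MvPolynomial.coeff (toE e) p = 0) : p = 0 := by
  classical
  by_contra hne
  obtain ⟨s, hs⟩ := MvPolynomial.support_nonempty.2 hne
  have hle : ∀ i, s i < d + 1 := fun i => by
    have h1 := MvPolynomial.monomial_le_degreeOf i hs
    have h2 := MvPolynomial.degreeOf_le_totalDegree p i
    omega
  have : toE (fun i => (⟨s i, hle i⟩ : Fin (d + 1))) = s := by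
    ext i; rfl
  have h3 := h fun i => ⟨s i, hle i⟩
  rw [this] at h3
  exact MvPolynomial.mem_support_iff.1 hs h3

/-- The auxiliary polynomials. -/
theorem exists_aux (Φ : (MvPolynomial ι F)⟦X⟧) (c a : ℕ) (hG : Gr c a Φ) (κ : ℕ) :
    ∃ J : ℕ, ∀ d, J ≤ d → ∃ Q : Fin (J + 1) → Polynomial (MvPolynomial ι F),
      (∃ j, Q j ≠ 0) ∧ (∀ j, (Q j).natDegree ≤ d) ∧
      (∀ j t, ((Q j).coeff t).totalDegree ≤ Fintype.card ι * d) ∧
      X ^ (κ * d) ∣ ∑ j, (Q j : (MvPolynomial ι F)⟦X⟧) * Φ ^ (j : ℕ) := by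
  classical
  obtain ⟨n, hn⟩ : ∃ n, n = Fintype.card ι := ⟨_, rfl⟩
  obtain ⟨M, hM⟩ : ∃ M, M = n + c * κ + a + 1 := ⟨_, rfl⟩
  refine ⟨κ * M ^ n, fun d hd => ?_⟩
  obtain ⟨J, hJ⟩ : ∃ J, J = κ * M ^ n := ⟨_, rfl⟩
  rw [← hJ] at hd ⊢
  obtain ⟨d', hd'⟩ : ∃ d', d' = c * (κ * d) + (n * d + a * J) := ⟨_, rfl⟩
  let I := Fin (J + 1) × Fin (d + 1) × (ι → Fin (d + 1))
  let O := Fin (κ * d) × (ι → Fin (d' + 1))
  let S : I → (MvPolynomial ι F)⟦X⟧ := fun i =>
    ((Polynomial.monomial (i.2.1 : ℕ) (MvPolynomial.monomial (toE i.2.2) (1 : F)) :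
      Polynomial (MvPolynomial ι F)) : (MvPolynomial ι F)⟦X⟧) * Φ ^ (i.1 : ℕ)
  let B : I → O → F := fun i o => MvPolynomial.coeff (toE o.2) (coeff (o.1 : ℕ) (S i))
  have hcard : Fintype.card O < Fintype.card I := by
    simp only [O, I, Fintype.card_prod, Fintype.card_fin, Fintype.card_fun, ← hn]
    have h1 : d' + 1 ≤ M * (d + 1) := by
      rw [hd', hM]
      have : a * J ≤ a * d := Nat.mul_le_mul_left _ hd
      nlinarith [Nat.zero_le (c * κ), Nat.zero_le n, Nat.zero_le a, Nat.zero_le d]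
    have h2 : (d' + 1) ^ n ≤ M ^ n * (d + 1) ^ n := by
      rw [← mul_pow]; exact Nat.pow_le_pow_left h1 _
    have h3 : 0 < (d + 1) * (d + 1) ^ n := by positivity
    calc κ * d * (d' + 1) ^ n ≤ κ * (d + 1) * (M ^ n * (d + 1) ^ n) :=
          Nat.mul_le_mul (Nat.mul_le_mul_left _ (Nat.le_succ d)) h2
      _ = J * ((d + 1) * (d + 1) ^ n) := by rw [hJ]; ring
      _ < (J + 1) * ((d + 1) * (d + 1) ^ n) := by nlinarith
  have hnli : ¬ LinearIndependent F B := fun h => by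
    have := h.fintype_card_le_finrank
    rw [Module.finrank_fintype_fun_eq_card] at this
    omega
  obtain ⟨g, hg, i₀, hi₀⟩ := Fintype.not_linearIndependent_iff.1 hnli
  let Q : Fin (J + 1) → Polynomial (MvPolynomial ι F) := fun j =>
    ∑ s : Fin (d + 1), ∑ e : ι → Fin (d + 1),
      Polynomial.monomial (s : ℕ) (MvPolynomial.monomial (toE e) (g (j, s, e)))
  have hQc : ∀ j t, (Q j).coeff t = ∑ s : Fin (d + 1), ∑ e : ι → Fin (d + 1),
      if (s : ℕ) = t then MvPolynomial.monomial (toE e) (g (j, s, e)) else 0 := by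
    intro j t
    simp only [Q, Polynomial.finsetSum_coeff, Polynomial.coeff_monomial]
  have hQd : ∀ j t, ((Q j).coeff t).totalDegree ≤ n * d := by
    intro j t
    rw [hQc]
    refine MvPolynomial.totalDegree_finsetSum_le fun s _ =>
      MvPolynomial.totalDegree_finsetSum_le fun e _ => ?_
    split_ifs
    · rw [hn]; exact totalDegree_monomial_toE _ _
    · simp
  refine ⟨Q, ⟨i₀.1, fun h => hi₀ ?_⟩, fun j => ?_, fun j t => hn ▸ hQd j t, ?_⟩
  · have h1 := congrArg (fun p : Polynomial (MvPolynomial ι F) =>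
      MvPolynomial.coeff (toE i₀.2.2) (p.coeff (i₀.2.1 : ℕ))) h
    simp only [hQc, Polynomial.coeff_zero, MvPolynomial.coeff_zero, MvPolynomial.coeff_sum] at h1
    rw [Finset.sum_eq_single i₀.2.1, Finset.sum_eq_single i₀.2.2] at h1
    · simpa using h1
    · intro e _ he
      simp [MvPolynomial.coeff_monomial, toE_injective.ne he]
    · simp
    · intro s _ hs
      have : (s : ℕ) ≠ i₀.2.1 := fun h => hs (Fin.ext h)
      simp [this]
    · simp
  · refine Polynomial.natDegree_sum_le_of_forall_le _ _ fun s _ =>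
      Polynomial.natDegree_sum_le_of_forall_le _ _ fun e _ => ?_
    exact (Polynomial.natDegree_monomial_le _).trans (Nat.lt_succ_iff.1 s.2)
  · rw [X_pow_dvd_iff]
    intro t ht
    have hE : ∑ j, (Q j : (MvPolynomial ι F)⟦X⟧) * Φ ^ (j : ℕ) =
        ∑ i : I, C (MvPolynomial.C (g i)) * S i := by
      simp only [I, Fintype.sum_prod_type, S, Q]
      refine Finset.sum_congr rfl fun j _ => ?_
      rw [← Polynomial.coeToPowerSeries.ringHom_apply, map_sum, Finset.sum_mul]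
      refine Finset.sum_congr rfl fun s _ => ?_
      rw [map_sum, Finset.sum_mul]
      refine Finset.sum_congr rfl fun e _ => ?_
      rw [← mul_assoc, Polynomial.coeToPowerSeries.ringHom_apply, ← Polynomial.coe_C,
        ← Polynomial.coe_mul, Polynomial.C_mul_monomial, MvPolynomial.C_mul_monomial, mul_one]
    have hgr : Gr c (n * d + a * J) (∑ j, (Q j : (MvPolynomial ι F)⟦X⟧) * Φ ^ (j : ℕ)) := by
      refine Gr.sum _ _ fun j _ => ?_
      refine ((Gr.coe c (n * d) _ (hQd j)).mul (hG.pow j)).mono le_rfl ?_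
      have : a * (j : ℕ) ≤ a * J := Nat.mul_le_mul_left _ (Nat.lt_succ_iff.1 j.2)
      omega
    refine eq_zero_of_coeff_toE (d := d') _ ((hgr t).trans ?_) fun e => ?_
    · rw [hd']
      have : c * t ≤ c * (κ * d) := Nat.mul_le_mul_left _ ht.le
      omega
    · have h1 := congrFun hg (⟨t, ht⟩, e)
      rw [hE, map_sum, MvPolynomial.coeff_sum]
      simp only [coeff_C_mul, MvPolynomial.coeff_C_mul]
      simpa [B, Finset.sum_apply] using h1

variable {K : Type*} [NormedField K] [CompleteSpace K]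

/-- Evaluation is injective on series with linear degree growth. -/
theorem ev_ne_zero (e : MvPolynomial ι F →+* K) (he : ∀ a, ‖e a‖ ≤ 1) (Z : K) (hZ : ‖Z‖ < 1)
    (hZ0 : Z ≠ 0) (r : ℝ) (hr : 0 < r)
    (hL : ∀ (d : ℕ) (Q : Polynomial (MvPolynomial ι F)), Q ≠ 0 → Q.natDegree ≤ d →
      (∀ t, (Q.coeff t).totalDegree ≤ d) → r ^ (d + 1) ≤ ‖Q.eval₂ e Z‖)
    (Φ : (MvPolynomial ι F)⟦X⟧) (hΦ : Φ ≠ 0) (hG : Φ ∈ grRing ι F) :
    ev e he Z hZ Φ ≠ 0 := by
  classical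
  intro h0
  obtain ⟨c, a, hG⟩ := hG
  obtain ⟨Ψ, hΨ⟩ : ∃ Ψ, Ψ = divXPowOrder Φ := ⟨_, rfl⟩
  have hΨ0 : constantCoeff Ψ ≠ 0 := by
    rw [hΨ, Ne, constantCoeff_divXPowOrder_eq_zero_iff]; exact hΦ
  have hΨe : ev e he Z hZ Ψ = 0 := by
    rw [← X_pow_order_mul_divXPowOrder (f := Φ), map_mul, map_pow, ev_X, ← hΨ] at h0
    exact (mul_eq_zero.1 h0).resolve_left (pow_ne_zero _ hZ0)
  have hΨG : Gr c (c * Φ.order.toNat + a) Ψ := by
    intro t
    rw [hΨ, coeff_divXPowOrder]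
    refine (hG _).trans (le_of_eq ?_)
    ring
  obtain ⟨n, hn⟩ : ∃ n, n = Fintype.card ι := ⟨_, rfl⟩
  have hZp : 0 < ‖Z‖ := norm_pos_iff.2 hZ0
  obtain ⟨κ, hκ⟩ := exists_pow_lt_of_lt_one (pow_pos hr (n + 1)) hZ
  obtain ⟨J, hJ⟩ := exists_aux Ψ _ _ hΨG κ
  have hρ : ‖Z‖ ^ κ / r ^ (n + 1) < 1 := (div_lt_one (pow_pos hr _)).2 hκ
  have hρ0 : 0 ≤ ‖Z‖ ^ κ / r ^ (n + 1) := by positivity
  obtain ⟨d₀, hd₀⟩ := exists_pow_lt_of_lt_one (mul_pos hr (sub_pos.2 hZ)) hρ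
  obtain ⟨d, hd⟩ : ∃ d, d = max J d₀ := ⟨_, rfl⟩
  have hdρ : (‖Z‖ ^ κ / r ^ (n + 1)) ^ d < r * (1 - ‖Z‖) :=
    (pow_le_pow_of_le_one hρ0 hρ.le (hd ▸ le_max_right _ _)).trans_lt hd₀
  obtain ⟨Q, hQ0, hQd, hQt, hdvd⟩ := hJ d (hd ▸ le_max_left _ _)
  rw [← hn] at hQt
  obtain ⟨j₀, hj₀, hmin⟩ := (Finset.univ.filter fun j => Q j ≠ 0).exists_min_image
    (fun j => (j : ℕ)) (by obtain ⟨j, hj⟩ := hQ0; exact ⟨j, by simpa using hj⟩)
  have hj₀' : Q j₀ ≠ 0 := by simpa using hj₀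
  obtain ⟨E, hE⟩ : ∃ E, E = ∑ j, (Q j : (MvPolynomial ι F)⟦X⟧) * Ψ ^ ((j : ℕ) - j₀) := ⟨_, rfl⟩
  have hfac : ∑ j, (Q j : (MvPolynomial ι F)⟦X⟧) * Ψ ^ (j : ℕ) = Ψ ^ (j₀ : ℕ) * E := by
    rw [hE, Finset.mul_sum]
    refine Finset.sum_congr rfl fun j _ => ?_
    by_cases hj : Q j = 0
    · simp [hj]
    · have := hmin j (by simpa using hj)
      rw [mul_left_comm, ← pow_add, Nat.add_sub_cancel' this]
  have hEdvd : X ^ (κ * d) ∣ E := by
    rw [hfac, X_pow_dvd_iff] at hdvd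
    have h1 := nat_le_order _ _ hdvd
    have h2 : order Ψ = 0 := by
      by_contra h
      exact hΨ0 (order_ne_zero_iff_constCoeff_eq_zero.1 h)
    rw [order_mul, order_pow, h2, smul_zero, zero_add] at h1
    rw [X_pow_dvd_iff]
    intro t ht
    exact coeff_of_lt_order t (lt_of_lt_of_le (by exact_mod_cast ht) h1)
  have hEe : ev e he Z hZ E = (Q j₀).eval₂ e Z := by
    rw [hE, map_sum, Finset.sum_eq_single j₀]
    · simp [ev_coe]
    · intro j _ hj
      by_cases hj' : Q j = 0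
      · simp [hj']
      · have h1 := hmin j (by simpa using hj')
        have h2 : (j : ℕ) - j₀ ≠ 0 := by
          have : (j : ℕ) ≠ j₀ := fun h => hj (Fin.ext h)
          omega
        rw [map_mul, map_pow, hΨe, zero_pow h2, mul_zero]
    · simp
  obtain ⟨W, hW⟩ := hEdvd
  have h1 := hL ((n + 1) * d) (Q j₀) hj₀' ((hQd j₀).trans (by nlinarith))
    fun t => (hQt j₀ t).trans (by nlinarith)
  rw [← hEe, hW, map_mul, map_pow, ev_X, norm_mul, norm_pow] at h1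
  have h2 := ev_norm_le e he Z hZ W
  have h3 : r ^ ((n + 1) * d + 1) ≤ ‖Z‖ ^ (κ * d) * (1 - ‖Z‖)⁻¹ :=
    h1.trans (mul_le_mul_of_nonneg_left h2 (by positivity))
  have h4 : 0 < 1 - ‖Z‖ := sub_pos.2 hZ
  rw [div_pow, div_lt_iff₀ (by positivity), ← pow_mul, ← pow_mul] at hdρ
  rw [← div_eq_mul_inv, le_div_iff₀ h4, pow_succ] at h3
  nlinarith

end Pool.Agent.MP_1e211b_nt.H60
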