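import Pool.Agent.MP_1e211b_nt.H60.Formal
import Pool.Agent.MP_1e211b_nt.H60.Siegel

set_option autoImplicit false

namespace Pool.Agent.MP_1e211b_nt.H60

open Polynomial Filter Topology
open scoped PowerSeries

theorem exists_lift {R K Ω : Type*} [CommRing R] [IsDomain R] [Field K] [Field Ω] [IsAlgClosed Ω]
    (f : R →+* K) (g : R →+* Ω) (hf : Function.Injective f) (hg : Function.Injective g) :
    ∃ (S : Subfield K) (ι : S →+* Ω), (∀ x, (∃ p : R[X], p ≠ 0 ∧ eval₂ f x p = 0) → x ∈ S) ∧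
      ∀ r, ∃ h : f r ∈ S, ι ⟨f r, h⟩ = g r := by
  let := f.toAlgebra
  let := g.toAlgebra
  have : FaithfulSMul R K := (faithfulSMul_iff_algebraMap_injective R K).2 hf
  have : FaithfulSMul R Ω := (faithfulSMul_iff_algebraMap_injective R Ω).2 hg
  let S₀ := Subalgebra.algebraicClosure R K
  have : Algebra.IsAlgebraic R S₀ :=
    ⟨fun x => (Subalgebra.isAlgebraic_iff_isAlgebraic_val).2 x.2⟩
  let ι : S₀ →ₐ[R] Ω := IsAlgClosed.lift
  let S : Subfield K := { S₀.toSubring with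
    inv_mem' := fun x hx => IsAlgebraic.inv_iff.2 hx }
  refine ⟨S, ι.toRingHom, fun x hx => hx, fun r => ⟨S₀.algebraMap_mem r, ι.commutes r⟩⟩

theorem hasSum_rel {K 𝒞 : Type*} [NormedField K] [CompleteSpace K] [Fintype 𝒞] {A : Type*}
    [CommRing A] (e : A →+* K) (he : ∀ a, ‖e a‖ ≤ 1) (Z : K) (hZ : ‖Z‖ < 1) (ζ : 𝒞 → A)
    (y : ℕ → 𝒞) (a : ℕ → K) (P : 𝒞 → K) (ha : ∀ t, ‖a t‖ ≤ 1)
    (hrec : ∀ t, a t = -P (y t) + e (ζ (y t)) * Z * a (t + 1)) :
    a 0 + ∑ c, P c * ev e he Z hZ (Gs ζ y fun t => y t = c) = 0 := by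
  classical
  have h1 : HasSum (fun t => P (y t) * (e (∏ i ∈ Finset.range t, ζ (y i)) * Z ^ t))
      (∑ c, P c * ev e he Z hZ (Gs ζ y fun t => y t = c)) := by
    refine (hasSum_sum (s := Finset.univ) fun c _ =>
      (ev_hasSum e he Z hZ (Gs ζ y fun t => y t = c)).mul_left (P c)).congr_fun fun t => ?_
    rw [Finset.sum_eq_single (y t)]
    · simp [coeff_Gs]
    · intro c _ hc
      simp [coeff_Gs, hc.symm]
    · simp
  have h2 : ∀ n, ∑ t ∈ Finset.range n, P (y t) * (e (∏ i ∈ Finset.range t, ζ (y i)) * Z ^ t) =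
      -a 0 + e (∏ i ∈ Finset.range n, ζ (y i)) * Z ^ n * a n := by
    intro n
    induction n with
    | zero => simp
    | succ n ih =>
      rw [Finset.sum_range_succ, ih, Finset.prod_range_succ, map_mul, hrec n]
      ring
  have h3 : Tendsto (fun n => e (∏ i ∈ Finset.range n, ζ (y i)) * Z ^ n * a n) atTop (𝓝 0) := by
    refine squeeze_zero_norm (fun n => ?_)
      (tendsto_pow_atTop_nhds_zero_of_lt_one (norm_nonneg Z) hZ)
    rw [norm_mul, norm_mul, norm_pow]
    calc _ ≤ 1 * ‖Z‖ ^ n * 1 := by gcongr; exacts [he _, ha n]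
      _ = _ := by ring
  have h4 := h1.tendsto_sum_nat
  simp only [h2] at h4
  have h5 := tendsto_nhds_unique h4 (h3.const_add (-a 0))
  rw [h5]; ring

theorem core_indexed {F K : Type} [Field F] [CharZero F] [NormedField K] [CompleteSpace K]
    {ι : Type} [Fintype ι] (e : MvPolynomial ι F →+* K) (he : ∀ a, ‖e a‖ ≤ 1) (Z : K)
    (hZ : ‖Z‖ < 1) (hZ0 : Z ≠ 0) (r : ℝ) (hr : 0 < r)
    (hL : ∀ (d : ℕ) (Q : Polynomial (MvPolynomial ι F)), Q ≠ 0 → Q.natDegree ≤ d →
      (∀ t, (Q.coeff t).totalDegree ≤ d) → r ^ (d + 1) ≤ ‖Q.eval₂ e Z‖)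
    {𝒞 : Type} {Lab : Type*} [Fintype 𝒞] [Fintype Lab] (ζ : 𝒞 → MvPolynomial ι F)
    (hζ : ∀ c, ζ c ≠ 0) (y : ℕ → 𝒞) (q : ℕ) (hq : 2 ≤ q)
    (hB : ∀ j, ∃ lab : ℕ → Lab, ∀ i i', lab i = lab i' →
      ∀ s < q ^ j, y (q ^ j * i + s) = y (q ^ j * i' + s))
    (a : ℕ → K) (P : 𝒞 → K) (ha : ∀ t, ‖a t‖ ≤ 1)
    (ha0 : ∃ p : (MvPolynomial ι F)[X][X], p ≠ 0 ∧ eval₂ (eval₂RingHom e Z) (a 0) p = 0)
    (hP : ∀ c, ∃ p : (MvPolynomial ι F)[X][X], p ≠ 0 ∧ eval₂ (eval₂RingHom e Z) (P c) p = 0)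
    (hrec : ∀ t, a t = -P (y t) + e (ζ (y t)) * Z * a (t + 1)) :
    ∃ t t', t < t' ∧ a t = a t' := by
  classical
  let A := MvPolynomial ι F
  let R := grRing ι F
  let f : R →+* K := (ev e he Z hZ).comp R.subtype
  have hf : Function.Injective f := by
    rw [injective_iff_map_eq_zero]
    intro x hx
    by_contra h0
    exact ev_ne_zero e he Z hZ hZ0 r hr hL x (fun h => h0 (Subtype.ext h)) x.2 hx
  let k := AlgebraicClosure (FractionRing A)
  let j : A →+* k := (algebraMap (FractionRing A) k).comp (algebraMap A (FractionRing A))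
  have hj : Function.Injective j :=
    (algebraMap (FractionRing A) k).injective.comp (IsFractionRing.injective A _)
  have : CharZero k := charZero_of_injective_ringHom hj
  let M := FractionRing k⟦X⟧
  have : FaithfulSMul k[X] M := by
    rw [faithfulSMul_iff_algebraMap_injective, IsScalarTower.algebraMap_eq k[X] k⟦X⟧ M]
    exact (IsFractionRing.injective k⟦X⟧ M).comp (coe_injective k)
  let : Algebra (RatFunc k) M := RatFunc.liftAlgebra k M
  have : IsScalarTower k[X] (RatFunc k) M := RatFunc.isScalarTower_liftAlgebra k M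
  let Ω := AlgebraicClosure M
  let g : R →+* Ω := (algebraMap M Ω).comp ((algebraMap k⟦X⟧ M).comp
    ((PowerSeries.map j).comp R.subtype))
  have hg : Function.Injective g := (algebraMap M Ω).injective.comp
    ((IsFractionRing.injective k⟦X⟧ M).comp
      ((PowerSeries.map_injective j hj).comp Subtype.val_injective))
  obtain ⟨S, τ, hS, hτ⟩ := exists_lift f g hf hg
  choose hfS hτ using hτ
  let cR : A[X] →+* R := coeToPowerSeries.ringHom.codRestrict R fun p => by
    obtain ⟨b, hb⟩ := Gr.coe_exists p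
    exact ⟨0, b, hb⟩
  have hcR : Function.Injective cR := fun p p' h => coe_injective A (congrArg Subtype.val h)
  have hfc : f.comp cR = eval₂RingHom e Z := RingHom.ext fun p => ev_coe e he Z hZ p
  let cL : A[X] →+* RatFunc k := (algebraMap k[X] (RatFunc k)).comp (mapRingHom j)
  have hcL : Function.Injective cL :=
    (IsFractionRing.injective k[X] (RatFunc k)).comp (map_injective j hj)
  have hgc : ∀ p, g (cR p) = algebraMap (RatFunc k) Ω (cL p) := by
    intro p
    rw [IsScalarTower.algebraMap_apply (RatFunc k) M Ω]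
    simp only [g, cL, RingHom.comp_apply]
    rw [← IsScalarTower.algebraMap_apply k[X] (RatFunc k) M, algebraMap_poly]
    congr 2
    exact (polynomial_map_coe (f := p) (φ := j)).symm
  have halg : ∀ x : K, (∃ p : A[X][X], p ≠ 0 ∧ eval₂ (eval₂RingHom e Z) x p = 0) →
      ∃ h : x ∈ S, IsAlgebraic (RatFunc k) (τ ⟨x, h⟩) := by
    rintro x ⟨p, hp0, hp⟩
    have hx : x ∈ S := hS x ⟨p.map cR, (Polynomial.map_ne_zero_iff hcR).2 hp0, by
      rw [eval₂_map, hfc, hp]⟩
    refine ⟨hx, p.map cL, (Polynomial.map_ne_zero_iff hcL).2 hp0, ?_⟩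
    let fS : A[X] →+* S := (f.comp cR).codRestrict S fun p => hfS _
    have h1 : eval₂ fS ⟨x, hx⟩ p = 0 := by
      apply S.subtype.injective
      rw [hom_eval₂, map_zero, ← hp, ← hfc]
      rfl
    have h2 := congrArg τ h1
    rw [hom_eval₂, map_zero] at h2
    rw [aeval_def, eval₂_map, ← h2]
    congr 1
    refine RingHom.ext fun p => ?_
    exact (hgc p).symm.trans (hτ _).symm
  obtain ⟨ha0S, ha0a⟩ := halg _ ha0
  choose hPS hPa using fun c => halg _ (hP c)
  have hz : ∀ c, f (cR (C (ζ c) * X)) = e (ζ c) * Z := fun c => by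
    rw [← RingHom.comp_apply, hfc]; simp
  have hz0 : ∀ c, e (ζ c) * Z ≠ 0 := fun c => by
    rw [← hz, map_ne_zero_iff _ hf, map_ne_zero_iff _ hcR]
    exact mul_ne_zero (by simpa using hζ c) X_ne_zero
  have haS : ∀ t, a t ∈ S := by
    intro t
    induction t with
    | zero => exact ha0S
    | succ t ih =>
      have : a (t + 1) = (a t + P (y t)) / f (cR (C (ζ (y t)) * X)) := by
        rw [hz, eq_div_iff (hz0 _), hrec t]; ring
      rw [this]
      exact div_mem (add_mem ih (hPS _)) (hfS _)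
  have hG : ∀ c, Gs ζ y (fun t => y t = c) ∈ R := by
    intro c
    refine ⟨Finset.univ.sup fun c => (ζ c).totalDegree, 0, fun t => ?_⟩
    rw [coeff_Gs]
    split_ifs
    · refine (MvPolynomial.totalDegree_finsetProd _ _).trans ?_
      refine (Finset.sum_le_card_nsmul _ _ _ fun i _ =>
        Finset.le_sup (f := fun c => (ζ c).totalDegree) (Finset.mem_univ (y i))).trans ?_
      simp [mul_comm]
    · simp
  obtain ⟨t, t', htt, h⟩ := formal_core (M := M) (Ω := Ω) (fun c => j (ζ c))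
    (fun c => (map_ne_zero_iff _ hj).2 (hζ c)) y q hq hB (fun t => τ ⟨a t, haS t⟩)
    (fun c => τ ⟨P c, hPS c⟩) ha0a hPa (fun t => by
      have h1 : algebraMap k[X] (RatFunc k) (C (j (ζ (y t))) * X) = cL (C (ζ (y t)) * X) := by
        simp [cL]
      rw [h1, ← hgc, ← hτ, ← map_mul, ← map_neg, ← map_add]
      congr 1
      apply Subtype.ext
      simp only [Subfield.coe_add, Subfield.coe_neg, Subfield.coe_mul, hz]
      exact hrec t) (by
      have h1 : ∀ c, algebraMap M Ω (algebraMap k⟦X⟧ M (Gs (fun c => j (ζ c)) y fun t => y t = c))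
          = τ ⟨f ⟨_, hG c⟩, hfS _⟩ := fun c => by
        rw [hτ, ← map_Gs]; rfl
      simp only [h1, ← map_mul]
      rw [← map_sum, ← map_add, ← map_zero τ]
      congr 1
      apply Subtype.ext
      rw [Subfield.coe_add, AddSubmonoidClass.coe_finsetSum]
      exact hasSum_rel e he Z hZ ζ y a P ha hrec)
  exact ⟨t, t', htt, congrArg Subtype.val (τ.injective h)⟩

theorem core {F K : Type} [Field F] [CharZero F] [NormedField K] [CompleteSpace K] [Algebra F K]
    (O : Subalgebra F K) (hO : ∀ u ∈ O, ‖u‖ ≤ 1) (Fil : ℕ → Submodule F K) (h1 : 1 ∈ Fil 0)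
    (hmul : ∀ i j u v, u ∈ Fil i → v ∈ Fil j → u * v ∈ Fil (i + j)) (hmono : Monotone Fil)
    (r : ℝ) (hr : 0 < r) (hr1 : r ≤ 1) (hL : ∀ d u, u ∈ Fil d → u ≠ 0 → r ^ d ≤ ‖u‖)
    (Z : K) (hZ : ‖Z‖ < 1) (hZ1 : Z ∈ Fil 1) (s₀ : Set K) (hs₀f : s₀.Finite) (hZs : Z ∉ s₀)
    (hind : AlgebraicIndepOn F id (insert Z s₀)) (hs₀ : ∀ u ∈ s₀, u ∈ O ∧ u ∈ Fil 1)
    {𝒞 : Type} {Lab : Type*} [Fintype 𝒞] [Fintype Lab] (ζ : 𝒞 → K)
    (hζ : ∀ c, ζ c ∈ Algebra.adjoin F s₀) (hζ0 : ∀ c, ζ c ≠ 0) (y : ℕ → 𝒞) (q : ℕ) (hq : 2 ≤ q)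
    (hB : ∀ j, ∃ lab : ℕ → Lab, ∀ i i', lab i = lab i' →
      ∀ s < q ^ j, y (q ^ j * i + s) = y (q ^ j * i' + s))
    (a : ℕ → K) (P : 𝒞 → K) (ha : ∀ t, a t ∈ O) (ha0 : a 0 ∈ Fil 1)
    (hP : ∀ c, P c ∈ O ∧ P c ∈ Fil 1)
    (hrec : ∀ t, a t = -P (y t) + ζ (y t) * Z * a (t + 1)) :
    ∃ t t', t < t' ∧ a t = a t' := by
  classical
  let T : Set K := insert Z s₀ ∪ insert (a 0) (Set.range P)
  have hT : T.Finite := (hs₀f.insert Z).union ((Set.finite_range P).insert _)
  obtain ⟨u, hsu, hmax⟩ := exists_maximal_algebraicIndependent (R := F) (insert Z s₀) T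
    Set.subset_union_left hind
  let u' : Set K := u \ {Z}
  have hu' : insert Z u' = u := Set.insert_sdiff_self_of_mem (hsu (Set.mem_insert _ _))
  have hu'f : u'.Finite := (hT.subset hmax.prop.2).subset Set.sdiff_subset
  let := hu'f.fintype
  have hu'O : ∀ x ∈ u', x ∈ O ∧ x ∈ Fil 1 := by
    rintro x ⟨hx, hxZ⟩
    rcases hmax.prop.2 hx with (rfl | h) | rfl | ⟨c, rfl⟩
    · exact absurd rfl hxZ
    · exact hs₀ x h
    · exact ⟨ha 0, ha0⟩
    · exact hP c
  have hi := (AlgebraicIndepOn.insert_iff (R := F) (x := id) (s := u') (i := Z)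
    (fun h => h.2 rfl)).1 (hu'.symm ▸ hmax.prop.1)
  rw [Set.image_id] at hi
  let e : MvPolynomial u' F →ₐ[F] K := MvPolynomial.aeval Subtype.val
  have her : e.range = Algebra.adjoin F u' := by
    rw [← Algebra.adjoin_range_eq_range_aeval, Subtype.range_coe]
  have hei : Function.Injective e := hi.1
  have heO : ∀ p, e p ∈ O := fun p =>
    (Algebra.adjoin_le fun x hx => (hu'O x hx).1 : Algebra.adjoin F u' ≤ O) (her ▸ ⟨p, rfl⟩)
  have hpow : ∀ x ∈ Fil 1, ∀ n, x ^ n ∈ Fil n := by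
    intro x hx n
    induction n with
    | zero => simpa using h1
    | succ n ih => rw [pow_succ]; exact hmul _ _ _ _ ih hx
  have heF : ∀ p, e p ∈ Fil p.totalDegree := by
    intro p
    rw [p.as_sum, map_sum, ← p.as_sum]
    refine Submodule.sum_mem _ fun s hs => ?_
    rw [MvPolynomial.aeval_monomial, ← Algebra.smul_def]
    refine Submodule.smul_mem _ _ (hmono (MvPolynomial.le_totalDegree hs) ?_)
    rw [Finsupp.prod, Finsupp.sum]
    induction s.support using Finset.induction_on with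
    | empty => simpa using h1
    | insert i t hi ih =>
      rw [Finset.prod_insert hi, Finset.sum_insert hi]
      exact hmul _ _ _ _ (hpow _ (hu'O i i.2).2 _) ih
  have hne : ∀ Q : (MvPolynomial u' F)[X], Q ≠ 0 → Q.eval₂ (e : MvPolynomial u' F →+* K) Z ≠ 0 := by
    intro Q hQ h0
    let e' : MvPolynomial u' F →+* Algebra.adjoin F u' :=
      (e : MvPolynomial u' F →+* K).codRestrict (Algebra.adjoin F u') fun p => her ▸ ⟨p, rfl⟩
    have he' : Function.Injective e' := fun p p' h => hei (congrArg Subtype.val h)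
    refine hi.2 ⟨Q.map e', (Polynomial.map_ne_zero_iff he').2 hQ, ?_⟩
    rw [aeval_def, eval₂_map]
    exact h0
  have hZ0 : Z ≠ 0 := by simpa using hne X X_ne_zero
  let ψ : (MvPolynomial u' F)[X] →ₐ[F] K := aevalTower e Z
  have halg : ∀ x ∈ T, ∃ p : (MvPolynomial u' F)[X][X], p ≠ 0 ∧
      eval₂ (eval₂RingHom (e : MvPolynomial u' F →+* K) Z) x p = 0 := by
    intro x hx
    have h2 : IsAlgebraic (Algebra.adjoin F u) x := by
      by_contra hcon
      have h3 : AlgebraicIndepOn F id (insert x u) :=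
        hmax.prop.1.insert (by rw [Set.image_id]; exact hcon)
      have h4 := hmax.le_of_ge ⟨h3, Set.insert_subset hx hmax.prop.2⟩ (Set.subset_insert _ _)
      exact hcon (isAlgebraic_algebraMap (⟨x, Algebra.subset_adjoin
        (h4 (Set.mem_insert _ _))⟩ : Algebra.adjoin F u))
    have h5 : Algebra.adjoin F u ≤ ψ.range := by
      refine Algebra.adjoin_le ?_
      rw [← hu']
      rintro z (rfl | hz)
      · exact ⟨X, by simp [ψ]⟩
      · exact ⟨C (MvPolynomial.X ⟨z, hz⟩), by simp [ψ, e]⟩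
    obtain ⟨p, hp0, hp⟩ := h2.tower_top_of_subalgebra_le h5
    obtain ⟨p', rfl⟩ := map_surjective ψ.rangeRestrict.toRingHom
      ψ.rangeRestrict_surjective p
    refine ⟨p', fun h => hp0 (by rw [h, Polynomial.map_zero]), ?_⟩
    rw [aeval_def, eval₂_map] at hp
    exact hp
  have hζ' : ∀ c, ∃ z, e z = ζ c := fun c => by
    have : ζ c ∈ e.range := by
      rw [her]
      refine Algebra.adjoin_mono (fun x hx => ?_) (hζ c)
      exact ⟨hsu (Or.inr hx), fun h => hZs (h ▸ hx)⟩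
    exact this
  choose ζ' hζ' using hζ'
  refine core_indexed (e : MvPolynomial u' F →+* K) (fun p => hO _ (heO p)) Z hZ hZ0 (r ^ 2)
    (by positivity) (fun d Q hQ hd ht => ?_) ζ' (fun c h => hζ0 c (by rw [← hζ', h, map_zero]))
    y q hq hB a P (fun t => hO _ (ha t)) (halg _ (Or.inr (Or.inl rfl)))
    (fun c => halg _ (Or.inr (Or.inr ⟨c, rfl⟩))) (fun t => by
      rw [hrec t, ← hζ']; rfl)
  have h6 : Q.eval₂ (e : MvPolynomial u' F →+* K) Z ∈ Fil (d + d) := by
    rw [eval₂_eq_sum_range' _ (Nat.lt_succ_of_le hd)]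
    refine Submodule.sum_mem _ fun t ht' => hmul _ _ _ _ (hmono (ht t) (heF _)) ?_
    exact hmono (Nat.lt_succ_iff.1 (Finset.mem_range.1 ht')) (hpow Z hZ1 t)
  refine le_trans ?_ (hL _ _ h6 (hne Q hQ))
  rw [← pow_mul]
  exact pow_le_pow_of_le_one hr.le hr1 (by omega)

end Pool.Agent.MP_1e211b_nt.H60
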