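import Pool.Agent.MP_1e211b_nt.H60.Ultra
import Pool.Agent.MP_1e211b_nt.H60.Core

set_option autoImplicit false

namespace Pool.Agent.MP_1e211b_nt.H60

open Filter Topology

theorem algInd_of_abv {F K ι : Type*} [Field F] [Field K] [Algebra F K] (N : AbsoluteValue K ℝ)
    (hN : IsNonarchimedean N) (h1 : ∀ f : F, f ≠ 0 → N (algebraMap F K f) = 1) (x : ι → K)
    (hx : ∀ i, x i ≠ 0)
    (hinj : Function.Injective fun s : ι →₀ ℕ => N (s.prod fun i n => x i ^ n)) :
    AlgebraicIndependent F x := by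
  classical
  rw [algebraicIndependent_iff]
  intro p hp
  by_contra h0
  obtain ⟨s₀, hs₀, hmax⟩ := p.support.exists_max_image
    (fun s : ι →₀ ℕ => N (s.prod fun i n => x i ^ n)) (MvPolynomial.support_nonempty.2 h0)
  have hterm : ∀ s ∈ p.support, N (MvPolynomial.aeval x (MvPolynomial.monomial s (p.coeff s))) =
      N (s.prod fun i n => x i ^ n) := by
    intro s hs
    rw [MvPolynomial.aeval_monomial, map_mul, h1 _ (MvPolynomial.mem_support_iff.1 hs), one_mul]
  rw [p.as_sum, map_sum] at hp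
  have h2 := hN.apply_sum_eq_of_lt (fun a => (N.map_neg a).symm)
    (l := fun s => MvPolynomial.aeval x (MvPolynomial.monomial s (p.coeff s))) hs₀
    (fun s hs hne => by
      rw [hterm s hs, hterm s₀ hs₀]
      exact lt_of_le_of_ne (hmax s hs) fun h => hne (hinj h))
  rw [hp, map_zero, hterm s₀ hs₀] at h2
  exact Finsupp.prod_ne_zero_iff.2 (fun i _ => pow_ne_zero _ (hx i)) (N.eq_zero.1 h2.symm)

namespace Sc

variable (S : Sc)

noncomputable instance algFK : Algebra S.F S.K := (Subfield.inclusion S.F_le_K).toAlgebra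

theorem coe_algebraMap (f : S.F) : ((algebraMap S.F S.K f : S.K) : S.G) = f := rfl

theorem exists_common_den (t : Finset S.K) :
    ∃ C : ℝ, 1 ≤ C ∧ ∃ B : S.K, B ≠ 0 ∧ S.Sz C B ∧ ∀ u ∈ t, S.Sz C ((B : S.G) * u) := by
  classical
  induction t using Finset.induction_on with
  | empty => exact ⟨1, le_rfl, 1, one_ne_zero, Sz.one, by simp⟩
  | insert u t _ ih =>
    obtain ⟨C, hC, B, hB0, hB, ht⟩ := ih
    obtain ⟨D, hD, a, b, ha, hb, hb0, hu⟩ := u.2
    have hC0 : 0 < C := by linarith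
    have hD0 : 0 < D := by linarith
    refine ⟨C * D, one_le_mul_of_one_le_of_one_le hC hD, B * ⟨b, hb.mem_K⟩,
      mul_ne_zero hB0 fun h => hb0 (congrArg Subtype.val h), hB.mul hC0 hD0 hb, fun w hw => ?_⟩
    rcases Finset.mem_insert.1 hw with rfl | hw
    · have : ((B * ⟨b, hb.mem_K⟩ : S.K) : S.G) * w = B * a := by
        rw [hu]; push_cast; field_simp
      rw [this]; exact hB.mul hC0 hD0 ha
    · have : ((B * ⟨b, hb.mem_K⟩ : S.K) : S.G) * w = B * w * b := by
        push_cast; ring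
      rw [this]; exact (ht w hw).mul hC0 hD0 hb

/-- The height filtration. -/
def Fil (C : ℝ) (hC : 0 < C) (B : S.K) (d : ℕ) : Submodule S.F S.K where
  carrier := {u | ∃ β : S.G, β ≠ 0 ∧ S.Sz 1 β ∧ S.Sz (C ^ d) (β * ((B : S.G) ^ d * u))}
  add_mem' := by
    rintro u w ⟨β, hβ0, hβ, hu⟩ ⟨γ, hγ0, hγ, hw⟩
    refine ⟨β * γ, mul_ne_zero hβ0 hγ0, by simpa using hβ.mul one_pos one_pos hγ, ?_⟩
    have h1 := hγ.mul one_pos (by positivity) hu
    have h2 := hβ.mul one_pos (by positivity) hw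
    rw [one_mul] at h1 h2
    convert h1.add (by positivity) h2 using 1
    push_cast; ring
  zero_mem' := ⟨1, one_ne_zero, Sz.one, ⟨fun _ => 0, by simp; rfl, fun C' hC' =>
    Eventually.of_forall fun k => by
      simpa using pow_nonneg ((pow_pos hC d).trans hC').le _⟩⟩
  smul_mem' := by
    rintro ⟨_, a, b, ha, hb, hb0, rfl⟩ u ⟨β, hβ0, hβ, hu⟩
    refine ⟨β * b, mul_ne_zero hβ0 hb0, by simpa using hβ.mul one_pos one_pos hb, ?_⟩
    have h1 := ha.mul one_pos (by positivity) hu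
    rw [one_mul] at h1
    convert h1 using 1
    rw [Algebra.smul_def, Subfield.coe_mul, coe_algebraMap]
    field_simp

/-- The 2-adic limit absolute value. -/
noncomputable abbrev N₂ : AbsoluteValue S.K ℝ := S.N (adm_padic 2)

theorem ultra_core {ι : Type} [Fintype ι] (Z : S.K) (ω : ι → S.K)
    (hind : AlgebraicIndependent S.F fun o : Option ι => o.elim Z ω) (hZ : S.N₂ Z < 1)
    (hω : ∀ i, S.N₂ (ω i) ≤ 1) {𝒞 : Type} {Lab : Type*} [Fintype 𝒞] [Fintype Lab]
    (ζ : 𝒞 → S.K) (hζ : ∀ c, ζ c ∈ Algebra.adjoin S.F (Set.range ω)) (hζ0 : ∀ c, ζ c ≠ 0)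
    (y : ℕ → 𝒞) (q : ℕ) (hq : 2 ≤ q)
    (hB : ∀ j, ∃ lab : ℕ → Lab, ∀ i i', lab i = lab i' →
      ∀ s < q ^ j, y (q ^ j * i + s) = y (q ^ j * i' + s))
    (a : ℕ → S.K) (P : 𝒞 → S.K) (ha : ∀ t, S.N₂ (a t) ≤ 1) (hP : ∀ c, S.N₂ (P c) ≤ 1)
    (hrec : ∀ t, a t = -P (y t) + ζ (y t) * Z * a (t + 1)) :
    ∃ t t', t < t' ∧ a t = a t' := by
  classical
  obtain ⟨L, _, _, _, j, hj⟩ : ∃ (L : Type) (_ : NormedField L) (_ : CompleteSpace L)
      (_ : Algebra S.F L) (j : S.K →ₐ[S.F] L), ∀ u, ‖j u‖ = S.N₂ u := by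
    let L := S.N₂.Completion
    let j₀ : S.K →+* L := UniformSpace.Completion.coeRingHom.comp
      (WithAbs.equiv S.N₂).symm.toRingHom
    have hj₀ : ∀ u, ‖j₀ u‖ = S.N₂ u := fun u => UniformSpace.Completion.norm_coe _
    let alg : Algebra S.F L := (j₀.comp (algebraMap S.F S.K)).toAlgebra
    exact ⟨L, inferInstance, inferInstance, alg, { j₀ with commutes' := fun _ => rfl }, hj₀⟩
  have hji : Function.Injective j := j.injective
  let O : Subalgebra S.F S.K :=
    { carrier := {u | S.N₂ u ≤ 1}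
      mul_mem' := fun {u w} hu hw => by
        simp only [Set.mem_ofPred_eq, map_mul] at hu hw ⊢
        exact mul_le_one₀ hu (S.N₂.nonneg _) hw
      add_mem' := fun {u w} hu hw => (N_nonarch _ u w).trans (max_le hu hw)
      algebraMap_mem' := fun f => by
        by_cases hf : f = 0
        · simp [hf]
        · exact (N_eq_one _ f.2 (by simpa using hf)).le }
  obtain ⟨C, hC, B, hB0, hBC, hBu⟩ := S.exists_common_den
    (insert Z (insert (a 0) (Finset.univ.image ω ∪ Finset.univ.image P)))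
  have hC0 : 0 < C := by linarith
  have hF1 : ∀ u : S.K, S.Sz C ((B : S.G) * u) → j u ∈ (S.Fil C hC0 B 1).map j.toLinearMap :=
    fun u hu => ⟨u, ⟨1, one_ne_zero, Sz.one, by simpa using hu⟩, rfl⟩
  have hind' : AlgebraicIndependent S.F fun o : Option ι => o.elim (j Z) (j ∘ ω) := by
    convert hind.map' hji using 2 with o
    cases o <;> rfl
  have hrange : Set.range (fun o : Option ι => o.elim (j Z) (j ∘ ω)) =
      insert (j Z) (Set.range (j ∘ ω)) := by
    rw [Option.range_eq]; rfl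
  obtain ⟨t, t', htt, h⟩ := core (O.map j) (by rintro _ ⟨u, hu, rfl⟩; exact (hj u).trans_le hu)
    (fun d => (S.Fil C hC0 B d).map j.toLinearMap)
    ⟨1, ⟨1, one_ne_zero, Sz.one, by simpa using Sz.one⟩, map_one j⟩
    (by
      rintro d d' _ _ ⟨u, ⟨β, hβ0, hβ, hu⟩, rfl⟩ ⟨w, ⟨γ, hγ0, hγ, hw⟩, rfl⟩
      refine ⟨u * w, ⟨β * γ, mul_ne_zero hβ0 hγ0, by simpa using hβ.mul one_pos one_pos hγ, ?_⟩,
        map_mul j u w⟩
      convert hu.mul (by positivity) (by positivity) hw using 1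
      · rw [pow_add]
      · push_cast; ring)
    (monotone_nat_of_le_succ fun d => Submodule.map_mono fun u hu => by
      obtain ⟨β, hβ0, hβ, hu⟩ := hu
      refine ⟨β, hβ0, hβ, ?_⟩
      convert hu.mul (by positivity) hC0 hBC using 1
      · rw [pow_succ]
      · ring)
    C⁻¹ (inv_pos.2 hC0) (inv_le_one_of_one_le₀ hC)
    (by
      rintro d _ ⟨u, ⟨β, hβ0, hβ, hu⟩, rfl⟩ h0
      have hu0 : u ≠ 0 := fun h => h0 (by simp [h])
      have h1 := N_ge (adm_padic 2) (pow_pos hC0 d)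
        (u := ⟨β, hβ.mem_K⟩ * (B ^ d * u)) hu (mul_ne_zero
          (fun h => hβ0 (congrArg Subtype.val h)) (mul_ne_zero (pow_ne_zero _ hB0) hu0))
      rw [map_mul, map_mul, map_pow, N_eq_one _ hβ.mem_F
        (fun h => hβ0 (congrArg Subtype.val h)), one_mul] at h1
      have h2 : S.N₂ B ^ d ≤ 1 := pow_le_one₀ (S.N₂.nonneg _)
        (N_le_one _ (Rat.AbsoluteValue.padic_le_one 2) hBC)
      rw [inv_pow]
      exact h1.trans ((mul_le_of_le_one_left (S.N₂.nonneg _) h2).trans (hj u).ge))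
    (j Z) ((hj Z).trans_lt hZ) (hF1 Z (hBu _ (by simp))) (Set.range (j ∘ ω))
    (Set.finite_range _)
    (by
      rintro ⟨i, hi⟩
      have := hind'.injective (a₁ := some i) (a₂ := none) hi
      simp at this)
    (hind'.to_subtype_range' hrange)
    (by
      rintro _ ⟨i, rfl⟩
      exact ⟨⟨ω i, hω i, rfl⟩, hF1 _ (hBu _ (by simp))⟩)
    (fun c => j (ζ c))
    (fun c => by
      rw [Set.range_comp, ← AlgHom.map_adjoin]
      exact ⟨ζ c, hζ c, rfl⟩)
    (fun c => (map_ne_zero_iff j hji).2 (hζ0 c)) y q hq hB (fun t => j (a t)) (fun c => j (P c))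
    (fun t => ⟨a t, ha t, rfl⟩) (hF1 _ (hBu _ (by simp)))
    (fun c => ⟨⟨P c, hP c, rfl⟩, hF1 _ (hBu _ (by simp))⟩)
    (fun t => by rw [hrec t]; simp)
  exact ⟨t, t', htt, hji h⟩

end Sc

end Pool.Agent.MP_1e211b_nt.H60
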