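import Mathlib

set_option autoImplicit false

namespace Pool.Agent.MP_1e211b_nt.H60

/-- The 3x+1 map on rationals with odd denominator. -/
def T (x : ℚ) : ℚ := if x.num % 2 = 1 then (3 * x + 1) / 2 else x / 2

/-- The parity sequence of the orbit of `α`. -/
def par (α : ℚ) (i : ℕ) : ℕ := if (T^[i] α).num % 2 = 1 then 1 else 0

end Pool.Agent.MP_1e211b_nt.H60
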