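import Mathlib

set_option autoImplicit false

namespace Pool.Agent.MP_1e211b_nt.H60

open Polynomial

variable {L M : Type*} [Field L] [Field M] [Algebra L M]

/-- Independence over the elements algebraic over `L`. -/
def IndOn (L : Type*) {M ι : Type*} [Field L] [Field M] [Algebra L M] (s : Finset ι)
    (h : ι → M) : Prop :=
  ∀ c : ι → M, (∀ i, IsAlgebraic L (c i)) → ∑ i ∈ s, c i * h i = 0 → ∀ i ∈ s, c i = 0

/-- A ring endomorphism preserving `L`. -/
def PresL (L : Type*) {M : Type*} [Field L] [Field M] [Algebra L M] (σ : M →+* M) : Prop :=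
  ∀ l : L, ∃ l' : L, σ (algebraMap L M l) = algebraMap L M l'

theorem PresL.isAlgebraic {σ : M →+* M} (h : PresL L σ) {x : M} (hx : IsAlgebraic L x) :
    IsAlgebraic L (σ x) := by
  choose t ht using h
  have hi := (algebraMap L M).injective
  let τ : L →+* L :=
    { toFun := t
      map_one' := hi (by rw [← ht]; simp)
      map_mul' := fun a b => hi (by rw [map_mul, ← ht, ← ht, ← ht]; simp)
      map_zero' := hi (by rw [← ht]; simp)
      map_add' := fun a b => hi (by rw [map_add, ← ht, ← ht, ← ht]; simp) }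
  exact hx.ringHom_of_comp_eq τ σ τ.injective (by ext l; exact (ht l).symm)

theorem IndOn.map {ι : Type*} {s : Finset ι} {h : ι → M} (H : IndOn L s h) (ρ : M ≃+* M)
    (hρ : PresL L (ρ.symm : M →+* M)) : IndOn L s fun i => ρ (h i) := by
  intro c hc h0 i hi
  have h1 := congrArg ρ.symm h0
  rw [map_sum, map_zero] at h1
  simp only [map_mul, RingEquiv.symm_apply_apply] at h1
  have := H (fun i => ρ.symm (c i)) (fun i => hρ.isAlgebraic (hc i)) h1 i hi
  simpa using this

/-- A finite extension containing all coordinates. -/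
theorem exists_coord_field (V : Submodule L M) [FiniteDimensional L V] :
    ∃ E : IntermediateField L M, FiniteDimensional L E ∧
      ∀ {ι : Type} (s : Finset ι) (h : ι → M) (x : M) (c : ι → M), (∀ i ∈ s, h i ∈ V) → x ∈ V →
        IndOn L s h → (∀ i, IsAlgebraic L (c i)) → x = ∑ i ∈ s, c i * h i →
        ∀ i ∈ s, c i ∈ E := by
  classical
  obtain ⟨t, ht⟩ : V.FG := Module.Finite.iff_fg.1 inferInstance
  let A := algebraicClosure L M
  obtain ⟨b, hbt, hsp, hli⟩ := exists_linearIndependent A (t : Set M)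
  have hbf : b.Finite := t.finite_toSet.subset hbt
  obtain ⟨b, rfl⟩ := hbf.exists_finset_coe
  have hb : IndOn L b id := by
    intro c hc h0 i hi
    have := Fintype.linearIndependent_iff.1 hli
      (fun y => (⟨c y, mem_algebraicClosure_iff.2 (hc y)⟩ : A)) (by
        rw [← h0, ← Finset.sum_coe_sort b]; rfl) ⟨i, hi⟩
    exact congrArg Subtype.val this
  have hco : ∀ x ∈ t, ∃ g : M → M, (∀ y, IsAlgebraic L (g y)) ∧ x = ∑ y ∈ b, g y * y := by
    intro x hx
    have : x ∈ Submodule.span A (b : Set M) := hsp ▸ Submodule.subset_span hx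
    obtain ⟨f, -, hf⟩ := Submodule.mem_span_finset.1 this
    exact ⟨fun y => f y, fun y => mem_algebraicClosure_iff.1 (f y).2, hf.symm⟩
  choose! g hg hgx using hco
  let S : Set M := (fun p : M × M => g p.1 p.2) '' ((t ×ˢ b : Finset (M × M)) : Set (M × M))
  have hSf : Finite S := ((t ×ˢ b).finite_toSet.image _).to_subtype
  have hSa : ∀ x ∈ S, IsIntegral L x := by
    rintro _ ⟨p, hp, rfl⟩
    exact (hg _ (Finset.mem_product.1 hp).1 _).isIntegral
  let E := IntermediateField.adjoin L S
  have hE : FiniteDimensional L E := IntermediateField.finiteDimensional_adjoin hSa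
  have hEa : ∀ e : E, IsAlgebraic L (e : M) := fun e =>
    (IsAlgebraic.of_finite L e).algebraMap
  have hV : ∀ v ∈ V, ∃ γ : M → E, v = ∑ y ∈ b, (γ y : M) * y := by
    intro v hv
    rw [← ht] at hv
    induction hv using Submodule.span_induction with
    | mem x hx =>
      refine ⟨fun y => if hy : y ∈ b then ⟨g x y, IntermediateField.subset_adjoin L S
        ⟨(x, y), by simpa using ⟨hx, hy⟩, rfl⟩⟩ else 0, ?_⟩
      refine (hgx x hx).trans (Finset.sum_congr rfl fun y hy => ?_)
      simp [hy]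
    | zero => exact ⟨0, by simp⟩
    | add x y _ _ hx hy =>
      obtain ⟨γ, rfl⟩ := hx
      obtain ⟨γ', rfl⟩ := hy
      exact ⟨γ + γ', by simp [add_mul, Finset.sum_add_distrib]⟩
    | smul a x _ hx =>
      obtain ⟨γ, rfl⟩ := hx
      refine ⟨fun y => a • γ y, ?_⟩
      rw [Finset.smul_sum]
      refine Finset.sum_congr rfl fun y _ => ?_
      simp
  obtain ⟨ψ, hψ⟩ := (Algebra.linearMap E M).exists_leftInverse_of_injective
    (LinearMap.ker_eq_bot.2 (algebraMap E M).injective)
  have hψ1 : ∀ e : E, ψ (e : M) = e := fun e => LinearMap.congr_fun hψ e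
  have hψ2 : ∀ (e : E) (m : M), ψ (m * e) = ψ m * e := fun e m => by
    rw [mul_comm m, mul_comm _ e]
    exact ψ.map_smul e m
  refine ⟨E, hE, ?_⟩
  intro ι s h x c hh hx hind hc hxe
  choose! γ hγ using fun i (hi : i ∈ s) => hV _ (hh i hi)
  obtain ⟨β, hβ⟩ := hV x hx
  have key : ∀ c' : ι → M, ∑ i ∈ s, c' i * h i =
      ∑ y ∈ b, (∑ i ∈ s, c' i * (γ i y : M)) * y := by
    intro c'
    simp only [Finset.sum_mul]
    rw [Finset.sum_comm]
    refine Finset.sum_congr rfl fun i hi => ?_
    rw [hγ i hi, Finset.mul_sum]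
    exact Finset.sum_congr rfl fun y _ => by ring
  have hsalg : ∀ (c' : ι → M), (∀ i, IsAlgebraic L (c' i)) → ∀ y,
      IsAlgebraic L (∑ i ∈ s, c' i * (γ i y : M)) := by
    intro c' hc' y
    exact mem_algebraicClosure_iff.1 (sum_mem fun i _ => mul_mem
      (mem_algebraicClosure_iff.2 (hc' i)) (mem_algebraicClosure_iff.2 (hEa _)))
  have h1 : ∀ y ∈ b, (β y : M) = ∑ i ∈ s, c i * (γ i y : M) := by
    intro y hy
    have := hb (fun y => (β y : M) - ∑ i ∈ s, c i * (γ i y : M))
      (fun y => (hEa _).sub (hsalg c hc y)) (by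
        simp only [sub_mul, Finset.sum_sub_distrib, id]
        rw [← hβ, ← key, ← hxe, sub_self]) y hy
    exact sub_eq_zero.1 this
  have h2 : ∀ y ∈ b, (β y : M) = ∑ i ∈ s, (ψ (c i) : M) * (γ i y : M) := by
    intro y hy
    have h3 := congrArg ψ (h1 y hy)
    rw [hψ1, map_sum] at h3
    simp only [hψ2] at h3
    rw [h3]
    simp
  have h4 : x = ∑ i ∈ s, (ψ (c i) : M) * h i := by
    rw [key, hβ]
    exact Finset.sum_congr rfl fun y hy => by rw [h2 y hy]
  intro i hi
  have h5 := hind (fun i => c i - (ψ (c i) : M)) (fun i => (hc i).sub (hEa _)) (by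
    simp only [sub_mul, Finset.sum_sub_distrib]
    rw [← hxe, ← h4, sub_self]) i hi
  rw [sub_eq_zero.1 h5]
  exact (ψ (c i)).2

theorem indOn_of_linearIndependent (V : Submodule L M) [FiniteDimensional L V]
    (P : Set (M ≃+* M)) (hP : ∀ ρ ∈ P, PresL L (ρ : M →+* M) ∧ PresL L (ρ.symm : M →+* M) ∧
      ∀ v ∈ V, ρ v ∈ V)
    (hC : ∀ (φ : M) (E : IntermediateField L M), FiniteDimensional L E → (∀ ρ ∈ P, ρ φ ∈ E) →
      ∃ l, φ = algebraMap L M l)
    {ι : Type} (H : ι → M) (hH : ∀ i, H i ∈ V) (hli : LinearIndependent L H) (s : Finset ι) :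
    IndOn L s H := by
  classical
  obtain ⟨E, hE, hco⟩ := exists_coord_field V
  induction s using Finset.induction_on with
  | empty => intro c _ _ i hi; simp at hi
  | insert j s hj ih =>
    intro c hc h0
    rw [Finset.sum_insert hj] at h0
    by_cases hcj : c j = 0
    · rw [hcj, zero_mul, zero_add] at h0
      intro i hi
      rcases Finset.mem_insert.1 hi with rfl | hi
      · exact hcj
      · exact ih c hc h0 i hi
    exfalso
    have hc' : ∀ i, IsAlgebraic L (-(c i * (c j)⁻¹)) := fun i =>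
      ((hc i).mul (IsAlgebraic.inv_iff.2 (hc j))).neg
    have h1 : H j = ∑ i ∈ s, (-(c i * (c j)⁻¹)) * H i := by
      have : ∑ i ∈ s, (-(c i * (c j)⁻¹)) * H i = -(c j)⁻¹ * ∑ i ∈ s, c i * H i := by
        rw [Finset.mul_sum]; exact Finset.sum_congr rfl fun i _ => by ring
      rw [this, eq_neg_of_add_eq_zero_right h0]
      field_simp
    have h2 : ∀ i ∈ s, ∃ l, -(c i * (c j)⁻¹) = algebraMap L M l := by
      intro i hi
      refine hC _ E hE fun ρ hρ => ?_
      obtain ⟨h3, h4, h5⟩ := hP ρ hρ
      refine hco s (fun i => ρ (H i)) (ρ (H j)) (fun i => ρ (-(c i * (c j)⁻¹)))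
        (fun i _ => h5 _ (hH i)) (h5 _ (hH j)) (ih.map ρ h4) (fun i => h3.isAlgebraic (hc' i))
        ?_ i hi
      rw [h1, map_sum]
      simp only [map_mul]
    choose! l hl using h2
    have h6 := linearIndependent_iff'.1 hli (insert j s) (Function.update l j (-1)) (by
      rw [Finset.sum_insert hj, Function.update_self, h1, neg_one_smul, neg_add_eq_zero]
      refine Finset.sum_congr rfl fun i hi => ?_
      have hij : i ≠ j := fun h => hj (h ▸ hi)
      rw [Function.update_of_ne hij, hl i hi, Algebra.smul_def])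
      j (Finset.mem_insert_self _ _)
    simp at h6

variable {Ω : Type*} [Field Ω] [Algebra M Ω] [Algebra L Ω] [IsScalarTower L M Ω]

theorem eq_zero_of_indOn [CharZero L] {ι : Type} [Fintype ι] (H : ι → M)
    (hH : IndOn L Finset.univ H) (π : ι → Ω) (hπ : ∀ i, IsAlgebraic L (π i))
    (h0 : ∑ i, π i * algebraMap M Ω (H i) = 0) (i : ι) : π i = 0 := by
  classical
  let E := IntermediateField.adjoin L (Set.range π)
  have hE : FiniteDimensional L E := IntermediateField.finiteDimensional_adjoin (by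
    rintro _ ⟨i, rfl⟩; exact (hπ i).isIntegral)
  obtain ⟨θ', hθ'⟩ := Field.exists_primitive_element L E
  have hθi : IsIntegral L θ' := IsIntegral.of_finite L θ'
  obtain ⟨θ, hθ⟩ : ∃ θ : Ω, θ = θ' := ⟨_, rfl⟩
  have hθL : IsIntegral L θ := hθ ▸ hθi.algebraMap
  have hθM : IsIntegral M θ := hθL.tower_top
  have hp : ∀ i, ∃ p : L[X], π i = aeval θ p := by
    intro i
    have h1 : (⟨π i, IntermediateField.subset_adjoin L _ ⟨i, rfl⟩⟩ : E) ∈
        (IntermediateField.adjoin L {θ'}).toSubalgebra := by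
      rw [hθ']; trivial
    rw [IntermediateField.adjoin_simple_toSubalgebra_of_isAlgebraic hθi.isAlgebraic,
      Algebra.adjoin_singleton_eq_range_aeval] at h1
    obtain ⟨p, hp⟩ := h1
    refine ⟨p, ?_⟩
    have h2 := congrArg (E.val) hp
    rw [hθ]
    simpa [← aeval_algHom_apply] using h2.symm
  choose p hp using hp
  let A := algebraicClosure L M
  have hgm : (minpoly M θ).Monic := minpoly.monic hθM
  have hgl : minpoly M θ ∈ lifts (algebraMap A M) := by
    rw [lifts_iff_coeff_lifts]
    intro n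
    exact ⟨⟨_, mem_algebraicClosure_iff'.2 (isIntegral_coeff_of_dvd (minpoly L θ) _
      (minpoly.monic hθL) hgm (minpoly.dvd_map_of_isScalarTower L M θ) n)⟩, rfl⟩
  obtain ⟨g, hg, -, hgm'⟩ := lifts_and_degree_eq_and_monic hgl hgm
  let r : ι → M[X] := fun i => (p i).map (algebraMap L M) %ₘ minpoly M θ
  have hr1 : ∀ i n, IsAlgebraic L ((r i).coeff n) := by
    intro i n
    have : r i = (((p i).map (algebraMap L A)) %ₘ g).map (algebraMap A M) := by
      rw [map_modByMonic _ hgm', hg, Polynomial.map_map, ← IsScalarTower.algebraMap_eq]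
    rw [this, coeff_map]
    exact mem_algebraicClosure_iff.1 (Subtype.property _)
  have hr2 : ∀ i, aeval θ (r i) = π i := by
    intro i
    rw [hp i]
    simp only [r]
    rw [aeval_modByMonic_eq_self_of_root (minpoly.aeval M θ), aeval_map_algebraMap]
  have hr3 : ∀ i, (r i).degree < (minpoly M θ).degree := fun i =>
    degree_modByMonic_lt _ hgm
  have hS : ∑ i, C (H i) * r i = 0 := by
    by_contra hne
    have h1 := minpoly.degree_le_of_ne_zero M θ hne (by
      rw [map_sum, ← h0]
      exact Finset.sum_congr rfl fun i _ => by rw [map_mul, aeval_C, hr2, mul_comm])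
    refine absurd h1 (not_le.2 ?_)
    refine (degree_sum_le _ _).trans_lt ?_
    rw [Finset.sup_lt_iff (bot_lt_iff_ne_bot.2 (degree_ne_bot.2 hgm.ne_zero))]
    intro i _
    rw [← smul_eq_C_mul]
    exact (degree_smul_le _ _).trans_lt (hr3 i)
  have hr0 : r i = 0 := by
    ext n
    have h1 := congrArg (fun q : M[X] => q.coeff n) hS
    simp only [finsetSum_coeff, coeff_C_mul, coeff_zero] at h1
    exact hH (fun i => (r i).coeff n) (fun i => hr1 i n)
      (by rw [← h1]; exact Finset.sum_congr rfl fun i _ => mul_comm _ _) i (Finset.mem_univ _)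
  rw [← hr2, hr0, map_zero]

/-- Linear relations with algebraic coefficients descend to `L`. -/
theorem relation_descends [CharZero L] (V : Submodule L M) [FiniteDimensional L V]
    (P : Set (M ≃+* M)) (hP : ∀ ρ ∈ P, PresL L (ρ : M →+* M) ∧ PresL L (ρ.symm : M →+* M) ∧
      ∀ v ∈ V, ρ v ∈ V)
    (hC : ∀ (φ : M) (E : IntermediateField L M), FiniteDimensional L E → (∀ ρ ∈ P, ρ φ ∈ E) →
      ∃ l, φ = algebraMap L M l)
    {ι : Type} [Fintype ι] (g : ι → M) (hg : ∀ i, g i ∈ V) (π : ι → Ω)
    (hπ : ∀ i, IsAlgebraic L (π i)) (h0 : ∑ i, π i * algebraMap M Ω (g i) = 0)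
    (lam : Ω →ₗ[L] L) : ∑ i, algebraMap L M (lam (π i)) * g i = 0 := by
  classical
  obtain ⟨κ, a, ha, hsp, hli⟩ := exists_linearIndependent' L g
  have : Finite κ := Finite.of_injective a ha
  have := Fintype.ofFinite κ
  have hr : ∀ i, ∃ r : κ → L, ∑ j, r j • g (a j) = g i := fun i =>
    (Submodule.mem_span_range_iff_exists_fun L).1 (hsp ▸ Submodule.subset_span ⟨i, rfl⟩)
  choose r hr using hr
  have hind := indOn_of_linearIndependent V P hP hC (g ∘ a) (fun j => hg _) hli Finset.univ
  have h1 := eq_zero_of_indOn (g ∘ a) hind (fun j => ∑ i, r i j • π i) (fun j =>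
    mem_algebraicClosure_iff.1 (sum_mem fun i _ => (algebraicClosure L Ω).smul_mem
      (mem_algebraicClosure_iff.2 (hπ i)))) (by
    rw [← h0]
    simp only [Finset.sum_mul]
    rw [Finset.sum_comm]
    refine Finset.sum_congr rfl fun i _ => ?_
    rw [← hr i, map_sum, Finset.mul_sum]
    refine Finset.sum_congr rfl fun j _ => ?_
    rw [Algebra.smul_def, Algebra.smul_def, map_mul, ← IsScalarTower.algebraMap_apply]
    simp only [Function.comp]
    ring)
  have h2 : ∀ j, ∑ i, r i j * lam (π i) = 0 := fun j => by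
    have := congrArg lam (h1 j)
    simpa using this
  calc ∑ i, algebraMap L M (lam (π i)) * g i
      = ∑ i, ∑ j, algebraMap L M (r i j * lam (π i)) * g (a j) := by
        refine Finset.sum_congr rfl fun i _ => ?_
        rw [← hr i, Finset.mul_sum]
        refine Finset.sum_congr rfl fun j _ => ?_
        rw [Algebra.smul_def, map_mul]; ring
    _ = 0 := by
        rw [Finset.sum_comm]
        refine Finset.sum_eq_zero fun j _ => ?_
        rw [← Finset.sum_mul, ← map_sum, h2, map_zero, zero_mul]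

end Pool.Agent.MP_1e211b_nt.H60
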