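import Mathlib

set_option autoImplicit false

namespace Pool.Agent.MP_1e211b_nt.H60

open PowerSeries

section Ev
variable {A K : Type*} [CommRing A] [NormedField K] [CompleteSpace K]

omit [CompleteSpace K] in
theorem ev_summable (e : A →+* K) (he : ∀ a, ‖e a‖ ≤ 1) (Z : K) (hZ : ‖Z‖ < 1) (f : A⟦X⟧) :
    Summable (fun t => ‖e (coeff t f) * Z ^ t‖) := by
  refine Summable.of_nonneg_of_le (fun _ => norm_nonneg _) (fun t => ?_)
    (summable_geometric_of_lt_one (norm_nonneg Z) hZ)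
  rw [norm_mul, norm_pow]
  exact mul_le_of_le_one_left (by positivity) (he _)

/-- Evaluation of power series at a point of norm less than one. -/
noncomputable def ev (e : A →+* K) (he : ∀ a, ‖e a‖ ≤ 1) (Z : K) (hZ : ‖Z‖ < 1) :
    A⟦X⟧ →+* K where
  toFun f := ∑' t, e (coeff t f) * Z ^ t
  map_one' := by
    rw [tsum_eq_single 0]
    · simp
    · intro t ht
      simp [coeff_one, ht]
  map_mul' f g := by
    rw [tsum_mul_tsum_eq_tsum_sum_antidiagonal_of_summable_norm (ev_summable e he Z hZ f)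
      (ev_summable e he Z hZ g)]
    refine tsum_congr fun t => ?_
    rw [coeff_mul, map_sum, Finset.sum_mul]
    refine Finset.sum_congr rfl fun p hp => ?_
    rw [Finset.HasAntidiagonal.mem_antidiagonal] at hp
    rw [← hp, map_mul, pow_add]; ring
  map_zero' := by simp
  map_add' f g := by
    rw [← (ev_summable e he Z hZ f).of_norm.tsum_add (ev_summable e he Z hZ g).of_norm]
    refine tsum_congr fun t => ?_
    rw [map_add, map_add, add_mul]

variable (e : A →+* K) (he : ∀ a, ‖e a‖ ≤ 1) (Z : K) (hZ : ‖Z‖ < 1)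

theorem ev_apply (f : A⟦X⟧) : ev e he Z hZ f = ∑' t, e (coeff t f) * Z ^ t := rfl

theorem ev_hasSum (f : A⟦X⟧) : HasSum (fun t => e (coeff t f) * Z ^ t) (ev e he Z hZ f) :=
  (ev_summable e he Z hZ f).of_norm.hasSum

theorem ev_C (a : A) : ev e he Z hZ (C a) = e a := by
  rw [ev_apply, tsum_eq_single 0]
  · simp
  · intro t ht
    simp [coeff_C, ht]

theorem ev_X : ev e he Z hZ X = Z := by
  rw [ev_apply, tsum_eq_single 1]
  · simp
  · intro t ht
    simp [coeff_X, ht]

theorem ev_norm_le (f : A⟦X⟧) : ‖ev e he Z hZ f‖ ≤ (1 - ‖Z‖)⁻¹ := by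
  rw [ev_apply, ← tsum_geometric_of_lt_one (norm_nonneg Z) hZ]
  refine tsum_of_norm_bounded (summable_geometric_of_lt_one (norm_nonneg Z) hZ).hasSum fun t => ?_
  rw [norm_mul, norm_pow]
  exact mul_le_of_le_one_left (by positivity) (he _)

theorem ev_coe (p : Polynomial A) : ev e he Z hZ (p : A⟦X⟧) = p.eval₂ e Z := by
  induction p using Polynomial.induction_on' with
  | add p q hp hq => rw [Polynomial.coe_add, map_add, hp, hq, Polynomial.eval₂_add]
  | monomial n a =>
    rw [Polynomial.eval₂_monomial, ← Polynomial.C_mul_X_pow_eq_monomial, Polynomial.coe_mul,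
      Polynomial.coe_pow, Polynomial.coe_C, Polynomial.coe_X, map_mul, map_pow, ev_C, ev_X]

end Ev

section Growth
variable {ι F : Type*} [Field F]

/-- Linear growth of the degrees of the coefficients. -/
def Gr (c a : ℕ) (f : (MvPolynomial ι F)⟦X⟧) : Prop :=
  ∀ t, (coeff t f).totalDegree ≤ c * t + a

theorem Gr.mono {c a c' a' : ℕ} {f : (MvPolynomial ι F)⟦X⟧} (h : Gr c a f) (hc : c ≤ c')
    (ha : a ≤ a') : Gr c' a' f := fun t =>
  (h t).trans (Nat.add_le_add (Nat.mul_le_mul_right _ hc) ha)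

theorem Gr.mul {c a b : ℕ} {f g : (MvPolynomial ι F)⟦X⟧} (hf : Gr c a f) (hg : Gr c b g) :
    Gr c (a + b) (f * g) := by
  intro t
  rw [coeff_mul]
  refine MvPolynomial.totalDegree_finsetSum_le fun p hp => ?_
  rw [Finset.HasAntidiagonal.mem_antidiagonal] at hp
  refine (MvPolynomial.totalDegree_mul _ _).trans ?_
  have h1 := hf p.1
  have h2 := hg p.2
  rw [← hp, mul_add]
  omega

theorem Gr.add {c a : ℕ} {f g : (MvPolynomial ι F)⟦X⟧} (hf : Gr c a f) (hg : Gr c a g) :
    Gr c a (f + g) := by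
  intro t
  rw [map_add]
  exact (MvPolynomial.totalDegree_add _ _).trans (max_le (hf t) (hg t))

theorem Gr.neg {c a : ℕ} {f : (MvPolynomial ι F)⟦X⟧} (hf : Gr c a f) : Gr c a (-f) := by
  intro t
  rw [map_neg, MvPolynomial.totalDegree_neg]
  exact hf t

theorem Gr.zero (c a : ℕ) : Gr c a (0 : (MvPolynomial ι F)⟦X⟧) := by
  intro t; simp

theorem Gr.one (c : ℕ) : Gr c 0 (1 : (MvPolynomial ι F)⟦X⟧) := by
  intro t
  rw [coeff_one]
  split_ifs <;> simp

theorem Gr.pow {c a : ℕ} {f : (MvPolynomial ι F)⟦X⟧} (hf : Gr c a f) (j : ℕ) :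
    Gr c (a * j) (f ^ j) := by
  induction j with
  | zero => simpa using Gr.one c
  | succ j ih => rw [pow_succ, mul_add, mul_one]; exact ih.mul hf

theorem Gr.sum {c a : ℕ} {J : Type*} (s : Finset J) (f : J → (MvPolynomial ι F)⟦X⟧)
    (hf : ∀ j ∈ s, Gr c a (f j)) : Gr c a (∑ j ∈ s, f j) := by
  intro t
  rw [map_sum]
  exact MvPolynomial.totalDegree_finsetSum_le fun j hj => hf j hj t

theorem Gr.coe (c a : ℕ) (p : Polynomial (MvPolynomial ι F))
    (hp : ∀ t, (p.coeff t).totalDegree ≤ a) : Gr c a (p : (MvPolynomial ι F)⟦X⟧) := by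
  intro t
  rw [Polynomial.coeff_coe]
  exact (hp t).trans (Nat.le_add_left _ _)

theorem Gr.coe_exists (p : Polynomial (MvPolynomial ι F)) :
    ∃ a, Gr 0 a (p : (MvPolynomial ι F)⟦X⟧) := by
  refine ⟨p.support.sup fun t => (p.coeff t).totalDegree, Gr.coe _ _ _ fun t => ?_⟩
  by_cases ht : t ∈ p.support
  · exact Finset.le_sup (f := fun t => (p.coeff t).totalDegree) ht
  · rw [Polynomial.notMem_support_iff.1 ht]; simp

/-- The subring of series with linear degree growth. -/
def grRing (ι F : Type*) [Field F] : Subring (MvPolynomial ι F)⟦X⟧ where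
  carrier := {f | ∃ c a, Gr c a f}
  mul_mem' := by
    rintro f g ⟨c, a, hf⟩ ⟨c', a', hg⟩
    exact ⟨max c c', a + a', (hf.mono (le_max_left _ _) le_rfl).mul
      (hg.mono (le_max_right _ _) le_rfl)⟩
  one_mem' := ⟨0, 0, Gr.one 0⟩
  add_mem' := by
    rintro f g ⟨c, a, hf⟩ ⟨c', a', hg⟩
    exact ⟨max c c', max a a', (hf.mono (le_max_left _ _) (le_max_left _ _)).add
      (hg.mono (le_max_right _ _) (le_max_right _ _))⟩
  zero_mem' := ⟨0, 0, Gr.zero 0 0⟩
  neg_mem' := by
    rintro f ⟨c, a, hf⟩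
    exact ⟨c, a, hf.neg⟩

end Growth

end Pool.Agent.MP_1e211b_nt.H60
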