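import Mathlib

set_option autoImplicit false

namespace Pool.Agent.MP_1e211b_nt.H60

open Filter Topology

theorem tendsto_zero_of_rec {V : Type*} [NormedAddCommGroup V] [NormedSpace ℂ V] {μ : ℂ}
    (hμ : ‖μ‖ < 1) (x e : ℕ → V) (hx : ∀ k, x (k + 1) = μ • x k + e k)
    (he : Tendsto e atTop (𝓝 0)) : Tendsto x atTop (𝓝 0) := by
  rw [Metric.tendsto_atTop]
  intro ε hε
  have h1 : 0 < ε / 2 * (1 - ‖μ‖) := mul_pos (by linarith) (by linarith)
  obtain ⟨K, hK⟩ := Metric.tendsto_atTop.1 he _ h1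
  have h2 : ∀ j, ‖x (K + j)‖ ≤ ‖μ‖ ^ j * ‖x K‖ + ε / 2 := by
    intro j
    induction j with
    | zero => simp; linarith
    | succ j ih =>
      have h3 := hK (K + j) (by omega)
      rw [dist_zero_right] at h3
      rw [← add_assoc, hx, pow_succ]
      refine (norm_add_le _ _).trans ?_
      rw [norm_smul]
      nlinarith [norm_nonneg μ]
  have h4 := (tendsto_pow_atTop_nhds_zero_of_lt_one (norm_nonneg μ) hμ).mul_const ‖x K‖
  rw [zero_mul] at h4
  obtain ⟨J, hJ⟩ := eventually_atTop.1 (h4.eventually_lt_const (half_pos hε))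
  refine ⟨K + J, fun n hn => ?_⟩
  obtain ⟨j, rfl⟩ : ∃ j, n = K + j := ⟨n - K, by omega⟩
  rw [dist_zero_right]
  linarith [h2 j, hJ j (by omega)]

theorem tendsto_zero_of_genEig {V : Type*} [NormedAddCommGroup V] [NormedSpace ℂ V]
    (P : Module.End ℂ V) {μ : ℂ} (hμ : ‖μ‖ < 1) (n : ℕ) (v : V) (hv : ((P - μ • 1) ^ n) v = 0) :
    Tendsto (fun k => (P ^ k) v) atTop (𝓝 0) := by
  induction n generalizing v with
  | zero =>
    have : v = 0 := by simpa using hv
    simp [this]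
  | succ n ih =>
    refine tendsto_zero_of_rec hμ _ _ (fun k => ?_) (ih ((P - μ • 1) v) (by
      rw [← Module.End.mul_apply, ← pow_succ, hv]))
    simp [pow_succ]

theorem fixed_of_bounded {V : Type*} [NormedAddCommGroup V] [NormedSpace ℂ V]
    (A : Module.End ℂ V) (hA : ∀ k v, ‖(A ^ k) v‖ ≤ ‖v‖) (n : ℕ) (v : V)
    (hv : ((A - 1) ^ n) v = 0) : A v = v := by
  suffices h : ∀ n : ℕ, ((A - 1) ^ (n + 1)) v = 0 → (A - 1) v = 0 by
    have := h n (by rw [pow_succ', Module.End.mul_apply, hv, map_zero])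
    simpa [sub_eq_zero] using this
  intro n
  induction n with
  | zero => simp
  | succ n ih =>
    intro h
    apply ih
    obtain ⟨w, hw⟩ : ∃ w, w = ((A - 1) ^ n) v := ⟨_, rfl⟩
    obtain ⟨u, hu⟩ : ∃ u, u = (A - 1) w := ⟨_, rfl⟩
    have h1 : ((A - 1) ^ (n + 1)) v = u := by rw [pow_succ', Module.End.mul_apply, ← hw, hu]
    have h2 : A u = u := by
      rw [pow_succ', Module.End.mul_apply, h1] at h
      simpa [sub_eq_zero] using h
    have h3 : A w = w + u := by rw [hu]; simp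
    have h4 : ∀ k : ℕ, (A ^ k) w = w + (k : ℂ) • u := by
      intro k
      induction k with
      | zero => simp
      | succ k ihk =>
        rw [pow_succ', Module.End.mul_apply, ihk, map_add, map_smul, h2, h3]
        push_cast
        rw [add_smul, one_smul]; abel
    rw [h1]
    by_contra h0
    obtain ⟨k, hk⟩ := exists_nat_gt (2 * ‖w‖ / ‖u‖)
    rw [div_lt_iff₀ (norm_pos_iff.2 h0)] at hk
    have h5 : (k : ℂ) • u = (A ^ k) w - w := by rw [h4]; abel
    have h6 := congrArg norm h5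
    rw [norm_smul, Complex.norm_natCast] at h6
    linarith [norm_sub_le ((A ^ k) w) w, hA k w]

variable {S : Type} {q : ℕ}

/-- The averaging operator of a finite automaton. -/
noncomputable def avg (K : Type) [Field K] (Λ : Fin q → S → S) : Module.End K (S → K) where
  toFun f s := (q : K)⁻¹ * ∑ d, f (Λ d s)
  map_add' f g := by funext s; simp [Finset.sum_add_distrib, mul_add]
  map_smul' c f := by funext s; simp [Finset.mul_sum, mul_left_comm]

theorem avg_apply (K : Type) [Field K] (Λ : Fin q → S → S) (f : S → K) (s : S) :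
    avg K Λ f s = (q : K)⁻¹ * ∑ d, f (Λ d s) := rfl

variable [Fintype S]

theorem norm_avg_le (hq : 0 < q) (Λ : Fin q → S → S) (v : S → ℂ) : ‖avg ℂ Λ v‖ ≤ ‖v‖ := by
  refine (pi_norm_le_iff_of_nonneg (norm_nonneg _)).2 fun s => ?_
  have hq' : (0 : ℝ) < q := by exact_mod_cast hq
  rw [avg_apply, norm_mul, norm_inv, Complex.norm_natCast, inv_mul_le_iff₀ hq']
  refine (norm_sum_le _ _).trans ((Finset.sum_le_card_nsmul _ _ ‖v‖ fun d _ =>
    norm_le_pi_norm v _).trans ?_)
  simp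

theorem norm_avg_pow_le (hq : 0 < q) (Λ : Fin q → S → S) (k : ℕ) (v : S → ℂ) :
    ‖(avg ℂ Λ ^ k) v‖ ≤ ‖v‖ := by
  induction k with
  | zero => simp
  | succ k ih => rw [pow_succ', Module.End.mul_apply]; exact (norm_avg_le hq Λ _).trans ih

theorem eigenvalue_avg (hq : 0 < q) (Λ : Fin q → S → S) {μ : ℂ} {v : S → ℂ} (hv : v ≠ 0)
    (h : avg ℂ Λ v = μ • v) : ‖μ‖ < 1 ∨ μ ^ (Fintype.card S).factorial = 1 := by
  have hv' : 0 < ‖v‖ := norm_pos_iff.2 hv
  have h1 : ‖μ‖ ≤ 1 := by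
    have := norm_avg_le hq Λ v
    rw [h, norm_smul] at this
    exact (mul_le_iff_le_one_left hv').1 this
  refine h1.lt_or_eq.imp_right fun h2 => ?_
  have hq' : (q : ℂ) ≠ 0 := by exact_mod_cast hq.ne'
  let d₀ : Fin q := ⟨0, hq⟩
  have hstep : ∀ s, ‖v s‖ = ‖v‖ → v (Λ d₀ s) = μ * v s := by
    intro s hs
    obtain ⟨a, ha⟩ : ∃ a, a = μ * v s := ⟨_, rfl⟩
    have ha' : ‖a‖ = ‖v‖ := by rw [ha, norm_mul, h2, one_mul, hs]
    have h3 : ∑ d, v (Λ d s) = q * a := by
      have := congrFun h s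
      rw [avg_apply, Pi.smul_apply, smul_eq_mul, ← ha] at this
      rw [← this]; field_simp
    have h4 : ∀ d, ‖v (Λ d s) - a‖ ^ 2 ≤ 2 * ‖a‖ ^ 2 - 2 * (v (Λ d s) * (starRingEnd ℂ) a).re := by
      intro d
      have h5 := norm_le_pi_norm v (Λ d s)
      rw [← ha'] at h5
      rw [← Complex.normSq_eq_norm_sq, Complex.normSq_sub, Complex.normSq_eq_norm_sq,
        Complex.normSq_eq_norm_sq]
      nlinarith [norm_nonneg (v (Λ d s))]
    have h6 : ∑ d, ‖v (Λ d s) - a‖ ^ 2 ≤ 0 := by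
      refine (Finset.sum_le_sum fun d _ => h4 d).trans (le_of_eq ?_)
      rw [Finset.sum_sub_distrib, ← Finset.mul_sum, ← Finset.mul_sum, ← Complex.re_sum,
        ← Finset.sum_mul, h3, mul_assoc, Complex.mul_conj, ← Complex.normSq_eq_norm_sq]
      simp
    have h7 := (Finset.sum_eq_zero_iff_of_nonneg fun d _ => sq_nonneg _).1
      (le_antisymm h6 (Finset.sum_nonneg fun d _ => sq_nonneg _)) d₀ (Finset.mem_univ _)
    rw [← ha]
    simpa [sub_eq_zero] using h7
  have hne : Nonempty S := by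
    by_contra h0
    rw [not_nonempty_iff] at h0
    exact hv (Subsingleton.elim _ _)
  obtain ⟨s₀, hs₀⟩ : ∃ s₀, ‖v s₀‖ = ‖v‖ := by
    obtain ⟨s₀, hs₀⟩ := Finite.exists_max fun s => ‖v s‖
    exact ⟨s₀, le_antisymm (norm_le_pi_norm v s₀)
      ((pi_norm_le_iff_of_nonneg (norm_nonneg _)).2 hs₀)⟩
  have hit : ∀ i, v ((Λ d₀)^[i] s₀) = μ ^ i * v s₀ := by
    intro i
    induction i with
    | zero => simp
    | succ i ih =>
      rw [Function.iterate_succ_apply', hstep _ (by rw [ih, norm_mul, norm_pow, h2, hs₀]; simp),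
        ih, pow_succ]
      ring
  have hs0 : v s₀ ≠ 0 := norm_pos_iff.1 (hs₀ ▸ hv')
  have hμ0 : μ ≠ 0 := norm_pos_iff.1 (h2 ▸ one_pos)
  have key : ∀ i j : Fin (Fintype.card S + 1), i < j → (Λ d₀)^[i] s₀ = (Λ d₀)^[j] s₀ →
      μ ^ (Fintype.card S).factorial = 1 := by
    intro i j hij he
    have h8 := hit i
    rw [he, hit j] at h8
    have h9 : μ ^ ((j : ℕ) - i) = 1 := by
      apply mul_left_cancel₀ (pow_ne_zero (i : ℕ) hμ0)
      rw [← pow_add, Nat.add_sub_cancel' (le_of_lt hij), mul_one]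
      exact mul_right_cancel₀ hs0 h8
    have hij' : (i : ℕ) < j := hij
    obtain ⟨c, hc⟩ := Nat.dvd_factorial (m := (j : ℕ) - i) (n := Fintype.card S) (by omega)
      (by have := j.2; omega)
    rw [hc, pow_mul, h9, one_pow]
  obtain ⟨i, j, hij, he⟩ := Fintype.exists_ne_map_eq_of_card_lt
    (fun i : Fin (Fintype.card S + 1) => (Λ d₀)^[i] s₀) (by simp)
  rcases lt_or_gt_of_ne hij with h | h
  exacts [key i j h he, key j i h he.symm]

theorem tendsto_avg_zero (hq : 0 < q) (Λ : Fin q → S → S) (v : S → ℂ) :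
    Tendsto (fun k => (avg ℂ Λ ^ k)
      (((avg ℂ Λ ^ (Fintype.card S).factorial - 1) ^ Fintype.card S) v)) atTop (𝓝 0) := by
  have hv : v ∈ ⨆ μ, (avg ℂ Λ).maxGenEigenspace μ := by
    rw [Module.End.iSup_maxGenEigenspace_eq_top]; trivial
  induction hv using Submodule.iSup_induction' with
  | zero => simp
  | add x y _ _ hx hy => simpa using hx.add hy
  | mem μ v hv =>
    by_cases h0 : v = 0
    · simp [h0]
    have hv' := hv
    rw [Module.End.maxGenEigenspace_eq_genEigenspace_finrank, Module.finrank_fintype_fun_eq_card]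
      at hv'
    obtain ⟨w, hw⟩ := (Module.End.hasEigenvalue_of_hasGenEigenvalue (k := Fintype.card S)
      (Submodule.ne_bot_iff _ |>.2 ⟨v, hv', h0⟩)).exists_hasEigenvector
    rcases eigenvalue_avg hq Λ hw.2 hw.apply_eq_smul with h | h
    · have h1 := Module.End.mapsTo_maxGenEigenspace_of_comm (f := avg ℂ Λ)
        (g := (avg ℂ Λ ^ (Fintype.card S).factorial - 1) ^ Fintype.card S)
        ((((Commute.refl _).pow_right _).sub_right (Commute.one_right _)).pow_right _) μ hv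
      obtain ⟨n, hn⟩ := (Module.End.mem_maxGenEigenspace _ _ _).1 h1
      exact tendsto_zero_of_genEig _ h n _ hn
    · have h1 : (Polynomial.X - Polynomial.C μ) ^ Fintype.card S ∣
          (Polynomial.X ^ (Fintype.card S).factorial - 1) ^ Fintype.card S :=
        pow_dvd_pow_of_dvd (Polynomial.dvd_iff_isRoot.2 (by simp [h])) _
      obtain ⟨c, hc⟩ := h1
      have h2 := congrArg (Polynomial.aeval (avg ℂ Λ)) hc
      rw [mul_comm] at h2
      simp only [map_pow, map_sub, map_mul, Polynomial.aeval_X, map_one, Polynomial.aeval_C,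
        Algebra.algebraMap_eq_smul_one] at h2
      rw [h2, Module.End.mul_apply, LinearMap.mem_ker.1 (Module.End.mem_genEigenspace_nat.1 hv')]
      simp

theorem exists_rat_limit (hq : 0 < q) (Λ : Fin q → S → S) (f : S → ℚ) :
    ∃ g : S → ℚ, ∀ s, Tendsto (fun k => (((avg ℚ Λ ^ ((Fintype.card S).factorial * k)) f s : ℚ) : ℝ))
      atTop (𝓝 (g s)) := by
  obtain ⟨l, hl⟩ : ∃ l, l = (Fintype.card S).factorial := ⟨_, rfl⟩
  have hl0 : 0 < l := hl ▸ Nat.factorial_pos _
  let c : (S → ℚ) →+ (S → ℂ) :=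
    { toFun := fun f s => f s, map_zero' := by funext s; simp,
      map_add' := fun f g => by funext s; simp }
  have hc1 : ∀ f, c (avg ℚ Λ f) = avg ℂ Λ (c f) := fun f => by
    funext s; simp [c, avg_apply]
  have hc2 : ∀ (k : ℕ) f, c ((avg ℚ Λ ^ k) f) = (avg ℂ Λ ^ k) (c f) := by
    intro k f
    induction k with
    | zero => rfl
    | succ k ih => rw [pow_succ', pow_succ', Module.End.mul_apply, Module.End.mul_apply, hc1, ih]
  have hc3 : ∀ (k : ℕ) f, c (((avg ℚ Λ ^ l - 1) ^ k) f) = ((avg ℂ Λ ^ l - 1) ^ k) (c f) := by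
    intro k f
    induction k with
    | zero => rfl
    | succ k ih =>
      rw [pow_succ', pow_succ', Module.End.mul_apply, Module.End.mul_apply, LinearMap.sub_apply,
        LinearMap.sub_apply, map_sub, hc2, Module.End.one_apply, Module.End.one_apply, ih]
  obtain ⟨n, hn, hn'⟩ := ((LinearMap.eventually_isCompl_ker_pow_range_pow
    (avg ℚ Λ ^ l - 1)).and (eventually_ge_atTop (Fintype.card S))).exists
  obtain ⟨g, hg, _, ⟨f₂, rfl⟩, rfl⟩ := Submodule.mem_sup.1
    (show f ∈ LinearMap.ker _ ⊔ LinearMap.range _ by rw [hn.sup_eq_top]; trivial)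
  have h1 : (avg ℂ Λ ^ l) (c g) = c g := fixed_of_bounded _
    (fun k v => by rw [← pow_mul]; exact norm_avg_pow_le hq Λ _ v) n _
    (by rw [← hc3, LinearMap.mem_ker.1 hg, map_zero])
  have h2 : ∀ k, (avg ℂ Λ ^ (l * k)) (c g) = c g := by
    intro k
    induction k with
    | zero => rfl
    | succ k ih => rw [mul_add_one, pow_add, Module.End.mul_apply, h1, ih]
  obtain ⟨d, rfl⟩ := Nat.exists_eq_add_of_le hn'
  have h3 := (tendsto_avg_zero hq Λ (((avg ℂ Λ ^ l - 1) ^ d) (c f₂))).comp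
    (tendsto_id.const_mul_atTop' hl0)
  rw [← hl, ← Module.End.mul_apply, ← pow_add, ← hc3] at h3
  refine ⟨g, fun s => ?_⟩
  have h4 := (Complex.continuous_re.tendsto _).comp
    ((tendsto_pi_nhds.1 (h3.const_add (c g))) s)
  rw [← hl]
  convert h4 using 1
  · funext k
    simp only [Function.comp, id]
    rw [← h2 k, ← map_add, ← map_add, ← hc2]
    simp [c]
  · simp [c]

end Pool.Agent.MP_1e211b_nt.H60
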