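import Pool.Agent.MP_1e211b_nt.H60.Main
import Pool.Agent.MP_1e211b_nt.H60.Markov

set_option autoImplicit false

namespace Pool.Agent.MP_1e211b_nt.H60

open Filter Topology

theorem periodic_of_eq {α : ℚ} (h : ∃ i j, i < j ∧ T^[i] α = T^[j] α) :
    ∃ N p : ℕ, 0 < p ∧ ∀ n, N ≤ n → T^[n + p] α = T^[n] α ∧ par α (n + p) = par α n := by
  obtain ⟨i, j, hij, h⟩ := h
  refine ⟨i, j - i, by omega, fun n hn => ?_⟩
  have h1 : T^[n + (j - i)] α = T^[n] α := by
    rw [show n + (j - i) = (n - i) + j by omega, Function.iterate_add_apply, ← h,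
      ← Function.iterate_add_apply, Nat.sub_add_cancel hn]
  exact ⟨h1, by unfold par; rw [h1]⟩

theorem main_blocks' (α : ℚ) (hα : Odd α.den) (q : ℕ) (hq : 2 ≤ q) {Lab : Type} [Fintype Lab]
    (hB : ∀ k, ∃ lab : ℕ → Lab, ∀ i i', lab i = lab i' →
      ∀ s < q ^ k, par α (q ^ k * i + s) = par α (q ^ k * i' + s))
    (Θ : Finset ℝ) (hfreq : ∀ ε > 0, ∃ᶠ k in atTop, ∀ i, ∃ θ ∈ Θ,
      |(∑ s ∈ Finset.range (q ^ k), (par α (q ^ k * i + s) : ℝ)) / (q : ℝ) ^ k - θ| ≤ ε)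
    (hΘ : ¬ ((0 : ℝ) ∈ affineSpan ℚ (Θ : Set ℝ) ∧
      Real.log 2 / Real.log 3 ∈ affineSpan ℚ (Θ : Set ℝ))) :
    ∃ N p : ℕ, 0 < p ∧ ∀ n, N ≤ n → T^[n + p] α = T^[n] α ∧ par α (n + p) = par α n := by
  apply periodic_of_eq
  have hfreq' : ∀ ε > 0, ∃ᶠ k in atTop, ∀ i, ∃ θ ∈ Θ,
      |((∑ s ∈ Finset.range (q ^ k), par α (q ^ k * i + s) : ℕ) : ℝ) / (q ^ k : ℕ) - θ| ≤ ε := by
    simpa using hfreq
  rcases not_and_or.1 hΘ with h | h
  · have : Fact (Nat.Prime 3) := ⟨Nat.prime_three⟩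
    refine main_blocks α hα q hq hB Θ hfreq' (Sc.adm_padic 3) ?_ ?_
    · rw [Rat.AbsoluteValue.padic_eq_padicNorm]
      have : padicNorm 3 3 < 1 := by
        simpa using padicNorm.padicNorm_p_lt_one (p := 3) (by norm_num)
      exact_mod_cast this.ne
    · have : padicNorm 3 2 = 1 := by
        simpa using (padicNorm.int_eq_one_iff (p := 3) 2).2 (by norm_num)
      rw [Rat.AbsoluteValue.padic_eq_padicNorm, this]
      simpa using h
  · refine main_blocks α hα q hq hB Θ hfreq' Sc.adm_real (by simp) ?_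
    simpa using h

theorem blocks_final (α : ℚ) (hα : Odd α.den) (q m : ℕ) (hq : 2 ≤ q)
    (hB : ∀ k : ℕ, {w : Fin (q ^ k) → ℕ | ∃ i : ℕ, w = fun s : Fin (q ^ k) =>
      par α (q ^ k * i + s)}.encard ≤ m)
    (Θ : Finset ℝ) (hfreq : ∀ ε > 0, ∃ᶠ k in atTop, ∀ i, ∃ θ ∈ Θ,
      |(∑ s ∈ Finset.range (q ^ k), (par α (q ^ k * i + s) : ℝ)) / (q : ℝ) ^ k - θ| ≤ ε)
    (hΘ : ¬ ((0 : ℝ) ∈ affineSpan ℚ (Θ : Set ℝ) ∧
      Real.log 2 / Real.log 3 ∈ affineSpan ℚ (Θ : Set ℝ))) :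
    ∃ N p : ℕ, 0 < p ∧ ∀ n, N ≤ n → T^[n + p] α = T^[n] α ∧ par α (n + p) = par α n := by
  refine main_blocks' α hα q hq (Lab := Fin m) (fun k => ?_) Θ hfreq hΘ
  have hf := Set.finite_of_encard_le_coe (hB k)
  have := hf.fintype
  obtain ⟨e⟩ := Function.Embedding.nonempty_of_card_le (α := {w : Fin (q ^ k) → ℕ |
      ∃ i : ℕ, w = fun s : Fin (q ^ k) => par α (q ^ k * i + s)}) (β := Fin m) (by
    have h1 := hB k
    rw [Set.encard_eq_coe_toFinset_card, Set.toFinset_card] at h1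
    rw [Fintype.card_fin]
    exact_mod_cast h1)
  refine ⟨fun i => e ⟨_, i, rfl⟩, fun i i' h s hs => ?_⟩
  exact congrFun (congrArg Subtype.val (e.injective h)) ⟨s, hs⟩

theorem sum_range_mul' (g : ℕ → ℚ) (a b : ℕ) :
    ∑ r ∈ Finset.range (b * a), g r = ∑ i ∈ Finset.range a, ∑ j : Fin b, g (b * i + j) := by
  induction a with
  | zero => simp
  | succ a ih =>
    rw [mul_add_one, Finset.sum_range_add, ih, Finset.sum_range_succ,
      Finset.sum_range fun j => g (b * a + j)]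

theorem log_two_div_log_three_irrational (r : ℚ) : Real.log 2 / Real.log 3 ≠ r := by
  intro h
  have h3 : 0 < Real.log 3 := Real.log_pos (by norm_num)
  have h2 : 0 < Real.log 2 := Real.log_pos (by norm_num)
  have hr : (0 : ℝ) < r := h ▸ div_pos h2 h3
  have hnum : 0 < r.num := Rat.num_pos.2 (by exact_mod_cast hr)
  obtain ⟨a, ha⟩ := Int.eq_ofNat_of_zero_le hnum.le
  have hd : (r.den : ℝ) ≠ 0 := by exact_mod_cast r.den_nz
  rw [Rat.cast_def, ha, div_eq_div_iff h3.ne' hd] at h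
  have h4 : Real.log (2 ^ r.den) = Real.log (3 ^ a) := by
    rw [Real.log_pow, Real.log_pow, mul_comm, h]; simp
  have h5 : ((2 : ℝ) ^ r.den) = 3 ^ a :=
    Real.log_injOn_pos (by simp) (by simp) h4
  have h6 : 2 ^ r.den = 3 ^ a := by exact_mod_cast h5
  have h7 : Odd (3 ^ a) := Odd.pow (by decide)
  rw [← h6] at h7
  exact Nat.not_even_iff_odd.2 h7 (Nat.even_pow.2 ⟨even_two, r.den_nz⟩)

theorem automatic_final (α : ℚ) (hα : Odd α.den) (q : ℕ) (hq : 2 ≤ q)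
    (haut : {s : ℕ → ℕ | ∃ k r : ℕ, r < q ^ k ∧ s = fun n => par α (q ^ k * n + r)}.Finite) :
    ∃ N p : ℕ, 0 < p ∧ ∀ n, N ≤ n → T^[n + p] α = T^[n] α ∧ par α (n + p) = par α n := by
  classical
  let Ker := {s : ℕ → ℕ | ∃ k r : ℕ, r < q ^ k ∧ s = fun n => par α (q ^ k * n + r)}
  let : Fintype Ker := haut.fintype
  have hle : ∀ (s : Ker) i, s.1 i ≤ 1 := by
    rintro ⟨_, k, r, -, rfl⟩ i
    exact par_le_one _ _
  let lab : ℕ → Ker → Fin 2 := fun i s => ⟨s.1 i, Nat.lt_succ_of_le (hle s i)⟩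
  let Λ : Fin q → Ker → Ker := fun d s => ⟨fun n => s.1 (q * n + d), by
    obtain ⟨_, k, r, hr, rfl⟩ := s
    refine ⟨k + 1, q ^ k * d + r, ?_, ?_⟩
    · calc q ^ k * d + r < q ^ k * (d + 1) := by rw [mul_add, mul_one]; omega
        _ ≤ _ := by rw [pow_succ]; exact Nat.mul_le_mul_left _ d.2
    · funext n; show par α _ = par α _; congr 1; ring⟩
  let s₀ : Ker := ⟨par α, 0, 0, by simp, by simp⟩
  have hq0 : (q : ℚ) ≠ 0 := by exact_mod_cast (by omega : q ≠ 0)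
  have havg : ∀ i k (s : Ker), (avg ℚ Λ ^ k) (fun s => ((lab i s : ℕ) : ℚ)) s =
      (∑ r ∈ Finset.range (q ^ k), (s.1 (q ^ k * i + r) : ℚ)) / q ^ k := by
    intro i k
    induction k with
    | zero => intro s; simp [lab]
    | succ k ih =>
      intro s
      rw [pow_succ', Module.End.mul_apply, avg_apply]
      simp only [ih]
      rw [pow_succ' q k, sum_range_mul', Finset.sum_comm, ← Finset.sum_div, pow_succ']
      simp only [Λ]
      field_simp
      exact Finset.sum_congr rfl fun d _ => Finset.sum_congr rfl fun r _ => by congr 2; ring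
  choose g hg using fun c : Ker → Fin 2 =>
    exists_rat_limit (by omega : 0 < q) Λ fun s => ((c s : ℕ) : ℚ)
  refine main_blocks' α hα q hq (Lab := Ker → Fin 2) (fun k => ⟨lab, fun i i' h s hs => ?_⟩)
    (Finset.univ.image fun c => (g c s₀ : ℝ)) (fun ε hε => ?_) fun h => ?_
  · exact congrArg Fin.val (congrFun h ⟨_, k, s, hs, rfl⟩)
  · have h1 := eventually_all.2 fun c => Metric.tendsto_nhds.1 (hg c s₀) ε hε
    refine (tendsto_id.const_mul_atTop' (Nat.factorial_pos (Fintype.card Ker))).frequently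
      (h1.mono fun k hk i => ⟨_, Finset.mem_image_of_mem _ (Finset.mem_univ (lab i)), ?_⟩).frequently
    have h2 := hk (lab i)
    rw [havg, Real.dist_eq] at h2
    simpa [s₀] using h2.le
  · have h1 : affineSpan ℚ ((Finset.univ.image fun c => (g c s₀ : ℝ) : Finset ℝ) : Set ℝ) ≤
        (LinearMap.range (Algebra.linearMap ℚ ℝ)).toAffineSubspace := by
      rw [affineSpan_le]
      intro x hx
      obtain ⟨c, -, rfl⟩ := Finset.mem_image.1 hx
      exact ⟨g c s₀, rfl⟩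
    obtain ⟨r, hr⟩ := h1 h.2
    exact log_two_div_log_three_irrational r hr.symm

end Pool.Agent.MP_1e211b_nt.H60
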