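import Pool.Agent.MP_1e211b_nt.H60.Series

set_option autoImplicit false

namespace Pool.Agent.MP_1e211b_nt.H60

open Polynomial
open scoped PowerSeries

open Classical in
theorem Gs_shift {R 𝒞 : Type*} [CommRing R] (ζ : 𝒞 → R) (y : ℕ → 𝒞) (c : 𝒞) :
    Gs ζ y (fun s => y s = c) = (if y 0 = c then 1 else 0) +
      PowerSeries.C (ζ (y 0)) * PowerSeries.X *
        Gs ζ (fun s => y (s + 1)) (fun s => y (s + 1) = c) := by
  ext n
  rw [map_add, mul_assoc, PowerSeries.coeff_C_mul, coeff_Gs]
  cases n with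
  | zero => split_ifs <;> simp
  | succ n =>
    rw [PowerSeries.coeff_succ_X_mul, coeff_Gs, Finset.prod_range_succ']
    split_ifs <;> simp [PowerSeries.coeff_one, mul_comm]

variable {k : Type*} [Field k] {M : Type*} [Field M] [Algebra k⟦X⟧ M] [IsFractionRing k⟦X⟧ M]
  [Algebra k[X] M] [IsScalarTower k[X] k⟦X⟧ M] [Algebra (RatFunc k) M]
  [IsScalarTower k[X] (RatFunc k) M]

theorem tail_lemma {𝒞 : Type*} [Fintype 𝒞] (ζ : 𝒞 → k) (hζ : ∀ c, ζ c ≠ 0) (y : ℕ → 𝒞)
    (a : ℕ → RatFunc k) (p : 𝒞 → RatFunc k)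
    (hrec : ∀ t, a t = -p (y t) + algebraMap k[X] (RatFunc k) (C (ζ (y t)) * X) * a (t + 1))
    (hrel : algebraMap (RatFunc k) M (a 0) + ∑ c, algebraMap (RatFunc k) M (p c) *
      algebraMap k⟦X⟧ M (Gs ζ y fun t => y t = c) = 0) :
    ∃ R, ∀ t t', (∀ i < R, y (i + t) = y (i + t')) → a t = a t' := by
  classical
  have hinj := IsFractionRing.injective k⟦X⟧ M
  obtain ⟨D, hD⟩ := IsLocalization.exist_integer_multiples_of_finite (nonZeroDivisors k[X])
    (fun o : Option 𝒞 => o.elim (a 0) p)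
  choose e he using hD
  have hD0 : algebraMap k[X] (RatFunc k) D ≠ 0 := by
    simp
  have he0 : algebraMap k[X] (RatFunc k) (e none) = algebraMap k[X] (RatFunc k) D * a 0 := by
    rw [he, Algebra.smul_def]; rfl
  have hec : ∀ c, algebraMap k[X] (RatFunc k) (e (some c)) =
      algebraMap k[X] (RatFunc k) D * p c := fun c => by
    rw [he, Algebra.smul_def]; rfl
  have hPM : ∀ f : k[X], algebraMap k⟦X⟧ M (f : k⟦X⟧) =
      algebraMap (RatFunc k) M (algebraMap k[X] (RatFunc k) f) := fun f => by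
    rw [← algebraMap_poly, IsScalarTower.algebraMap_apply k[X] (RatFunc k) M]
  let B : ℕ → k⟦X⟧ := fun t => -∑ c, (e (some c) : k⟦X⟧) *
    Gs ζ (fun s => y (s + t)) (fun s => y (s + t) = c)
  have hB : ∀ t, B t = -(e (some (y t)) : k⟦X⟧) +
      PowerSeries.C (ζ (y t)) * PowerSeries.X * B (t + 1) := by
    intro t
    have h1 : ∀ c, Gs ζ (fun s => y (s + t)) (fun s => y (s + t) = c) =
        (if y t = c then 1 else 0) + PowerSeries.C (ζ (y t)) * PowerSeries.X *
          Gs ζ (fun s => y (s + (t + 1))) (fun s => y (s + (t + 1)) = c) := by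
      intro c
      have := Gs_shift ζ (fun s => y (s + t)) c
      simp only [zero_add, add_assoc, add_comm 1 t] at this
      convert this
    simp only [B, h1 , mul_add, Finset.sum_add_distrib, mul_ite, mul_one, mul_zero,
      Finset.sum_ite_eq, Finset.mem_univ, if_true, neg_add, mul_neg, Finset.mul_sum]
    congr 2
    exact Finset.sum_congr rfl fun c _ => by ring
  have hBa : ∀ t, algebraMap k⟦X⟧ M (B t) =
      algebraMap (RatFunc k) M (algebraMap k[X] (RatFunc k) D * a t) := by
    intro t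
    induction t with
    | zero =>
      simp only [B, add_zero, map_neg, map_sum, map_mul, hPM, hec]
      rw [eq_neg_of_add_eq_zero_left hrel, mul_neg, Finset.mul_sum]
      congr 1
      exact Finset.sum_congr rfl fun c _ => by ring
    | succ t ih =>
      have hz : algebraMap k⟦X⟧ M (PowerSeries.C (ζ (y t)) * PowerSeries.X) ≠ 0 := by
        rw [map_ne_zero_iff _ hinj]
        exact mul_ne_zero (by simpa using hζ _) PowerSeries.X_ne_zero
      apply mul_left_cancel₀ hz
      have h1 : PowerSeries.C (ζ (y t)) * PowerSeries.X = ((C (ζ (y t)) * X : k[X]) : k⟦X⟧) := by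
        rw [coe_mul, coe_C, coe_X]
      rw [hB t, hrec t, map_add, map_neg, hPM, hec, h1, map_mul (algebraMap k⟦X⟧ M), hPM] at ih
      rw [h1, hPM]
      generalize algebraMap k[X] (RatFunc k) (C (ζ (y t)) * X) = z at ih ⊢
      simp only [map_mul, map_add, map_neg] at ih ⊢
      linear_combination ih
  obtain ⟨N, hN⟩ : ∃ N, ∀ o, (e o).natDegree ≤ N :=
    ⟨Finset.univ.sup fun o => (e o).natDegree, fun o =>
      Finset.le_sup (f := fun o => (e o).natDegree) (Finset.mem_univ o)⟩
  have hB0 : B 0 = (e none : k⟦X⟧) := hinj (by rw [hBa, hPM, he0])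
  have hhigh : ∀ t n, N < n → PowerSeries.coeff n (B t) = 0 := by
    intro t
    induction t with
    | zero =>
      intro n hn
      rw [hB0, coeff_coe, coeff_eq_zero_of_natDegree_lt ((hN _).trans_lt hn)]
    | succ t ih =>
      intro n hn
      have h1 := ih (n + 1) (by omega)
      rw [hB t, map_add, map_neg, coeff_coe,
        coeff_eq_zero_of_natDegree_lt ((hN _).trans_lt (by omega)), mul_assoc,
        PowerSeries.coeff_C_mul, PowerSeries.coeff_succ_X_mul] at h1
      simpa [hζ] using h1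
  refine ⟨N + 1, fun t t' hy => ?_⟩
  have hBB : B t = B t' := by
    ext n
    by_cases hn : N < n
    · rw [hhigh t n hn, hhigh t' n hn]
    simp only [B, map_neg, map_sum, PowerSeries.coeff_mul, coeff_Gs]
    congr 1
    refine Finset.sum_congr rfl fun c _ => Finset.sum_congr rfl fun x hx => ?_
    rw [Finset.HasAntidiagonal.mem_antidiagonal] at hx
    rw [hy x.2 (by omega), Finset.prod_congr rfl fun i hi => by
      rw [hy i (by have := Finset.mem_range.1 hi; omega)]]
  have := hBa t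
  rw [hBB, hBa t'] at this
  exact (mul_left_cancel₀ hD0 ((algebraMap (RatFunc k) M).injective this)).symm

variable {Ω : Type*} [Field Ω] [Algebra M Ω] [Algebra (RatFunc k) Ω]
  [IsScalarTower (RatFunc k) M Ω]

theorem formal_core [IsAlgClosed k] [CharZero k] {𝒞 : Type} {Lab : Type*} [Fintype 𝒞]
    [Fintype Lab] (ζ : 𝒞 → k) (hζ : ∀ c, ζ c ≠ 0) (y : ℕ → 𝒞) (q : ℕ) (hq : 2 ≤ q)
    (hB : ∀ j, ∃ lab : ℕ → Lab, ∀ i i', lab i = lab i' →
      ∀ s < q ^ j, y (q ^ j * i + s) = y (q ^ j * i' + s))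
    (a : ℕ → Ω) (P : 𝒞 → Ω) (ha : IsAlgebraic (RatFunc k) (a 0))
    (hP : ∀ c, IsAlgebraic (RatFunc k) (P c))
    (hrec : ∀ t, a t = -P (y t) + algebraMap (RatFunc k) Ω
      (algebraMap k[X] (RatFunc k) (C (ζ (y t)) * X)) * a (t + 1))
    (hrel : a 0 + ∑ c, P c * algebraMap M Ω (algebraMap k⟦X⟧ M (Gs ζ y fun t => y t = c)) = 0) :
    ∃ t t', t < t' ∧ a t = a t' := by
  classical
  obtain ⟨V, hV, h1V, hGV, hρV⟩ := exists_invariant_space (M := M) ζ y q (by omega) hB
  have hdesc := fun lam : Ω →ₗ[RatFunc k] RatFunc k => relation_descends (Ω := Ω) V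
    {ρ | ∃ μ : kˣ, (∃ j, μ ^ (q ^ j) = 1) ∧ ρ = rho M μ}
    (by
      rintro _ ⟨μ, hμ, rfl⟩
      exact ⟨presL_rho μ, by rw [rho_symm]; exact presL_rho _, hρV μ hμ⟩)
    (fun φ E hE h => mem_range_of_rho q hq φ E hE fun μ hμ => h _ ⟨μ, hμ, rfl⟩)
    (fun o : Option 𝒞 => o.elim 1 fun c => algebraMap k⟦X⟧ M (Gs ζ y fun t => y t = c))
    (by rintro (_ | c); exacts [h1V, hGV c])
    (fun o : Option 𝒞 => o.elim (a 0) P) (by rintro (_ | c); exacts [ha, hP c])
    (by rw [Fintype.sum_option]; simpa using hrel) lam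
  have hlam : ∀ lam : Ω →ₗ[RatFunc k] RatFunc k, ∃ R, ∀ t t',
      (∀ i < R, y (i + t) = y (i + t')) → lam (a t) = lam (a t') := by
    intro lam
    refine tail_lemma (M := M) ζ hζ y (fun t => lam (a t)) (fun c => lam (P c)) (fun t => ?_) ?_
    · conv_lhs => rw [hrec t]
      rw [map_add, map_neg, ← Algebra.smul_def, map_smul, smul_eq_mul]
    · have := hdesc lam
      rw [Fintype.sum_option] at this
      simpa using this
  let W : Submodule (RatFunc k) Ω := Submodule.span _ (insert (a 0) (Set.range P))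
  have hW : FiniteDimensional (RatFunc k) W :=
    FiniteDimensional.span_of_finite _ ((Set.finite_range P).insert _)
  have haW : ∀ t, a t ∈ W := by
    intro t
    induction t with
    | zero => exact Submodule.subset_span (Set.mem_insert _ _)
    | succ t ih =>
      have hz : algebraMap k[X] (RatFunc k) (C (ζ (y t)) * X) ≠ 0 := by
        simp [hζ, RatFunc.X_ne_zero]
      have : a (t + 1) = (algebraMap k[X] (RatFunc k) (C (ζ (y t)) * X))⁻¹ • (a t + P (y t)) := by
        conv_rhs => rw [hrec t]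
        rw [add_comm (-_), neg_add_cancel_right, ← Algebra.smul_def, smul_smul,
          inv_mul_cancel₀ hz, one_smul]
      rw [this]
      exact W.smul_mem _ (add_mem ih (Submodule.subset_span (Or.inr ⟨_, rfl⟩)))
  let b := Module.finBasis (RatFunc k) W
  choose lam hlam' using fun i => LinearMap.exists_extend (b.coord i)
  choose R hR using fun i => hlam (lam i)
  obtain ⟨S, hS⟩ : ∃ S, ∀ i, R i ≤ S :=
    ⟨Finset.univ.sup R, fun i => Finset.le_sup (Finset.mem_univ i)⟩
  have key : ∀ t t', (fun i : Fin S => y (i + t)) = (fun i : Fin S => y (i + t')) →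
      a t = a t' := by
    intro t t' h
    have : (⟨a t, haW t⟩ : W) = ⟨a t', haW t'⟩ := by
      refine b.ext_elem fun i => ?_
      have h1 := hR i t t' fun s hs => congrFun h ⟨s, hs.trans_le (hS i)⟩
      have h2 := LinearMap.congr_fun (hlam' i) ⟨a t, haW t⟩
      have h3 := LinearMap.congr_fun (hlam' i) ⟨a t', haW t'⟩
      exact h2.symm.trans (h1.trans h3)
    exact congrArg Subtype.val this
  obtain ⟨t, t', hne, h⟩ := Finite.exists_ne_map_eq_of_infinite
    (fun t : ℕ => fun i : Fin S => y (i + t))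
  rcases lt_or_gt_of_ne hne with hlt | hlt
  · exact ⟨t, t', hlt, key t t' h⟩
  · exact ⟨t', t, hlt, key t' t h.symm⟩

end Pool.Agent.MP_1e211b_nt.H60
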