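import Pool.Agent.MP_1e211b_nt.H60.Orbit
import Pool.Agent.MP_1e211b_nt.H60.Bridge

set_option autoImplicit false

namespace Pool.Agent.MP_1e211b_nt.H60

open Filter Topology

theorem prod_zpow_eq {ι : Type*} (s : Finset ι) {p : ℚ} (hp : p ≠ 0) (f : ι → ℤ) :
    ∏ i ∈ s, p ^ f i = p ^ ∑ i ∈ s, f i := by
  classical
  induction s using Finset.induction_on with
  | empty => simp
  | insert i s hi ih => rw [Finset.prod_insert hi, Finset.sum_insert hi, ih, zpow_add₀ hp]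

namespace Sc

variable (S : Sc)

theorem tendsto_floor (γ : ℝ) :
    Tendsto (fun k => ((⌊γ * S.n k⌋ : ℤ) : ℝ) / S.n k) S.U (𝓝 γ) := by
  have h0 : Tendsto (fun k => ((S.n k : ℝ))⁻¹) S.U (𝓝 0) :=
    tendsto_inv_atTop_zero.comp (tendsto_natCast_atTop_atTop.comp S.hn)
  have h1 : Tendsto (fun k => γ - ((S.n k : ℝ))⁻¹) S.U (𝓝 γ) := by
    simpa using h0.const_sub γ
  refine tendsto_of_tendsto_of_tendsto_of_le_of_le' h1 tendsto_const_nhds ?_ ?_
  · filter_upwards [ev_ne_zero (S := S)] with k hk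
    have hk' : (0 : ℝ) < S.n k := by positivity
    rw [le_div_iff₀ hk', sub_mul, inv_mul_cancel₀ hk'.ne']
    exact (Int.sub_one_lt_floor _).le
  · filter_upwards [ev_ne_zero (S := S)] with k hk
    have hk' : (0 : ℝ) < S.n k := by positivity
    rw [div_le_iff₀ hk']
    exact Int.floor_le _

variable {S}

theorem sz_three_pow {g : ℕ → ℤ} {γ : ℝ}
    (hg : Tendsto (fun k => (g k : ℝ) / S.n k) S.U (𝓝 γ)) {h : ℕ → ℕ}
    (hh : ∀ k, (h k : ℤ) ≤ |g k|) :
    S.Sz (3 ^ |γ|) ((fun k => (3 : ℚ) ^ h k : ℕ → ℚ) : S.G) := by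
  refine ⟨fun k => 3 ^ h k, by simp, fun C' hC' => ?_⟩
  have hC0 : 0 < C' := lt_trans (by positivity) hC'
  have h1 : |γ| < Real.logb 3 C' := (Real.lt_logb_iff_rpow_lt (by norm_num) hC0).2 hC'
  filter_upwards [hg.abs.eventually_lt_const h1, ev_ne_zero (S := S)] with k h2 hk
  have hk' : (0 : ℝ) < S.n k := by positivity
  rw [abs_div, abs_of_pos hk', div_lt_iff₀ hk'] at h2
  have h3 : (h k : ℝ) ≤ |(g k : ℝ)| := by exact_mod_cast hh k
  rw [← Real.rpow_logb (by norm_num : (0 : ℝ) < 3) (by norm_num) hC0, ← Real.rpow_natCast,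
    ← Real.rpow_mul (by norm_num)]
  push_cast
  rw [abs_of_pos (by positivity), ← Real.rpow_natCast]
  exact Real.rpow_le_rpow_of_exponent_le (by norm_num) (h3.trans h2.le)

theorem three_zpow_eq (g : ℕ → ℤ) : ((fun k => (3 : ℚ) ^ g k : ℕ → ℚ) : S.G) =
    ((fun k => (3 : ℚ) ^ (g k).toNat : ℕ → ℚ) : S.G) /
      ((fun k => (3 : ℚ) ^ (-g k).toNat : ℕ → ℚ) : S.G) := by
  rw [← Germ.coe_div]
  congr 1
  funext k
  rw [Pi.div_apply, ← zpow_natCast, ← zpow_natCast, ← zpow_sub₀ (by norm_num),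
    Int.toNat_sub_toNat_neg]

theorem three_zpow_mem_K {g : ℕ → ℤ} {γ : ℝ}
    (hg : Tendsto (fun k => (g k : ℝ) / S.n k) S.U (𝓝 γ)) :
    ((fun k => (3 : ℚ) ^ g k : ℕ → ℚ) : S.G) ∈ S.K := by
  rw [three_zpow_eq]
  exact div_mem (sz_three_pow hg fun k => by rcases abs_cases (g k) with h | h <;> omega).mem_K
    (sz_three_pow hg fun k => by rcases abs_cases (g k) with h | h <;> omega).mem_K

theorem three_zpow_mem_F {g : ℕ → ℤ}
    (hg : Tendsto (fun k => (g k : ℝ) / S.n k) S.U (𝓝 0)) :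
    ((fun k => (3 : ℚ) ^ g k : ℕ → ℚ) : S.G) ∈ S.F := by
  rw [three_zpow_eq]
  refine div_mem (Sz.mem_F ?_) (Sz.mem_F ?_)
  · simpa using sz_three_pow hg (h := fun k => (g k).toNat)
      fun k => by rcases abs_cases (g k) with h | h <;> omega
  · simpa using sz_three_pow hg (h := fun k => (-g k).toNat)
      fun k => by rcases abs_cases (g k) with h | h <;> omega

/-- A power of three with linear exponent. -/
noncomputable def E3 {g : ℕ → ℤ} {γ : ℝ}
    (hg : Tendsto (fun k => (g k : ℝ) / S.n k) S.U (𝓝 γ)) : S.K := ⟨_, three_zpow_mem_K hg⟩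

theorem N_E3 {v : AbsoluteValue ℚ ℝ} (hv : Adm v) {g : ℕ → ℤ} {γ : ℝ}
    (hg : Tendsto (fun k => (g k : ℝ) / S.n k) S.U (𝓝 γ)) : S.N hv (E3 hg) = v 3 ^ γ :=
  N_eq hv (lim_zpow (by norm_num) hg)

theorem E3_ne_zero {g : ℕ → ℤ} {γ : ℝ}
    (hg : Tendsto (fun k => (g k : ℝ) / S.n k) S.U (𝓝 γ)) : E3 hg ≠ 0 := fun h =>
  coe_ne_zero.2 (Eventually.of_forall fun k => zpow_ne_zero (g k) (by norm_num : (3 : ℚ) ≠ 0))
    (congrArg Subtype.val h)

theorem sz_two_pow : S.Sz 2 ((fun k => (2 : ℚ) ^ S.n k : ℕ → ℚ) : S.G) := by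
  have := Sz.of_le (S := S) (a := fun k => 2 ^ S.n k) (b := 1) two_pos
    (Eventually.of_forall fun k => by simp)
  simpa using this

variable (S) in
/-- The basic power of two. -/
noncomputable def E2 : S.K := ⟨_, sz_two_pow.mem_K⟩

theorem N_E2 {v : AbsoluteValue ℚ ℝ} (hv : Adm v) : S.N hv S.E2 = v 2 := by
  have h1 : Tendsto (fun k => (((S.n k : ℤ) : ℝ)) / S.n k) S.U (𝓝 1) := by
    refine tendsto_const_nhds.congr' ?_
    filter_upwards [ev_ne_zero (S := S)] with k hk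
    rw [Int.cast_natCast, div_self (by exact_mod_cast hk)]
  have := lim_zpow (v := v) (p := 2) (by norm_num) h1
  simp only [zpow_natCast, Real.rpow_one] at this
  exact N_eq hv this

theorem N₂_E3 {g : ℕ → ℤ} {γ : ℝ}
    (hg : Tendsto (fun k => (g k : ℝ) / S.n k) S.U (𝓝 γ)) : S.N₂ (E3 hg) = 1 := by
  rw [N_E3, Rat.AbsoluteValue.padic_eq_padicNorm]
  have : padicNorm 2 3 = 1 := by
    simpa using (padicNorm.int_eq_one_iff (p := 2) 3).2 (by norm_num)
  rw [this]; simp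

theorem N₂_E2 : S.N₂ S.E2 < 1 := by
  rw [N_E2, Rat.AbsoluteValue.padic_eq_padicNorm]
  have : padicNorm 2 2 < 1 := by simpa using padicNorm.padicNorm_p_lt_one (p := 2) (by norm_num)
  exact_mod_cast this

/-- Choice of multiplicatively independent generators. -/
theorem exists_generators {𝒞 : Type} [Fintype 𝒞] (m : 𝒞 → ℕ → ℤ) (θ : 𝒞 → ℝ)
    (hm : ∀ c, Tendsto (fun k => (m c k : ℝ) / S.n k) S.U (𝓝 (θ c))) (c₀ : 𝒞)
    {v : AbsoluteValue ℚ ℝ} (hv : Adm v) (hv3 : v 3 ≠ 1)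
    (hlam : Real.log (v 2) / Real.log (v 3) ∉ affineSpan ℚ (Set.range θ)) :
    ∃ (ι : Type) (_ : Fintype ι) (Z : S.K) (ω : ι → S.K) (ζ : 𝒞 → S.K),
      (AlgebraicIndependent S.F fun o : Option ι => o.elim Z ω) ∧ S.N₂ Z < 1 ∧
      (∀ i, S.N₂ (ω i) ≤ 1) ∧ (∀ c, ζ c ∈ Algebra.adjoin S.F (Set.range ω)) ∧ (∀ c, ζ c ≠ 0) ∧
      ∀ c, ((ζ c * Z : S.K) : S.G) =
        ((fun k => (2 : ℚ) ^ S.n k / 3 ^ m c k : ℕ → ℚ) : S.G) := by
  classical
  obtain ⟨ι, _, γ, e, he, hinj⟩ := exists_lattice_basis θ c₀ _ hlam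
  obtain ⟨N, hN⟩ : ∃ N : ℕ, ∀ c i, 0 ≤ e c i + N := by
    refine ⟨Finset.univ.sup fun p : 𝒞 × ι => (e p.1 p.2).natAbs, fun c i => ?_⟩
    have := Finset.le_sup (f := fun p : 𝒞 × ι => (e p.1 p.2).natAbs) (Finset.mem_univ (c, i))
    simp only at this
    omega
  let g : ι → ℕ → ℤ := fun i k => ⌊γ i * S.n k⌋
  have hg : ∀ i, Tendsto (fun k => (g i k : ℝ) / S.n k) S.U (𝓝 (γ i)) :=
    fun i => S.tendsto_floor _
  have hω : ∀ i, Tendsto (fun k => ((-g i k : ℤ) : ℝ) / S.n k) S.U (𝓝 (-γ i)) := fun i =>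
    (hg i).neg.congr fun k => by push_cast; ring
  have hZ : Tendsto (fun k => ((-m c₀ k + N * ∑ i, g i k : ℤ) : ℝ) / S.n k) S.U
      (𝓝 (-θ c₀ + N * ∑ i, γ i)) :=
    ((hm c₀).neg.add ((tendsto_finsetSum _ fun i _ => hg i).const_mul (N : ℝ))).congr fun k => by
      push_cast; rw [← Finset.sum_div]; ring
  have hη : ∀ c, Tendsto (fun k => ((-m c k + m c₀ k + ∑ i, e c i * g i k : ℤ) : ℝ) / S.n k) S.U
      (𝓝 0) := by
    intro c
    have := ((hm c).neg.add (hm c₀)).add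
      (tendsto_finsetSum Finset.univ fun i _ => (hg i).const_mul (e c i : ℝ))
    rw [he c, show -(θ c₀ + ∑ i, (e c i : ℝ) * γ i) + θ c₀ + ∑ i, (e c i : ℝ) * γ i = 0 by ring]
      at this
    refine this.congr fun k => ?_
    push_cast
    simp only [← mul_div_assoc]
    rw [← Finset.sum_div]; ring
  have hv2 : 0 < v 2 := v.pos (by norm_num)
  have hv3' : 0 < v 3 := v.pos (by norm_num)
  have hl3 : Real.log (v 3) ≠ 0 := Real.log_ne_zero_of_pos_of_ne_one hv3' hv3
  have hE2 : S.E2 ≠ 0 := (S.N hv).ne_zero_iff.1 (by rw [N_E2]; exact hv2.ne')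
  refine ⟨ι, inferInstance, S.E2 * E3 hZ, fun i => E3 (hω i),
    fun c => E3 (hη c) * ∏ i, E3 (hω i) ^ (e c i + N).toNat, ?_, ?_, fun i => (N₂_E3 _).le,
    fun c => ?_, fun c => mul_ne_zero (E3_ne_zero (hη c))
      (Finset.prod_ne_zero_iff.2 fun i _ => pow_ne_zero _ (E3_ne_zero (hω i))), fun c => ?_⟩
  · refine algInd_of_abv (S.N hv) (N_nonarch hv)
      (fun f hf => N_eq_one hv f.2 (by simpa using hf)) _ ?_ ?_
    · rintro (_ | i)
      exacts [mul_ne_zero hE2 (E3_ne_zero hZ), E3_ne_zero (hω i)]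
    · have hlog : ∀ s : Option ι →₀ ℕ, Real.log (S.N hv (s.prod fun o n =>
          (o.elim (S.E2 * E3 hZ) fun i => E3 (hω i)) ^ n)) =
          s none * (Real.log (v 2) + (-θ c₀ + N * ∑ i, γ i) * Real.log (v 3)) +
            ∑ i, s (some i) * (-γ i * Real.log (v 3)) := by
        intro s
        rw [Finsupp.prod_fintype _ _ (by simp), Fintype.prod_option, map_mul, map_prod]
        simp only [Option.elim, map_pow, map_mul, N_E2, N_E3]
        rw [Real.log_mul (by positivity) (by positivity), Real.log_prod (fun i _ => by positivity)]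
        simp only [Real.log_pow, Real.log_rpow hv3']
        rw [Real.log_mul (by positivity) (by positivity), Real.log_rpow hv3']
      intro s s' hs
      have h1 := (hlog s).symm.trans ((congrArg Real.log hs).trans (hlog s'))
      obtain ⟨h2, h3⟩ := hinj ((s none : ℤ) - s' none)
        (fun i => (s (some i) : ℤ) - s' (some i) - ((s none : ℤ) - s' none) * N) (by
          rw [← mul_div_assoc, eq_div_iff hl3]
          push_cast
          simp only [sub_mul, Finset.sum_sub_distrib, mul_assoc, ← Finset.mul_sum, neg_mul,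
            mul_neg, Finset.sum_neg_distrib] at h1 ⊢
          simp only [← mul_assoc, ← Finset.sum_mul] at h1 ⊢
          linear_combination -h1)
      ext (_ | i)
      · omega
      · have := congrFun h3 i
        simp only [h2, zero_mul, sub_zero, Pi.zero_apply] at this
        omega
  · rw [map_mul, N₂_E3, mul_one]; exact N₂_E2
  · refine mul_mem ?_ (prod_mem fun i _ => pow_mem (Algebra.subset_adjoin
      (Set.mem_range_self (f := fun i => E3 (hω i)) i)) _)
    exact Subalgebra.algebraMap_mem _ (⟨_, three_zpow_mem_F (hη c)⟩ : S.F)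
  · simp only [Subfield.coe_mul, SubmonoidClass.coe_finsetProd, SubmonoidClass.coe_pow, E3, E2]
    simp only [← Germ.coe_coeRingHom, ← map_pow, ← map_prod, ← map_mul]
    congr 1
    funext k
    have h3 : ∀ i, ((3 : ℚ) ^ (-g i k)) ^ (e c i + N).toNat = 3 ^ (-g i k * (e c i + N)) :=
      fun i => by rw [← zpow_natCast, ← zpow_mul, Int.toNat_of_nonneg (hN c _)]
    simp only [Pi.mul_apply, Finset.prod_apply, Pi.pow_apply, h3,
      prod_zpow_eq _ (by norm_num : (3 : ℚ) ≠ 0)]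
    rw [← zpow_add₀ (by norm_num), mul_left_comm, ← zpow_add₀ (by norm_num), div_eq_mul_inv,
      ← zpow_neg]
    congr 2
    simp only [mul_add, Finset.sum_add_distrib, neg_mul, Finset.sum_neg_distrib, Finset.mul_sum,
      mul_comm (g _ k)]
    ring

end Sc

theorem main_blocks (α : ℚ) (hα : Odd α.den) (q : ℕ) (hq : 2 ≤ q) {Lab : Type} [Fintype Lab]
    (hB : ∀ k, ∃ lab : ℕ → Lab, ∀ i i', lab i = lab i' →
      ∀ s < q ^ k, par α (q ^ k * i + s) = par α (q ^ k * i' + s))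
    (Θ : Finset ℝ) (hfreq : ∀ ε > 0, ∃ᶠ k in atTop, ∀ i, ∃ θ ∈ Θ,
      |((∑ s ∈ Finset.range (q ^ k), par α (q ^ k * i + s) : ℕ) : ℝ) / (q ^ k : ℕ) - θ| ≤ ε)
    {v : AbsoluteValue ℚ ℝ} (hv : Sc.Adm v) (hv3 : v 3 ≠ 1)
    (hlam : Real.log (v 2) / Real.log (v 3) ∉ affineSpan ℚ (Θ : Set ℝ)) :
    ∃ i j, i < j ∧ T^[i] α = T^[j] α := by
  classical
  have hB' : ∀ k, ∃ lab : ℕ → Lab, ∀ i i', lab i = lab i' ↔
      ∀ s < q ^ k, par α (q ^ k * i + s) = par α (q ^ k * i' + s) := by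
    intro k
    obtain ⟨lab, hlab⟩ := hB k
    have hex : ∀ i, ∃ i', ∀ s < q ^ k, par α (q ^ k * i + s) = par α (q ^ k * i' + s) :=
      fun i => ⟨i, fun _ _ => rfl⟩
    refine ⟨fun i => lab (Nat.find (hex i)), fun i i' => ⟨fun h s hs => ?_, fun h => ?_⟩⟩
    · rw [Nat.find_spec (hex i) s hs, Nat.find_spec (hex i') s hs]
      exact hlab _ _ h s hs
    · exact congrArg lab <| le_antisymm (Nat.find_min' _ fun s hs => (h s hs).trans (Nat.find_spec (hex i') s hs))
        (Nat.find_min' _ fun s hs => (h s hs).symm.trans (Nat.find_spec (hex i) s hs))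
  choose lab hlab using hB'
  obtain ⟨φ, hφ, hφ'⟩ := extraction_forall_of_frequently
    (fun l : ℕ => hfreq (1 / ((l : ℝ) + 1)) (by positivity))
  let U : Ultrafilter ℕ := Ultrafilter.of atTop
  have hU : (U : Filter ℕ) ≤ atTop := Ultrafilter.of_le _
  let S : Sc := ⟨U, fun l => q ^ φ l,
    ((tendsto_pow_atTop_atTop_of_one_lt (by omega : 1 < q)).comp hφ.tendsto_atTop).mono_left hU⟩
  have hn : ∀ l, S.n l = q ^ φ l := fun _ => rfl
  have hn0 : ∀ l, 0 < S.n l := fun l => pow_pos (by omega) _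
  have hlim : ∀ {β : Type} [Finite β] (f : ℕ → β), ∃ b, ∀ᶠ l in (S.U : Filter ℕ), f l = b :=
    fun f => Ultrafilter.eventually_exists_iff.1 (Eventually.of_forall fun l => ⟨f l, rfl⟩)
  have : Nonempty ℕ := ⟨0⟩
  let w : Lab → ℕ → ℕ → ℕ := fun c l s => par α (S.n l * Function.invFun (lab (φ l)) c + s)
  let m : Lab → ℕ → ℤ := fun c l => ((∑ s ∈ Finset.range (S.n l), w c l s : ℕ) : ℤ)
  have hθ : ∀ c, ∃ θ ∈ Θ, Tendsto (fun l => (m c l : ℝ) / S.n l) S.U (𝓝 θ) := by
    intro c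
    choose th hth hth' using fun l => hφ' l (Function.invFun (lab (φ l)) c)
    obtain ⟨⟨θ, hθ⟩, h⟩ := hlim fun l => (⟨th l, hth l⟩ : Θ)
    refine ⟨θ, hθ, tendsto_iff_norm_sub_tendsto_zero.2 ?_⟩
    refine squeeze_zero' (Eventually.of_forall fun _ => norm_nonneg _) ?_
      (tendsto_one_div_add_atTop_nhds_zero_nat.mono_left hU)
    filter_upwards [h] with l hl
    have h1 := hth' l
    rw [show th l = θ from congrArg Subtype.val hl] at h1
    simpa [m, w, hn] using h1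
  choose θ hθΘ hθ using hθ
  choose y hy using fun t => hlim fun l => lab (φ l) t
  obtain ⟨ι, _, Z, ω, ζ, hind, hZ, hω, hζ, hζ0, hζZ⟩ := Sc.exists_generators m θ hθ (y 0) hv hv3
    fun h => hlam (affineSpan_mono ℚ (by rintro _ ⟨c, rfl⟩; exact hθΘ c) h)
  choose A hA hA' using exists_int_orbit α hα
  have hAs : ∀ t, S.Sz (2 ^ t) ((fun l => (A (S.n l * t) : ℚ) : ℕ → ℚ) : S.G) := fun t =>
    Sc.Sz.of_le (b := |α.num| + α.den) (by positivity) (Eventually.of_forall fun l => by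
      have h1 : ((|A (S.n l * t)| + α.den : ℤ) : ℝ) ≤
          ((|α.num| + α.den) * 2 ^ (S.n l * t) : ℤ) := by exact_mod_cast hA' _
      push_cast at h1
      rw [← pow_mul, mul_comm t]
      have : (0 : ℝ) ≤ α.den := by positivity
      push_cast
      linarith)
  have hden : S.Sz 1 ((α.den : ℤ) : S.G) := Sc.Sz.intCast _
  have hden0 : (⟨_, hden.mem_K⟩ : S.K) ≠ 0 := fun h => by
    have := congrArg Subtype.val h
    simp at this
  let a : ℕ → S.K := fun t => ⟨_, (hAs t).mem_K⟩ / ⟨_, hden.mem_K⟩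
  have ha : ∀ t, (a t : S.G) = ((fun l => T^[S.n l * t] α : ℕ → ℚ) : S.G) := by
    intro t
    simp only [hA]
    rfl
  have hπ : ∀ c, S.Sz 5 ((fun l => ((pp (w c l) (S.n l) : ℤ) : ℚ) : ℕ → ℚ) : S.G) := fun c =>
    Sc.Sz.of_le (b := 1) (by norm_num) (Eventually.of_forall fun l => by
      have := pp_le (w c l) (fun s => par_le_one _ _) (S.n l)
      rw [one_mul, Int.cast_natCast, Nat.abs_cast]
      exact_mod_cast this)
  let P : Lab → S.K := fun c => ⟨_, (hπ c).mem_K⟩ / Sc.E3 (hθ c)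
  obtain ⟨t, t', htt, h⟩ := S.ultra_core (Lab := Lab) Z ω hind hZ hω ζ hζ hζ0 y q hq
    (fun j => by
      choose y' hy' using fun i => hlim fun l => lab (φ l + j) i
      refine ⟨y', fun i i' h s hs => ?_⟩
      obtain ⟨l, h1, h2, h3, h4⟩ := ((hy' i).and ((hy' i').and
        ((hy (q ^ j * i + s)).and (hy (q ^ j * i' + s))))).exists
      rw [← h3, ← h4, hlab]
      intro r hr
      have h5 := (hlab _ _ _).1 (h1.trans (h.trans h2.symm)) (q ^ φ l * s + r) (by
        rw [pow_add]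
        calc q ^ φ l * s + r < q ^ φ l * (s + 1) := by rw [mul_add, mul_one]; omega
          _ ≤ _ := Nat.mul_le_mul_left _ hs)
      rw [pow_add] at h5
      convert h5 using 2 <;> ring)
    a P
    (fun t => by
      rw [map_div₀, Sc.N_eq_one _ hden.mem_F hden0, div_one]
      exact Sc.N_le_one _ (Rat.AbsoluteValue.padic_le_one 2) (hAs t))
    (fun c => by
      rw [map_div₀, Sc.N₂_E3, div_one]
      exact Sc.N_le_one _ (Rat.AbsoluteValue.padic_le_one 2) (hπ c))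
    (fun t => by
      apply Subtype.ext
      rw [Subfield.coe_add, Subfield.coe_mul, hζZ, ha, ha, Subfield.coe_neg]
      simp only [P, Subfield.coe_div, Sc.E3]
      rw [← Germ.coe_div, ← Germ.coe_neg, ← Germ.coe_mul, ← Germ.coe_add, Germ.coe_eq]
      filter_upwards [hy t] with l hl
      have h1 := iterate_eq (T^[S.n l * t] α) (S.n l)
      have h2 : ∀ s < S.n l, par (T^[S.n l * t] α) s = w (y t) l s := by
        intro s hs
        rw [par_add]
        refine (hlab _ _ _).1 ?_ s hs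
        rw [hl, Function.invFun_eq ⟨t, hl⟩]
      rw [pp_congr h2, Finset.sum_congr rfl fun s hs => h2 s (Finset.mem_range.1 hs),
        ← Function.iterate_add_apply, add_comm (S.n l), ← mul_add_one] at h1
      simp only [Pi.add_apply, Pi.neg_apply, Pi.div_apply, Pi.mul_apply, m, zpow_natCast,
        Int.cast_natCast]
      field_simp
      linear_combination -h1)
  have h1 := congrArg Subtype.val h
  rw [ha, ha, Germ.coe_eq] at h1
  obtain ⟨l, hl⟩ := h1.exists
  exact ⟨_, _, Nat.mul_lt_mul_of_pos_left htt (hn0 l), hl⟩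

end Pool.Agent.MP_1e211b_nt.H60
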