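import Pool.Agent.MP_1e211b_nt.H60.Defs

set_option autoImplicit false

namespace Pool.Agent.MP_1e211b_nt.H60

theorem par_le_one (α : ℚ) (i : ℕ) : par α i ≤ 1 := by
  unfold par; split_ifs <;> simp

theorem par_add (α : ℚ) (s i : ℕ) : par (T^[s] α) i = par α (s + i) := by
  unfold par
  rw [add_comm, Function.iterate_add_apply]

theorem two_mul_T (γ : ℚ) : 2 * T γ = 3 ^ par γ 0 * γ + par γ 0 := by
  unfold T par
  simp only [Function.iterate_zero, id]
  split_ifs
  · simp; ring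
  · simp; ring

theorem num_odd_iff (a : ℤ) (b : ℕ) (hb : Odd b) : ((a : ℚ) / b).num % 2 = 1 ↔ a % 2 = 1 := by
  obtain ⟨γ, hγ⟩ : ∃ γ : ℚ, γ = (a : ℚ) / b := ⟨_, rfl⟩
  rw [← hγ]
  have hb0 : (b : ℚ) ≠ 0 := by exact_mod_cast hb.pos.ne'
  have h1 : γ.num * b = a * γ.den := by
    have h2 := Rat.num_div_den γ
    rw [hγ, div_eq_div_iff (by exact_mod_cast (a / b : ℚ).den_nz) hb0] at h2
    rw [hγ]; exact_mod_cast h2
  have hbz : Odd (b : ℤ) := by exact_mod_cast hb
  have h3 : Odd (γ.den : ℤ) := by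
    by_contra h
    rw [Int.not_odd_iff_even] at h
    have h4 : Odd γ.num := by
      by_contra h'
      rw [Int.not_odd_iff_even] at h'
      have h5 : 2 ∣ Nat.gcd γ.num.natAbs γ.den := Nat.dvd_gcd
        (Int.natAbs_dvd_natAbs.2 h'.two_dvd) (by exact_mod_cast h.two_dvd)
      rw [γ.reduced] at h5
      omega
    have h6 := h4.mul hbz
    rw [h1] at h6
    exact Int.not_even_iff_odd.2 h6 (h.mul_left _)
  rw [← Int.odd_iff, ← Int.odd_iff]
  constructor
  · intro h
    have := h.mul hbz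
    rw [h1, Int.odd_mul] at this
    exact this.1
  · intro h
    have := h.mul h3
    rw [← h1, Int.odd_mul] at this
    exact this.1

theorem exists_int_orbit (α : ℚ) (hα : Odd α.den) (i : ℕ) :
    ∃ a : ℤ, T^[i] α = a / α.den ∧ |a| + α.den ≤ (|α.num| + α.den) * 2 ^ i := by
  have hb0 : (α.den : ℚ) ≠ 0 := by exact_mod_cast α.den_nz
  induction i with
  | zero => exact ⟨α.num, by simp [Rat.num_div_den], by simp⟩
  | succ i ih =>
    obtain ⟨a, ha, hle⟩ := ih
    rw [Function.iterate_succ_apply', ha, T, pow_succ, ← mul_assoc]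
    simp only [num_odd_iff a _ hα]
    generalize (|α.num| + α.den) * 2 ^ i = Bd at hle ⊢
    obtain ⟨c, hc⟩ := hα
    have hc' : (α.den : ℤ) = 2 * c + 1 := by exact_mod_cast hc
    split_ifs with h
    · obtain ⟨d, rfl⟩ : ∃ d, a = 2 * d + 1 := ⟨a / 2, by omega⟩
      refine ⟨3 * d + c + 2, ?_, ?_⟩
      · have hc'' : (α.den : ℚ) = 2 * c + 1 := by exact_mod_cast hc
        field_simp
        push_cast
        rw [hc'']; ring
      · rw [hc'] at hle ⊢
        rcases abs_cases (2 * d + 1) with h1 | h1 <;> rcases abs_cases (3 * d + c + 2) with h2 | h2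
          <;> omega
    · obtain ⟨d, rfl⟩ : ∃ d, a = 2 * d := ⟨a / 2, by omega⟩
      refine ⟨d, ?_, ?_⟩
      · push_cast; field_simp
      · rw [hc'] at hle ⊢
        rcases abs_cases (2 * d) with h1 | h1 <;> rcases abs_cases d with h2 | h2 <;> omega

/-- The additive term in the affine form of an iterate. -/
def pp (w : ℕ → ℕ) : ℕ → ℕ
  | 0 => 0
  | r + 1 => 3 ^ w r * pp w r + w r * 2 ^ r

theorem pp_le (w : ℕ → ℕ) (hw : ∀ i, w i ≤ 1) (r : ℕ) : pp w r ≤ 5 ^ r := by
  induction r with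
  | zero => simp [pp]
  | succ r ih =>
    have h1 : 3 ^ w r ≤ 3 := by simpa using Nat.pow_le_pow_right (by norm_num : 0 < 3) (hw r)
    have h2 : 2 ^ r ≤ 5 ^ r := Nat.pow_le_pow_left (by norm_num) r
    have h3 := Nat.mul_le_mul h1 ih
    have h4 := Nat.mul_le_mul (hw r) h2
    rw [pp, pow_succ]
    omega

theorem pp_congr {w w' : ℕ → ℕ} {r : ℕ} (h : ∀ i < r, w i = w' i) : pp w r = pp w' r := by
  induction r with
  | zero => rfl
  | succ r ih => rw [pp, pp, ih fun i hi => h i (by omega), h r (by omega)]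

theorem iterate_eq (γ : ℚ) (r : ℕ) :
    2 ^ r * T^[r] γ = 3 ^ (∑ i ∈ Finset.range r, par γ i) * γ + pp (par γ) r := by
  induction r with
  | zero => simp [pp]
  | succ r ih =>
    have h1 := two_mul_T (T^[r] γ)
    rw [par_add, add_zero] at h1
    rw [Function.iterate_succ_apply', pow_succ, mul_assoc, h1, Finset.sum_range_succ, pp, pow_add]
    push_cast
    linear_combination (3 : ℚ) ^ par γ r * ih

theorem exists_lattice_basis {𝒞 : Type} [Fintype 𝒞] (θ : 𝒞 → ℝ) (c₀ : 𝒞) (lam : ℝ)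
    (hlam : lam ∉ affineSpan ℚ (Set.range θ)) :
    ∃ (ι : Type) (_ : Fintype ι) (γ : ι → ℝ) (e : 𝒞 → ι → ℤ),
      (∀ c, θ c = θ c₀ + ∑ i, e c i * γ i) ∧
      ∀ (t : ℤ) (f : ι → ℤ), t * θ c₀ + ∑ i, f i * γ i = t * lam → t = 0 ∧ f = 0 := by
  classical
  obtain ⟨κ, a, ha, hsp, hli⟩ := exists_linearIndependent' ℚ fun c => θ c - θ c₀
  have : Finite κ := Finite.of_injective a ha
  have := Fintype.ofFinite κ
  have hr : ∀ c, ∃ r : κ → ℚ, ∑ j, r j • (θ (a j) - θ c₀) = θ c - θ c₀ := fun c =>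
    (Submodule.mem_span_range_iff_exists_fun ℚ).1 (hsp ▸ Submodule.subset_span ⟨c, rfl⟩)
  choose r hr using hr
  obtain ⟨D, hD⟩ := IsLocalization.exist_integer_multiples_of_finite (nonZeroDivisors ℤ)
    (fun p : 𝒞 × κ => r p.1 p.2)
  choose e he using hD
  have hD0 : ((D : ℤ) : ℝ) ≠ 0 := by exact_mod_cast nonZeroDivisors.ne_zero D.2
  refine ⟨κ, inferInstance, fun j => (θ (a j) - θ c₀) / (D : ℤ), fun c j => e (c, j),
    fun c => ?_, fun t f h => ?_⟩
  · rw [← sub_eq_iff_eq_add', ← hr c]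
    refine Finset.sum_congr rfl fun j _ => ?_
    have h1 : ((e (c, j) : ℤ) : ℝ) = (D : ℤ) * (r c j : ℝ) := by
      have := he (c, j)
      simp only [eq_intCast, zsmul_eq_mul] at this
      exact_mod_cast this
    rw [h1, Rat.smul_def]
    field_simp
  · have ht : t = 0 := by
      by_contra ht
      have ht' : (t : ℝ) ≠ 0 := by exact_mod_cast ht
      apply hlam
      have h1 : lam = (∑ j, ((f j : ℚ) / (t * (D : ℤ))) • (θ (a j) - θ c₀)) +ᵥ θ c₀ := by
        rw [vadd_eq_add]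
        apply mul_left_cancel₀ ht'
        rw [← h, mul_add, add_comm, Finset.mul_sum]
        congr 1
        refine Finset.sum_congr rfl fun j _ => ?_
        rw [Rat.smul_def]
        push_cast
        field_simp
      rw [h1]
      refine AffineSubspace.vadd_mem_of_mem_direction ?_ (mem_affineSpan ℚ ⟨c₀, rfl⟩)
      rw [direction_affineSpan]
      exact Submodule.sum_mem _ fun j _ => Submodule.smul_mem _ _
        (vsub_mem_vectorSpan ℚ ⟨a j, rfl⟩ ⟨c₀, rfl⟩)
    refine ⟨ht, funext fun j => ?_⟩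
    have h2 := Fintype.linearIndependent_iff.1 hli (fun j => (f j : ℚ)) (by
      simp only [ht, Int.cast_zero, zero_mul, zero_add] at h
      have h3 := congrArg (· * ((D : ℤ) : ℝ)) h
      simp only [Finset.sum_mul, zero_mul] at h3
      rw [← h3]
      refine Finset.sum_congr rfl fun j _ => ?_
      rw [Rat.smul_def]
      push_cast
      simp only [Function.comp]
      field_simp) j
    exact_mod_cast h2

end Pool.Agent.MP_1e211b_nt.H60
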