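import Pool.Agent.MP_1e211b_nt.H60.Disj

set_option autoImplicit false

namespace Pool.Agent.MP_1e211b_nt.H60

open Polynomial
open scoped PowerSeries

variable {k : Type*} [Field k]

/-- Rotation of power series. -/
noncomputable def rot (μ : kˣ) : k⟦X⟧ ≃+* k⟦X⟧ :=
  RingEquiv.ofRingHom (PowerSeries.rescale (μ : k)) (PowerSeries.rescale ((μ⁻¹ : kˣ) : k))
    (by rw [← PowerSeries.rescale_mul]; simp) (by rw [← PowerSeries.rescale_mul]; simp)

theorem rot_apply (μ : kˣ) (f : k⟦X⟧) : rot μ f = PowerSeries.rescale (μ : k) f := rfl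

theorem rot_symm (μ : kˣ) : (rot μ).symm = rot μ⁻¹ := by
  ext f : 1
  rfl

/-- Rotation of polynomials. -/
noncomputable def rotP (μ : k) : k[X] →+* k[X] := compRingHom (C μ * X)

theorem coeff_rotP (μ : k) (p : k[X]) (n : ℕ) : (rotP μ p).coeff n = p.coeff n * μ ^ n :=
  comp_C_mul_X_coeff

theorem rot_coe (μ : kˣ) (p : k[X]) : rot μ (p : k⟦X⟧) = (rotP (μ : k) p : k[X]) := by
  ext n
  rw [rot_apply, PowerSeries.coeff_rescale, coeff_coe, coeff_coe, coeff_rotP, mul_comm]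

theorem natDegree_rotP_le (μ : k) (p : k[X]) : (rotP μ p).natDegree ≤ p.natDegree := by
  rw [natDegree_le_iff_coeff_eq_zero]
  intro n hn
  rw [coeff_rotP, coeff_eq_zero_of_natDegree_lt hn, zero_mul]

variable (M : Type*) [Field M] [Algebra k⟦X⟧ M] [IsFractionRing k⟦X⟧ M]

/-- Rotation of Laurent series. -/
noncomputable def rho (μ : kˣ) : M ≃+* M := IsFractionRing.ringEquivOfRingEquiv (rot μ)

variable {M}

theorem rho_algebraMap (μ : kˣ) (f : k⟦X⟧) :
    rho M μ (algebraMap k⟦X⟧ M f) = algebraMap k⟦X⟧ M (rot μ f) :=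
  IsFractionRing.ringEquivOfRingEquiv_algebraMap _ _

theorem rho_symm (μ : kˣ) : (rho M μ).symm = rho M μ⁻¹ := by
  rw [rho, IsFractionRing.ringEquivOfRingEquiv_symm, rot_symm]; rfl

theorem rho_one (x : M) : rho M (1 : kˣ) x = x := by
  have : rot (1 : kˣ) = RingEquiv.refl _ := by
    ext f : 1
    simp [rot_apply]
  rw [rho, this, IsFractionRing.ringEquivOfRingEquiv_refl]; rfl

variable [Algebra k[X] M] [IsScalarTower k[X] k⟦X⟧ M]

omit [IsFractionRing k⟦X⟧ M] in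
theorem algebraMap_poly (p : k[X]) : algebraMap k[X] M p = algebraMap k⟦X⟧ M (p : k⟦X⟧) :=
  IsScalarTower.algebraMap_apply k[X] k⟦X⟧ M p

theorem rho_poly (μ : kˣ) (p : k[X]) :
    rho M μ (algebraMap k[X] M p) = algebraMap k[X] M (rotP (μ : k) p) := by
  rw [algebraMap_poly, rho_algebraMap, rot_coe, algebraMap_poly]

variable [Algebra (RatFunc k) M] [IsScalarTower k[X] (RatFunc k) M]

theorem presL_rho (μ : kˣ) : PresL (RatFunc k) (rho M μ : M →+* M) := by
  intro l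
  refine ⟨algebraMap k[X] _ (rotP (μ : k) l.num) / algebraMap k[X] _ (rotP (μ : k) l.denom), ?_⟩
  conv_lhs => rw [← RatFunc.num_div_denom l]
  simp only [map_div₀, ← IsScalarTower.algebraMap_apply]
  rw [← rho_poly, ← rho_poly]
  rfl

open Classical in
/-- The valuation ring at infinity. -/
noncomputable abbrev Oinf (k : Type*) [Field k] : ValuationSubring (RatFunc k) :=
  (RatFunc.inftyValuation k).valuationSubring

theorem mem_Oinf_iff (p : k[X]) (hp : p ≠ 0) (n : ℕ) :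
    algebraMap k[X] (RatFunc k) p * (RatFunc.X⁻¹) ^ n ∈ Oinf k ↔ p.natDegree ≤ n := by
  classical
  rw [Valuation.mem_valuationSubring_iff, map_mul, map_pow, map_inv₀,
    RatFunc.inftyValuation_apply, RatFunc.inftyValuation.polynomial _ hp,
    RatFunc.inftyValuation.X, ← WithZero.exp_neg, ← WithZero.exp_nsmul, ← WithZero.exp_add,
    ← WithZero.exp_zero, WithZero.exp_le_exp]
  simp

omit [Algebra k⟦X⟧ M] [IsFractionRing k⟦X⟧ M] [IsScalarTower k[X] k⟦X⟧ M] in
theorem isIntegral_Oinf (x : M) (f : k[X][X]) (hf : f.Monic) (hx : aeval x f = 0) (D : ℕ)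
    (hD : ∀ i, (f.coeff i).natDegree ≤ D) :
    IsIntegral (Oinf k) (algebraMap (RatFunc k) M (RatFunc.X⁻¹ ^ D) * x) := by
  let g : (RatFunc k)[X] := (f.map (algebraMap k[X] (RatFunc k))).scaleRoots (RatFunc.X⁻¹ ^ D)
  have hfm : (f.map (algebraMap k[X] (RatFunc k))).Monic := hf.map _
  have hgm : g.Monic := (monic_scaleRoots_iff _).2 hfm
  have hgl : g ∈ lifts (algebraMap (Oinf k) (RatFunc k)) := by
    rw [lifts_iff_coeff_lifts]
    intro n
    suffices h : g.coeff n ∈ Oinf k from ⟨⟨_, h⟩, rfl⟩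
    rcases lt_trichotomy n g.natDegree with h | h | h
    · simp only [g, natDegree_scaleRoots] at h
      simp only [g, coeff_scaleRoots, coeff_map]
      by_cases h0 : f.coeff n = 0
      · rw [h0, map_zero, zero_mul]; exact zero_mem _
      rw [← pow_mul, mem_Oinf_iff _ h0]
      refine (hD n).trans ?_
      exact Nat.le_mul_of_pos_right _ (Nat.sub_pos_of_lt h)
    · rw [h, hgm.coeff_natDegree]; exact one_mem _
    · rw [coeff_eq_zero_of_natDegree_lt h]; exact zero_mem _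
  obtain ⟨g', hg', -, hgm'⟩ := lifts_and_degree_eq_and_monic hgl hgm
  refine ⟨g', hgm', ?_⟩
  rw [← aeval_def, ← aeval_map_algebraMap (RatFunc k), hg']
  exact scaleRoots_aeval_eq_zero (by rw [aeval_map_algebraMap, hx])

theorem exists_coeff_ne_zero_le (E : IntermediateField (RatFunc k) M)
    [FiniteDimensional (RatFunc k) E] (s : k⟦X⟧) (hs : s ≠ 0) (D : ℕ)
    (hE : algebraMap k⟦X⟧ M s ∈ E) (h1 : IsIntegral k[X] (algebraMap k⟦X⟧ M s))
    (h2 : IsIntegral (Oinf k)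
      (algebraMap (RatFunc k) M (RatFunc.X⁻¹ ^ D) * algebraMap k⟦X⟧ M s)) :
    ∃ t ≤ D * Module.finrank (RatFunc k) E, PowerSeries.coeff t s ≠ 0 := by
  obtain ⟨x, hx⟩ : ∃ x, x = algebraMap k⟦X⟧ M s := ⟨_, rfl⟩
  have hinj := IsFractionRing.injective k⟦X⟧ M
  have hx0 : x ≠ 0 := by rw [hx]; exact (map_ne_zero_iff _ hinj).2 hs
  rw [← hx] at hE h1 h2
  have hxL : IsIntegral (RatFunc k) x := h1.tower_top
  have hmp := minpoly.isIntegrallyClosed_eq_field_fractions' (RatFunc k) h1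
  obtain ⟨c, hc⟩ : ∃ c, c = (minpoly k[X] x).coeff 0 := ⟨_, rfl⟩
  have hc' : (minpoly (RatFunc k) x).coeff 0 = algebraMap k[X] (RatFunc k) c := by
    rw [hmp, coeff_map, hc]
  have hc0 : c ≠ 0 := by
    intro h
    exact minpoly.coeff_zero_ne_zero hxL hx0 (by rw [hc', h, map_zero])
  have hdeg : (minpoly (RatFunc k) x).natDegree ≤ Module.finrank (RatFunc k) E := by
    have := minpoly.natDegree_le (A := RatFunc k) (⟨x, hE⟩ : E)
    rwa [IntermediateField.minpoly_eq] at this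
  have hu : (RatFunc.X⁻¹ ^ D : RatFunc k) ≠ 0 := pow_ne_zero _ (inv_ne_zero RatFunc.X_ne_zero)
  have hcd : c.natDegree ≤ D * (minpoly (RatFunc k) x).natDegree := by
    have h3 := minpoly.isIntegrallyClosed_eq_field_fractions' (RatFunc k) h2
    rw [← Algebra.smul_def, IsIntegrallyClosed.minpoly_smul hu hxL] at h3
    have h4 := congrArg (fun p => Polynomial.coeff p 0) h3
    simp only [coeff_scaleRoots, coeff_map, hc', Nat.sub_zero] at h4
    rw [← mem_Oinf_iff c hc0, pow_mul, h4]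
    exact Subtype.property _
  by_contra hcon
  push Not at hcon
  have h5 : aeval s (minpoly k[X] x) = 0 := by
    apply hinj
    rw [map_zero, ← aeval_algebraMap_apply, ← hx, minpoly.aeval]
  have h6 : s ∣ (c : k⟦X⟧) := by
    rw [← X_mul_divX_add (minpoly k[X] x), map_add, map_mul, aeval_X, aeval_C, ← hc] at h5
    exact ⟨-aeval s (minpoly k[X] x).divX, by
      rw [mul_neg]; exact eq_neg_of_add_eq_zero_right h5⟩
  have h7 : PowerSeries.X ^ (D * Module.finrank (RatFunc k) E + 1) ∣ s :=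
    PowerSeries.X_pow_dvd_iff.2 fun t ht => hcon t (Nat.lt_succ_iff.1 ht)
  have h8 := PowerSeries.X_pow_dvd_iff.1 (h7.trans h6) c.natDegree
    (Nat.lt_succ_of_le (hcd.trans (Nat.mul_le_mul_left _ hdeg)))
  rw [coeff_coe] at h8
  exact hc0 (leadingCoeff_eq_zero.1 h8)

theorem mem_range_of_rho [IsAlgClosed k] [CharZero k] (q : ℕ) (hq : 2 ≤ q) (φ : M)
    (E : IntermediateField (RatFunc k) M) (hE : FiniteDimensional (RatFunc k) E)
    (h : ∀ μ : kˣ, (∃ j, μ ^ (q ^ j) = 1) → rho M μ φ ∈ E) :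
    ∃ l, φ = algebraMap (RatFunc k) M l := by
  have hinj := IsFractionRing.injective k⟦X⟧ M
  have hφE : φ ∈ E := by simpa [rho_one] using h 1 ⟨0, by simp⟩
  have hφa : IsAlgebraic (RatFunc k) φ :=
    (IsAlgebraic.of_finite (RatFunc k) (⟨φ, hφE⟩ : E)).algebraMap
  have hφa' : IsAlgebraic k[X] φ := (IsFractionRing.isAlgebraic_iff k[X] (RatFunc k) M).2 hφa
  obtain ⟨d, hd0, hdi⟩ := hφa'.exists_integral_multiple
  obtain ⟨s, hs⟩ : ∃ s : k⟦X⟧, algebraMap k⟦X⟧ M s = d • φ :=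
    IsIntegrallyClosed.isIntegral_iff.1 (hdi.tower_top (A := k⟦X⟧))
  have hdL : algebraMap k[X] (RatFunc k) d ≠ 0 := by simpa using hd0
  suffices hfin : ∃ p : k[X], s = p by
    obtain ⟨p, rfl⟩ := hfin
    refine ⟨algebraMap k[X] _ p / algebraMap k[X] _ d, ?_⟩
    rw [map_div₀, eq_div_iff ((_root_.map_ne_zero _).2 hdL), ← IsScalarTower.algebraMap_apply,
      ← IsScalarTower.algebraMap_apply, algebraMap_poly p, hs, Algebra.smul_def, mul_comm]
  obtain ⟨f, hfm, hf⟩ := hdi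
  rw [← aeval_def, ← hs] at hf
  obtain ⟨D, hD⟩ : ∃ D, ∀ i, (f.coeff i).natDegree ≤ D := by
    refine ⟨f.support.sup fun i => (f.coeff i).natDegree, fun i => ?_⟩
    by_cases hi : i ∈ f.support
    · exact Finset.le_sup (f := fun i => (f.coeff i).natDegree) hi
    · rw [notMem_support_iff.1 hi]; simp
  obtain ⟨B, hB⟩ : ∃ B, B = D * Module.finrank (RatFunc k) E := ⟨_, rfl⟩
  suffices hz : ∀ n, B < n → PowerSeries.coeff n s = 0 by
    refine ⟨PowerSeries.trunc (B + 1) s, ?_⟩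
    ext n
    rw [coeff_coe, PowerSeries.coeff_trunc]
    split_ifs with hn
    · rfl
    · exact hz n (by omega)
  intro n hn
  by_contra hsn
  -- properties of rotated series
  have hrot : ∀ μ : kˣ, (∃ j, μ ^ (q ^ j) = 1) → algebraMap k⟦X⟧ M (rot μ s) ∈ E ∧
      IsIntegral k[X] (algebraMap k⟦X⟧ M (rot μ s)) ∧ IsIntegral (Oinf k)
      (algebraMap (RatFunc k) M (RatFunc.X⁻¹ ^ D) * algebraMap k⟦X⟧ M (rot μ s)) := by
    intro μ hμ
    have ha : aeval (algebraMap k⟦X⟧ M (rot μ s)) (f.map (rotP (μ : k))) = 0 := by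
      have h1 := congrArg (rho M μ) hf
      rw [map_zero, aeval_def, ← RingEquiv.coe_toRingHom, hom_eval₂] at h1
      rw [aeval_def, eval₂_map, ← rho_algebraMap, ← h1]
      congr 1
      ext1
      · ext a; simp only [RingHom.comp_apply, RingEquiv.coe_toRingHom, rho_poly]
      · simp only [RingHom.comp_apply, RingEquiv.coe_toRingHom, rho_poly]
    refine ⟨?_, ⟨_, hfm.map _, ha⟩, isIntegral_Oinf _ _ (hfm.map _) ha D fun i => ?_⟩
    · rw [← rho_algebraMap, hs, Algebra.smul_def, map_mul, rho_poly,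
        IsScalarTower.algebraMap_apply k[X] (RatFunc k) M]
      exact mul_mem (E.algebraMap_mem _) (h μ hμ)
    · rw [coeff_map]; exact (natDegree_rotP_le _ _).trans (hD i)
  obtain ⟨Q, hQ⟩ : ∃ Q, Q = q ^ n := ⟨_, rfl⟩
  have hnQ : n < Q := hQ ▸ Nat.lt_pow_self (by omega)
  have hQ0 : NeZero (Q : k) := ⟨by exact_mod_cast (by omega : Q ≠ 0)⟩
  obtain ⟨ζ, hζ⟩ := HasEnoughRootsOfUnity.exists_primitiveRoot k Q
  have hζ0 : ζ ≠ 0 := hζ.ne_zero (by omega)
  let μ : kˣ := Units.mk0 ζ hζ0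
  have hμ : ∀ i : ℕ, ∃ j, (μ ^ i) ^ (q ^ j) = 1 := fun i => ⟨n, by
    rw [← hQ, ← pow_mul, mul_comm, pow_mul]
    have : μ ^ Q = 1 := Units.ext (by simpa [μ] using hζ.pow_eq_one)
    rw [this, one_pow]⟩
  obtain ⟨σ, hσ⟩ : ∃ σ : k⟦X⟧, σ = ∑ i ∈ Finset.range Q,
      ((C ((ζ ^ n)⁻¹ ^ i) : k[X]) : k⟦X⟧) * rot (μ ^ i) s := ⟨_, rfl⟩
  have hσc : ∀ t, PowerSeries.coeff t σ =
      (∑ i ∈ Finset.range Q, (ζ ^ t * (ζ ^ n)⁻¹) ^ i) * PowerSeries.coeff t s := by
    intro t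
    rw [hσ, map_sum, Finset.sum_mul]
    refine Finset.sum_congr rfl fun i _ => ?_
    rw [coe_C, PowerSeries.coeff_C_mul, rot_apply, PowerSeries.coeff_rescale]
    simp only [μ, Units.val_pow_eq_pow_val, Units.val_mk0, mul_pow, ← pow_mul, mul_comm i t]
    ring
  have hσn : PowerSeries.coeff n σ ≠ 0 := by
    rw [hσc, mul_inv_cancel₀ (pow_ne_zero _ hζ0)]
    simpa using ⟨by omega, hsn⟩
  have hσt : ∀ t < n, PowerSeries.coeff t σ = 0 := by
    intro t ht
    have h1 : ζ ^ t * (ζ ^ n)⁻¹ ≠ 1 := by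
      intro h1
      rw [mul_inv_eq_one₀ (pow_ne_zero _ hζ0)] at h1
      have := hζ.pow_inj (ht.trans hnQ) hnQ h1
      omega
    rw [hσc, geom_sum_eq h1, mul_pow, inv_pow, ← pow_mul, ← pow_mul, mul_comm t, mul_comm n,
      pow_mul, pow_mul, hζ.pow_eq_one]
    simp
  have hσM : algebraMap k⟦X⟧ M σ = ∑ i ∈ Finset.range Q,
      algebraMap k[X] M (C ((ζ ^ n)⁻¹ ^ i)) * algebraMap k⟦X⟧ M (rot (μ ^ i) s) := by
    rw [hσ, map_sum]
    simp only [map_mul, algebraMap_poly]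
  obtain ⟨t, ht, ht0⟩ := exists_coeff_ne_zero_le E σ (fun h0 => hσn (by simp [h0])) D
    (by
      rw [hσM]
      refine sum_mem fun i _ => mul_mem ?_ (hrot _ (hμ i)).1
      rw [IsScalarTower.algebraMap_apply k[X] (RatFunc k) M]
      exact E.algebraMap_mem _)
    (by
      rw [hσM]
      exact IsIntegral.sum _ fun i _ => isIntegral_algebraMap.mul (hrot _ (hμ i)).2.1)
    (by
      rw [hσM, Finset.mul_sum]
      refine IsIntegral.sum _ fun i _ => ?_
      rw [mul_left_comm]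
      refine IsIntegral.mul ?_ (hrot _ (hμ i)).2.2
      have hm : algebraMap k[X] (RatFunc k) (C ((ζ ^ n)⁻¹ ^ i)) ∈ Oinf k := by
        have := (mem_Oinf_iff (C ((ζ ^ n)⁻¹ ^ i)) (by simp [hζ0]) 0).2 (by simp)
        simpa using this
      rw [IsScalarTower.algebraMap_apply k[X] (RatFunc k) M]
      exact isIntegral_algebraMap (R := Oinf k) (x := ⟨_, hm⟩))
  exact ht0 (hσt t (by omega))

end Pool.Agent.MP_1e211b_nt.H60
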