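import Pool.Agent.MP_1e211b_nt.H60.Rot

set_option autoImplicit false

namespace Pool.Agent.MP_1e211b_nt.H60

open Polynomial
open scoped PowerSeries

open Classical in
/-- The generating series of a set of positions, with multiplicative weights. -/
noncomputable def Gs {R 𝒞 : Type*} [CommRing R] (ζ : 𝒞 → R) (y : ℕ → 𝒞) (E : ℕ → Prop) : R⟦X⟧ :=
  PowerSeries.mk fun t => if E t then ∏ i ∈ Finset.range t, ζ (y i) else 0

open Classical in
theorem coeff_Gs {R 𝒞 : Type*} [CommRing R] (ζ : 𝒞 → R) (y : ℕ → 𝒞) (E : ℕ → Prop) (t : ℕ) :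
    PowerSeries.coeff t (Gs ζ y E) = if E t then ∏ i ∈ Finset.range t, ζ (y i) else 0 := by
  rw [Gs, PowerSeries.coeff_mk]

theorem map_Gs {R S 𝒞 : Type*} [CommRing R] [CommRing S] (f : R →+* S) (ζ : 𝒞 → R) (y : ℕ → 𝒞)
    (E : ℕ → Prop) : PowerSeries.map f (Gs ζ y E) = Gs (fun c => f (ζ c)) y E := by
  ext t
  rw [PowerSeries.coeff_map, coeff_Gs, coeff_Gs]
  split_ifs <;> simp

/-- A set of positions determined by the aligned blocks of length `Q`. -/
def Meas {𝒞 : Type*} (y : ℕ → 𝒞) (Q : ℕ) (E : ℕ → Prop) : Prop :=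
  ∀ i i' r, r < Q → (∀ s < Q, y (Q * i + s) = y (Q * i' + s)) → E (Q * i + r) → E (Q * i' + r)

theorem Meas.mul {𝒞 : Type*} {y : ℕ → 𝒞} {Q : ℕ} {E : ℕ → Prop} (h : Meas y Q E) (q : ℕ) :
    Meas y (Q * q) E := by
  intro i i' r hr hy hE
  have hQ : 0 < Q := by
    rcases Nat.eq_zero_or_pos Q with h | h
    · simp [h] at hr
    · exact h
  have h1 : r / Q < q := by rw [Nat.div_lt_iff_lt_mul hQ, mul_comm]; exact hr
  have h2 : ∀ n, Q * q * n + r = Q * (q * n + r / Q) + r % Q := fun n => by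
    conv_lhs => rw [← Nat.div_add_mod r Q]
    ring
  rw [h2] at hE ⊢
  refine h _ _ _ (Nat.mod_lt _ hQ) (fun s hs => ?_) hE
  have h3 : ∀ n, Q * (q * n + r / Q) + s = Q * q * n + (Q * (r / Q) + s) := fun n => by ring
  rw [h3, h3]
  apply hy
  calc Q * (r / Q) + s < Q * (r / Q + 1) := by rw [mul_add, mul_one]; omega
    _ ≤ Q * q := Nat.mul_le_mul_left _ h1

theorem Meas.pow_le {𝒞 : Type*} {y : ℕ → 𝒞} {q j j' : ℕ} {E : ℕ → Prop} (h : Meas y (q ^ j) E)
    (hj : j ≤ j') : Meas y (q ^ j') E := by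
  obtain ⟨d, rfl⟩ := Nat.exists_eq_add_of_le hj
  rw [pow_add]; exact h.mul _

theorem Gs_decomp {R 𝒞 Lab : Type*} [CommRing R] [Fintype Lab] (ζ : 𝒞 → R) (y : ℕ → 𝒞)
    (Q : ℕ) (hQ : 0 < Q) (lab : ℕ → Lab)
    (hlab : ∀ i i', lab i = lab i' → ∀ s < Q, y (Q * i + s) = y (Q * i' + s))
    (E : ℕ → Prop) (hE : Meas y Q E) :
    ∃ p : Lab → R[X], Gs ζ y E = ∑ c, (p c : R⟦X⟧) * Gs ζ y fun t => Q ∣ t ∧ lab (t / Q) = c := by
  classical
  let rep : Lab → ℕ := Function.invFun lab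
  have hrep : ∀ i, lab (rep (lab i)) = lab i := fun i => Function.invFun_eq ⟨i, rfl⟩
  let w : Lab → ℕ → R := fun c r =>
    if E (Q * rep c + r) then ∏ s ∈ Finset.range r, ζ (y (Q * rep c + s)) else 0
  refine ⟨fun c => ∑ r ∈ Finset.range Q, monomial r (w c r), ?_⟩
  ext t
  have hc : ∀ c, ((∑ r ∈ Finset.range Q, monomial r (w c r) : R[X]) : R⟦X⟧) =
      ∑ r ∈ Finset.range Q, PowerSeries.C (w c r) * PowerSeries.X ^ r := by
    intro c
    rw [← coeToPowerSeries.ringHom_apply, map_sum]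
    refine Finset.sum_congr rfl fun r _ => ?_
    rw [coeToPowerSeries.ringHom_apply, ← C_mul_X_pow_eq_monomial, coe_mul, coe_pow, coe_C, coe_X]
  simp only [hc, Finset.sum_mul, map_sum, mul_assoc, PowerSeries.coeff_C_mul,
    PowerSeries.coeff_X_pow_mul', coeff_Gs]
  obtain ⟨i, hi⟩ : ∃ i, i = t / Q := ⟨_, rfl⟩
  obtain ⟨r₀, hr₀⟩ : ∃ r, r = t % Q := ⟨_, rfl⟩
  have hr₀Q : r₀ < Q := hr₀ ▸ Nat.mod_lt _ hQ
  have ht : t = Q * i + r₀ := by rw [hi, hr₀, Nat.div_add_mod]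
  have hdvd : ∀ r < Q, r ≤ t → Q ∣ t - r → r = r₀ := by
    intro r hr hrt hd
    have h1 : r % Q = t % Q := (Nat.modEq_iff_dvd' hrt).2 hd
    rw [Nat.mod_eq_of_lt hr] at h1
    omega
  have hsub : t - r₀ = Q * i := by omega
  rw [Finset.sum_eq_single (lab i), Finset.sum_eq_single r₀]
  · have hy := hlab _ _ (hrep i)
    have hcond : Q ∣ Q * i ∧ lab (Q * i / Q) = lab i := ⟨dvd_mul_right _ _, by
      rw [Nat.mul_div_cancel_left _ hQ]⟩
    rw [if_pos (by omega : r₀ ≤ t), hsub, if_pos hcond]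
    simp only [w]
    by_cases hEt : E t
    · rw [if_pos hEt, if_pos (hE i _ r₀ hr₀Q (fun s hs => (hy s hs).symm) (ht ▸ hEt))]
      rw [ht, Finset.prod_range_add, mul_comm]
      congr 1
      exact Finset.prod_congr rfl fun s hs => by
        rw [hy s ((Finset.mem_range.1 hs).trans hr₀Q)]
    · rw [if_neg hEt, if_neg, zero_mul]
      intro h
      exact hEt (ht ▸ hE _ i r₀ hr₀Q hy h)
  · intro r hr hne
    split_ifs with h1 h2
    · exact absurd (hdvd r (Finset.mem_range.1 hr) h1 h2.1) hne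
    · simp
    · simp
  · intro h; exact absurd (Finset.mem_range.2 hr₀Q) h
  · intro c _ hne
    refine Finset.sum_eq_zero fun r hr => ?_
    split_ifs with h1 h2
    · have := hdvd r (Finset.mem_range.1 hr) h1 h2.1
      subst this
      rw [hsub, Nat.mul_div_cancel_left _ hQ] at h2
      exact absurd h2.2.symm hne
    · simp
    · simp
  · simp

variable {k : Type*} [Field k] {M : Type*} [Field M] [Algebra k⟦X⟧ M] [IsFractionRing k⟦X⟧ M]
  [Algebra k[X] M] [IsScalarTower k[X] k⟦X⟧ M] [Algebra (RatFunc k) M]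
  [IsScalarTower k[X] (RatFunc k) M]

theorem rot_Gs {𝒞 : Type*} (ζ : 𝒞 → k) (y : ℕ → 𝒞) (E : ℕ → Prop) (Q : ℕ) (hQ : 0 < Q)
    (μ : kˣ) (hμ : μ ^ Q = 1) : rot μ (Gs ζ y E) = ∑ r ∈ Finset.range Q,
      ((C ((μ : k) ^ r) : k[X]) : k⟦X⟧) * Gs ζ y fun t => E t ∧ t % Q = r := by
  classical
  ext t
  simp only [rot_apply, PowerSeries.coeff_rescale, map_sum, coe_C, PowerSeries.coeff_C_mul,
    coeff_Gs]
  have hμ' : (μ : k) ^ Q = 1 := by rw [← Units.val_pow_eq_pow_val, hμ, Units.val_one]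
  rw [Finset.sum_eq_single (t % Q), ← pow_eq_pow_mod t hμ']
  · simp
  · intro r _ hr
    simp [hr.symm]
  · intro h; exact absurd (Finset.mem_range.2 (Nat.mod_lt _ hQ)) h

omit [IsFractionRing k⟦X⟧ M] in
theorem poly_mul_mem (W : Submodule (RatFunc k) M) (p : k[X]) (f : k⟦X⟧)
    (hf : algebraMap k⟦X⟧ M f ∈ W) : algebraMap k⟦X⟧ M ((p : k⟦X⟧) * f) ∈ W := by
  rw [map_mul, ← algebraMap_poly, IsScalarTower.algebraMap_apply k[X] (RatFunc k) M,
    ← Algebra.smul_def]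
  exact W.smul_mem _ hf

theorem exists_invariant_space {𝒞 Lab : Type*} [Fintype Lab] (ζ : 𝒞 → k) (y : ℕ → 𝒞) (q : ℕ)
    (hq : 0 < q) (hB : ∀ j, ∃ lab : ℕ → Lab, ∀ i i', lab i = lab i' →
      ∀ s < q ^ j, y (q ^ j * i + s) = y (q ^ j * i' + s)) :
    ∃ V : Submodule (RatFunc k) M, FiniteDimensional (RatFunc k) V ∧ (1 : M) ∈ V ∧
      (∀ c, algebraMap k⟦X⟧ M (Gs ζ y fun t => y t = c) ∈ V) ∧
      ∀ μ : kˣ, (∃ j, μ ^ (q ^ j) = 1) → ∀ v ∈ V, rho M μ v ∈ V := by
  classical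
  let W : ℕ → Submodule (RatFunc k) M := fun j => Submodule.span (RatFunc k)
    (insert 1 {x | ∃ E, Meas y (q ^ j) E ∧ x = algebraMap k⟦X⟧ M (Gs ζ y E)})
  have hmono : ∀ j j', j ≤ j' → W j ≤ W j' := by
    intro j j' hj
    refine Submodule.span_mono (Set.insert_subset_insert ?_)
    rintro _ ⟨E, hE, rfl⟩
    exact ⟨E, hE.pow_le hj, rfl⟩
  have hfin : ∀ j, FiniteDimensional (RatFunc k) (W j) ∧
      Module.finrank (RatFunc k) (W j) ≤ Fintype.card (Option Lab) := by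
    intro j
    obtain ⟨lab, hlab⟩ := hB j
    let g : Option Lab → M := fun o => o.elim 1 fun c =>
      algebraMap k⟦X⟧ M (Gs ζ y fun t => q ^ j ∣ t ∧ lab (t / q ^ j) = c)
    have hle : W j ≤ Submodule.span (RatFunc k) (Set.range g) := by
      refine Submodule.span_le.2 ?_
      rintro x (rfl | ⟨E, hE, rfl⟩)
      · exact Submodule.subset_span ⟨none, rfl⟩
      · obtain ⟨p, hp⟩ := Gs_decomp ζ y (q ^ j) (pow_pos hq j) lab hlab E hE
        rw [hp, map_sum]
        exact Submodule.sum_mem _ fun c _ => poly_mul_mem _ _ _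
          (Submodule.subset_span ⟨some c, rfl⟩)
    have : FiniteDimensional (RatFunc k) (Submodule.span (RatFunc k) (Set.range g)) :=
      FiniteDimensional.span_of_finite _ (Set.finite_range g)
    exact ⟨Submodule.finiteDimensional_of_le hle,
      (Submodule.finrank_mono hle).trans (finrank_range_le_card g)⟩
  obtain ⟨j₀, hj₀⟩ : ∃ j₀, ∀ j, Module.finrank (RatFunc k) (W j) ≤
      Module.finrank (RatFunc k) (W j₀) := by
    have hb : (Set.range fun j => Module.finrank (RatFunc k) (W j)).Finite :=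
      (Set.finite_le_nat _).subset (by rintro _ ⟨j, rfl⟩; exact (hfin j).2)
    obtain ⟨_, ⟨j₀, rfl⟩, h⟩ := hb.exists_maximal (Set.range_nonempty _)
    exact ⟨j₀, fun j => by
      by_contra hlt
      exact hlt (h ⟨j, rfl⟩ (not_le.1 hlt).le)⟩
  have heq : ∀ j, j₀ ≤ j → W j₀ = W j := fun j hj => by
    have := (hfin j).1
    exact Submodule.eq_of_le_of_finrank_le (hmono _ _ hj) (hj₀ j)
  refine ⟨W j₀, (hfin j₀).1, Submodule.subset_span (Set.mem_insert _ _), fun c => ?_, ?_⟩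
  · refine hmono 0 j₀ (Nat.zero_le _) (Submodule.subset_span (Or.inr ⟨_, ?_, rfl⟩))
    intro i i' r hr hy h
    rw [← hy r hr]; exact h
  · rintro μ ⟨j, hj⟩ v hv
    have hj' : μ ^ (q ^ (j₀ + j)) = 1 := by
      rw [pow_add, mul_comm, pow_mul, hj, one_pow]
    rw [heq (j₀ + j) (Nat.le_add_right _ _)] at hv ⊢
    induction hv using Submodule.span_induction with
    | mem x hx =>
      rcases hx with rfl | ⟨E, hE, rfl⟩
      · rw [map_one]; exact Submodule.subset_span (Set.mem_insert _ _)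
      · rw [rho_algebraMap, rot_Gs ζ y E _ (pow_pos hq _) μ hj', map_sum]
        refine Submodule.sum_mem _ fun r _ => poly_mul_mem _ _ _
          (Submodule.subset_span (Or.inr ⟨_, ?_, rfl⟩))
        intro i i' r' hr' hy h
        refine ⟨hE i i' r' hr' hy h.1, ?_⟩
        rw [← h.2, Nat.mul_add_mod, Nat.mul_add_mod]
    | zero => rw [map_zero]; exact zero_mem _
    | add x y _ _ hx hy => rw [map_add]; exact add_mem hx hy
    | smul a x _ hx =>
      obtain ⟨a', ha'⟩ := presL_rho (M := M) μ a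
      rw [Algebra.smul_def, map_mul]
      erw [ha']
      rw [← Algebra.smul_def]
      exact Submodule.smul_mem _ _ hx

end Pool.Agent.MP_1e211b_nt.H60
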