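import Mathlib

set_option autoImplicit false

namespace Pool.Agent.MP_1e211b_nt.H60

open Filter Topology

/-- An ultrafilter together with a sequence of scales tending to infinity along it. -/
structure Sc where
  U : Ultrafilter ℕ
  n : ℕ → ℕ
  hn : Tendsto n U atTop

namespace Sc

variable (S : Sc)

/-- The ultrapower of the rationals. -/
abbrev G : Type := Germ (S.U : Filter ℕ) ℚ

/-- Integer germs of exponential size at most `C`. -/
def Sz (C : ℝ) (u : S.G) : Prop :=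
  ∃ a : ℕ → ℤ, u = ((fun k => (a k : ℚ) : ℕ → ℚ) : S.G) ∧
    ∀ C', C < C' → ∀ᶠ k in (S.U : Filter ℕ), |(a k : ℝ)| ≤ C' ^ S.n k

variable {S}

theorem ev_const_le (b : ℝ) {x : ℝ} (hx : 1 < x) : ∀ᶠ k in (S.U : Filter ℕ), b ≤ x ^ S.n k :=
  ((tendsto_pow_atTop_atTop_of_one_lt hx).comp S.hn).eventually_ge_atTop b

theorem ev_ne_zero : ∀ᶠ k in (S.U : Filter ℕ), S.n k ≠ 0 :=
  S.hn.eventually_ne_atTop 0

theorem coe_ne_zero {f : ℕ → ℚ} : (f : S.G) ≠ 0 ↔ ∀ᶠ k in (S.U : Filter ℕ), f k ≠ 0 := by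
  rw [Ultrafilter.eventually_not, ne_eq, ← Germ.coe_zero, Germ.coe_eq]
  rfl

theorem Sz.mono {C D : ℝ} {u : S.G} (h : S.Sz C u) (hCD : C ≤ D) : S.Sz D u := by
  obtain ⟨a, ha, h⟩ := h
  exact ⟨a, ha, fun C' hC' => h C' (hCD.trans_lt hC')⟩

theorem Sz.neg {C : ℝ} {u : S.G} (h : S.Sz C u) : S.Sz C (-u) := by
  obtain ⟨a, rfl, h⟩ := h
  refine ⟨fun k => -a k, ?_, fun C' hC' => by simpa using h C' hC'⟩
  rw [← Germ.coe_neg]; congr 1

theorem Sz.add {C : ℝ} (hC : 0 < C) {u v : S.G} (hu : S.Sz C u) (hv : S.Sz C v) :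
    S.Sz C (u + v) := by
  obtain ⟨a, rfl, ha⟩ := hu
  obtain ⟨b, rfl, hb⟩ := hv
  refine ⟨fun k => a k + b k, ?_, fun C' hC' => ?_⟩
  · rw [← Germ.coe_add]; congr 1; funext k; simp
  · have h1 : C < (C + C') / 2 := by linarith
    have h2 : 0 < (C + C') / 2 := by linarith
    have h3 : 1 < C' / ((C + C') / 2) := by rw [one_lt_div h2]; linarith
    filter_upwards [ha _ h1, hb _ h1, ev_const_le (S := S) 2 h3] with k h4 h5 h6
    rw [div_pow, le_div_iff₀ (by positivity)] at h6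
    push_cast
    linarith [abs_add_le (a k : ℝ) (b k)]

theorem Sz.mul {C D : ℝ} (hC : 0 < C) (hD : 0 < D) {u v : S.G} (hu : S.Sz C u)
    (hv : S.Sz D v) : S.Sz (C * D) (u * v) := by
  obtain ⟨a, rfl, ha⟩ := hu
  obtain ⟨b, rfl, hb⟩ := hv
  refine ⟨fun k => a k * b k, ?_, fun E hE => ?_⟩
  · rw [← Germ.coe_mul]; congr 1; funext k; simp
  · have h0 : C < E / D := by rwa [lt_div_iff₀ hD]
    have h1 : C < (C + E / D) / 2 := by linarith
    have h2 : 0 < (C + E / D) / 2 := by linarith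
    have h3 : D < E / ((C + E / D) / 2) := by
      rw [lt_div_iff₀ h2]
      have : D * (E / D) = E := by field_simp
      nlinarith
    filter_upwards [ha _ h1, hb _ h3] with k h4 h5
    push_cast
    rw [abs_mul]
    refine (mul_le_mul h4 h5 (abs_nonneg _) (by positivity)).trans (le_of_eq ?_)
    rw [← mul_pow, mul_div_cancel₀ _ h2.ne']

theorem Sz.intCast (a : ℤ) : S.Sz 1 (a : S.G) :=
  ⟨fun _ => a, rfl, fun _ hC' => ev_const_le _ hC'⟩

theorem Sz.one : S.Sz 1 1 := by simpa using Sz.intCast (S := S) 1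

theorem Sz.zero : S.Sz 1 0 := by simpa using Sz.intCast (S := S) 0

theorem Sz.pow {C : ℝ} (hC : 0 < C) {u : S.G} (hu : S.Sz C u) (d : ℕ) : S.Sz (C ^ d) (u ^ d) := by
  induction d with
  | zero => simpa using Sz.one
  | succ d ih => rw [pow_succ, pow_succ]; exact ih.mul (by positivity) hC hu

theorem Sz.of_le {a : ℕ → ℤ} {b C : ℝ} (hC : 0 < C)
    (h : ∀ᶠ k in (S.U : Filter ℕ), |(a k : ℝ)| ≤ b * C ^ S.n k) :
    S.Sz C ((fun k => (a k : ℚ) : ℕ → ℚ) : S.G) := by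
  refine ⟨a, rfl, fun C' hC' => ?_⟩
  filter_upwards [h, ev_const_le (S := S) b ((one_lt_div hC).2 hC')] with k h1 h2
  rw [div_pow, le_div_iff₀ (by positivity)] at h2
  exact h1.trans h2

variable (S)

/-- Germs of height `O(n)`. -/
def K : Subfield S.G where
  carrier := {u | ∃ C, 1 ≤ C ∧ ∃ a b, S.Sz C a ∧ S.Sz C b ∧ b ≠ 0 ∧ u = a / b}
  mul_mem' := by
    rintro _ _ ⟨C, hC, a, b, ha, hb, hb0, rfl⟩ ⟨D, hD, a', b', ha', hb', hb0', rfl⟩
    exact ⟨C * D, one_le_mul_of_one_le_of_one_le hC hD, a * a', b * b',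
      ha.mul (by linarith) (by linarith) ha', hb.mul (by linarith) (by linarith) hb',
      mul_ne_zero hb0 hb0', by rw [div_mul_div_comm]⟩
  one_mem' := ⟨1, le_rfl, 1, 1, Sz.one, Sz.one, one_ne_zero, by simp⟩
  add_mem' := by
    rintro _ _ ⟨C, hC, a, b, ha, hb, hb0, rfl⟩ ⟨D, hD, a', b', ha', hb', hb0', rfl⟩
    exact ⟨C * D, one_le_mul_of_one_le_of_one_le hC hD, a * b' + b * a', b * b',
      (ha.mul (by linarith) (by linarith) hb').add (by positivity)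
        (hb.mul (by linarith) (by linarith) ha'), hb.mul (by linarith) (by linarith) hb',
      mul_ne_zero hb0 hb0', by rw [div_add_div _ _ hb0 hb0']⟩
  zero_mem' := ⟨1, le_rfl, 0, 1, Sz.zero, Sz.one, one_ne_zero, by simp⟩
  neg_mem' := by
    rintro _ ⟨C, hC, a, b, ha, hb, hb0, rfl⟩
    exact ⟨C, hC, -a, b, ha.neg, hb, hb0, by rw [neg_div]⟩
  inv_mem' := by
    rintro _ ⟨C, hC, a, b, ha, hb, hb0, rfl⟩
    by_cases ha0 : a = 0
    · exact ⟨1, le_rfl, 0, 1, Sz.zero, Sz.one, one_ne_zero, by simp [ha0]⟩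
    · exact ⟨C, hC, b, a, hb, ha, ha0, by rw [inv_div]⟩

/-- Germs of height `o(n)`. -/
def F : Subfield S.G where
  carrier := {u | ∃ a b, S.Sz 1 a ∧ S.Sz 1 b ∧ b ≠ 0 ∧ u = a / b}
  mul_mem' := by
    rintro _ _ ⟨a, b, ha, hb, hb0, rfl⟩ ⟨a', b', ha', hb', hb0', rfl⟩
    exact ⟨a * a', b * b', by simpa using ha.mul one_pos one_pos ha',
      by simpa using hb.mul one_pos one_pos hb', mul_ne_zero hb0 hb0', by rw [div_mul_div_comm]⟩
  one_mem' := ⟨1, 1, Sz.one, Sz.one, one_ne_zero, by simp⟩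
  add_mem' := by
    rintro _ _ ⟨a, b, ha, hb, hb0, rfl⟩ ⟨a', b', ha', hb', hb0', rfl⟩
    exact ⟨a * b' + b * a', b * b', Sz.add one_pos (by simpa using ha.mul one_pos one_pos hb')
        (by simpa using hb.mul one_pos one_pos ha'), by simpa using hb.mul one_pos one_pos hb',
      mul_ne_zero hb0 hb0', by rw [div_add_div _ _ hb0 hb0']⟩
  zero_mem' := ⟨0, 1, Sz.zero, Sz.one, one_ne_zero, by simp⟩
  neg_mem' := by
    rintro _ ⟨a, b, ha, hb, hb0, rfl⟩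
    exact ⟨-a, b, ha.neg, hb, hb0, by rw [neg_div]⟩
  inv_mem' := by
    rintro _ ⟨a, b, ha, hb, hb0, rfl⟩
    by_cases ha0 : a = 0
    · exact ⟨0, 1, Sz.zero, Sz.one, one_ne_zero, by simp [ha0]⟩
    · exact ⟨b, a, hb, ha, ha0, by rw [inv_div]⟩

theorem F_le_K : S.F ≤ S.K := by
  rintro _ ⟨a, b, ha, hb, hb0, rfl⟩
  exact ⟨1, le_rfl, a, b, ha, hb, hb0, rfl⟩

variable {S}

theorem Sz.mem_K {C : ℝ} {u : S.G} (h : S.Sz C u) : u ∈ S.K :=
  ⟨max C 1, le_max_right _ _, u, 1, h.mono (le_max_left _ _), Sz.one.mono (le_max_right _ _),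
    one_ne_zero, by simp⟩

theorem Sz.mem_F {u : S.G} (h : S.Sz 1 u) : u ∈ S.F := ⟨u, 1, h, Sz.one, one_ne_zero, by simp⟩

/-- Admissible absolute values. -/
def Adm (v : AbsoluteValue ℚ ℝ) : Prop :=
  ∀ a : ℤ, a ≠ 0 → |(a : ℝ)|⁻¹ ≤ v a ∧ v a ≤ |(a : ℝ)|

variable (S) in
/-- The limit of normalised absolute values. -/
def Lim (v : AbsoluteValue ℚ ℝ) (u : S.G) (r : ℝ) : Prop :=
  ∃ f : ℕ → ℚ, u = (f : S.G) ∧ Tendsto (fun k => v (f k) ^ ((S.n k : ℝ)⁻¹)) S.U (𝓝 r)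

variable {v : AbsoluteValue ℚ ℝ}

theorem Lim.tendsto {f : ℕ → ℚ} {r : ℝ} (h : S.Lim v (f : S.G) r) :
    Tendsto (fun k => v (f k) ^ ((S.n k : ℝ)⁻¹)) S.U (𝓝 r) := by
  obtain ⟨g, hg, h⟩ := h
  refine h.congr' ?_
  filter_upwards [Germ.coe_eq.1 hg] with k hk
  rw [hk]

theorem Lim.unique {u : S.G} {r s : ℝ} (h : S.Lim v u r) (h' : S.Lim v u s) : r = s := by
  obtain ⟨f, rfl, h⟩ := h
  exact tendsto_nhds_unique h h'.tendsto

theorem Lim.nonneg {u : S.G} {r : ℝ} (h : S.Lim v u r) : 0 ≤ r := by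
  obtain ⟨f, rfl, h⟩ := h
  exact ge_of_tendsto' h fun k => Real.rpow_nonneg (v.nonneg _) _

theorem Lim.mul {u w : S.G} {r s : ℝ} (h : S.Lim v u r) (h' : S.Lim v w s) :
    S.Lim v (u * w) (r * s) := by
  obtain ⟨f, rfl, h⟩ := h
  obtain ⟨g, rfl, h'⟩ := h'
  refine ⟨f * g, rfl, (h.mul h').congr fun k => ?_⟩
  rw [Pi.mul_apply, map_mul, Real.mul_rpow (v.nonneg _) (v.nonneg _)]

theorem Lim.inv {u : S.G} {r : ℝ} (h : S.Lim v u r) (hr : r ≠ 0) : S.Lim v u⁻¹ r⁻¹ := by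
  obtain ⟨f, rfl, h⟩ := h
  refine ⟨f⁻¹, rfl, (h.inv₀ hr).congr fun k => ?_⟩
  rw [Pi.inv_apply, map_inv₀, Real.inv_rpow (v.nonneg _)]

theorem tendsto_const_rpow {C : ℝ} (hC : 0 < C) :
    Tendsto (fun k => C ^ ((S.n k : ℝ)⁻¹)) S.U (𝓝 1) :=
  ((continuous_iff_continuousAt.mpr fun _ ↦ Real.continuousAt_const_rpow hC.ne').tendsto'
    0 1 (Real.rpow_zero C)).comp <|
      tendsto_inv_atTop_zero.comp (tendsto_natCast_atTop_atTop.comp S.hn)

theorem Lim.add_le {u w : S.G} {r s t : ℝ} (h : S.Lim v u r) (h' : S.Lim v w s)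
    (h'' : S.Lim v (u + w) t) : t ≤ max r s := by
  obtain ⟨f, rfl, h⟩ := h
  obtain ⟨g, rfl, h'⟩ := h'
  have h1 := Lim.tendsto (f := f + g) h''
  have h2 := (tendsto_const_rpow (S := S) two_pos).mul (h.max h')
  rw [one_mul] at h2
  refine le_of_tendsto_of_tendsto' h1 h2 fun k => ?_
  have h3 : (0 : ℝ) ≤ (S.n k : ℝ)⁻¹ := by positivity
  rcases le_total (v (f k)) (v (g k)) with h4 | h4
  · refine le_trans ?_ (mul_le_mul_of_nonneg_left (le_max_right _ _) (by positivity))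
    rw [← Real.mul_rpow (by norm_num) (v.nonneg _)]
    exact Real.rpow_le_rpow (v.nonneg _) ((v.add_le _ _).trans (by linarith)) h3
  · refine le_trans ?_ (mul_le_mul_of_nonneg_left (le_max_left _ _) (by positivity))
    rw [← Real.mul_rpow (by norm_num) (v.nonneg _)]
    exact Real.rpow_le_rpow (v.nonneg _) ((v.add_le _ _).trans (by linarith)) h3

theorem Sz.exists_lim (hv : Adm v) {C : ℝ} (hC : 0 < C) {u : S.G} (h : S.Sz C u) :
    ∃ r, S.Lim v u r ∧ r ≤ C ∧ (u ≠ 0 → C⁻¹ ≤ r) := by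
  obtain ⟨a, rfl, ha⟩ := h
  have hup : ∀ C', C < C' → ∀ᶠ k in (S.U : Filter ℕ), v (a k) ^ ((S.n k : ℝ)⁻¹) ≤ C' := by
    intro C' hC'
    filter_upwards [ha C' hC', ev_ne_zero (S := S)] with k h1 h2
    rw [← Real.pow_rpow_inv_natCast (hC.trans hC').le h2]
    refine Real.rpow_le_rpow (v.nonneg _) (le_trans ?_ h1) (by positivity)
    by_cases h0 : a k = 0
    · simp [h0]
    · exact (hv _ h0).2
  obtain ⟨r, -, hr⟩ := (isCompact_Icc (a := (0 : ℝ)) (b := C + 1)).ultrafilter_le_nhds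
    (S.U.map fun k => v (a k) ^ ((S.n k : ℝ)⁻¹)) (by
      rw [le_principal_iff, Ultrafilter.coe_map, mem_map]
      filter_upwards [hup (C + 1) (by linarith)] with k hk
      exact ⟨Real.rpow_nonneg (v.nonneg _) _, hk⟩)
  have hr' : Tendsto (fun k => v (a k) ^ ((S.n k : ℝ)⁻¹)) S.U (𝓝 r) := hr
  refine ⟨r, ⟨_, rfl, hr'⟩, le_of_forall_gt_imp_ge_of_dense fun C' hC' =>
    le_of_tendsto hr' (hup C' hC'), fun h0 => ?_⟩
  have hlow : ∀ C', C < C' → C'⁻¹ ≤ r := by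
    intro C' hC'
    refine ge_of_tendsto hr' ?_
    filter_upwards [ha C' hC', ev_ne_zero (S := S), coe_ne_zero.1 h0] with k h1 h2 h3
    have h4 : a k ≠ 0 := by exact_mod_cast h3
    have hC'0 : 0 < C' := hC.trans hC'
    rw [← Real.pow_rpow_inv_natCast (inv_nonneg.2 hC'0.le) h2]
    refine Real.rpow_le_rpow (by positivity) (le_trans ?_ (hv _ h4).1) (by positivity)
    rw [inv_pow]
    exact inv_anti₀ (abs_pos.2 (by exact_mod_cast h4)) h1
  have h5 : Tendsto (fun x : ℝ => x⁻¹) (𝓝[>] C) (𝓝 C⁻¹) :=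
    (tendsto_inv₀ hC.ne').mono_left nhdsWithin_le_nhds
  exact le_of_tendsto h5 (eventually_nhdsWithin_of_forall hlow)

theorem exists_lim (hv : Adm v) (u : S.K) : ∃ r, S.Lim v u r ∧ ((u : S.G) ≠ 0 → r ≠ 0) := by
  obtain ⟨_, C, hC, a, b, ha, hb, hb0, rfl⟩ := u
  have hC0 : 0 < C := by linarith
  obtain ⟨r, hr, -, hr'⟩ := ha.exists_lim hv hC0
  obtain ⟨s, hs, -, hs'⟩ := hb.exists_lim hv hC0
  have hs0 : s ≠ 0 := ((inv_pos.2 hC0).trans_le (hs' hb0)).ne'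
  refine ⟨r * s⁻¹, by simpa [div_eq_mul_inv] using hr.mul (hs.inv hs0), fun h => ?_⟩
  have ha0 : a ≠ 0 := fun h' => h (by simp [h'])
  exact mul_ne_zero ((inv_pos.2 hC0).trans_le (hr' ha0)).ne' (inv_ne_zero hs0)

theorem Lim.zero : S.Lim v 0 0 := by
  refine ⟨0, rfl, tendsto_const_nhds.congr' ?_⟩
  filter_upwards [ev_ne_zero (S := S)] with k hk
  rw [Pi.zero_apply, map_zero, Real.zero_rpow (by simpa using hk)]

variable (S) in
/-- The limit absolute value. -/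
noncomputable def N (hv : Adm v) : AbsoluteValue S.K ℝ where
  toFun u := (exists_lim hv u).choose
  map_mul' u w := (exists_lim hv (u * w)).choose_spec.1.unique
    ((exists_lim hv u).choose_spec.1.mul (exists_lim hv w).choose_spec.1)
  nonneg' u := (exists_lim hv u).choose_spec.1.nonneg
  eq_zero' u := ⟨fun h => by
      by_contra h0
      exact (exists_lim hv u).choose_spec.2 (fun h' => h0 (Subtype.ext h')) h,
    fun h => by
      subst h
      exact (exists_lim hv 0).choose_spec.1.unique Lim.zero⟩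
  add_le' u w := by
    refine ((exists_lim hv u).choose_spec.1.add_le (exists_lim hv w).choose_spec.1
      (exists_lim hv (u + w)).choose_spec.1).trans (max_le ?_ ?_)
    · exact le_add_of_nonneg_right (exists_lim hv w).choose_spec.1.nonneg
    · exact le_add_of_nonneg_left (exists_lim hv u).choose_spec.1.nonneg

theorem N_lim (hv : Adm v) (u : S.K) : S.Lim v u (S.N hv u) := (exists_lim hv u).choose_spec.1

theorem N_eq (hv : Adm v) {u : S.K} {r : ℝ} (h : S.Lim v u r) : S.N hv u = r :=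
  (N_lim hv u).unique h

theorem N_nonarch (hv : Adm v) : IsNonarchimedean (S.N hv) := fun u w =>
  (N_lim hv u).add_le (N_lim hv w) (N_lim hv (u + w))

theorem N_ge (hv : Adm v) {C : ℝ} (hC : 0 < C) {u : S.K} (h : S.Sz C u) (h0 : u ≠ 0) :
    C⁻¹ ≤ S.N hv u := by
  obtain ⟨r, hr, -, hr'⟩ := h.exists_lim hv hC
  rw [N_eq hv hr]
  exact hr' fun h => h0 (Subtype.ext h)

theorem N_le (hv : Adm v) {C : ℝ} (hC : 0 < C) {u : S.K} (h : S.Sz C u) : S.N hv u ≤ C := by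
  obtain ⟨r, hr, hr', -⟩ := h.exists_lim hv hC
  rw [N_eq hv hr]
  exact hr'

theorem N_eq_one (hv : Adm v) {u : S.K} (h : (u : S.G) ∈ S.F) (h0 : u ≠ 0) : S.N hv u = 1 := by
  obtain ⟨a, b, ha, hb, hb0, hu⟩ := h
  have h1 : ∀ w : S.K, S.Sz 1 w → w ≠ 0 → S.N hv w = 1 := fun w hw hw0 =>
    le_antisymm (N_le hv one_pos hw) (by simpa using N_ge hv one_pos hw hw0)
  have h2 : u = ⟨a, ha.mem_K⟩ / ⟨b, hb.mem_K⟩ := Subtype.ext hu
  have ha0 : (⟨a, ha.mem_K⟩ : S.K) ≠ 0 := fun h => h0 (by rw [h2, h, zero_div])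
  rw [h2, map_div₀, h1 _ ha ha0, h1 _ hb fun h => hb0 (congrArg Subtype.val h), div_one]

theorem N_le_one (hv : Adm v) (hv1 : ∀ a : ℤ, v a ≤ 1) {C : ℝ} {u : S.K} (h : S.Sz C u) :
    S.N hv u ≤ 1 := by
  obtain ⟨a, ha, -⟩ := h
  have := N_lim hv u
  rw [ha] at this
  exact le_of_tendsto' this.tendsto fun k =>
    Real.rpow_le_one (v.nonneg _) (hv1 _) (by positivity)

theorem lim_zpow {p : ℚ} (hp : p ≠ 0) {g : ℕ → ℤ} {γ : ℝ}
    (hg : Tendsto (fun k => (g k : ℝ) / S.n k) S.U (𝓝 γ)) :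
    S.Lim v ((fun k => p ^ g k : ℕ → ℚ) : S.G) (v p ^ γ) := by
  have hp' : 0 < v p := v.pos hp
  refine ⟨_, rfl, (((continuous_iff_continuousAt.mpr fun _ ↦
    Real.continuousAt_const_rpow hp'.ne').tendsto γ).comp hg).congr fun k => ?_⟩
  rw [Function.comp_apply, map_zpow₀, ← Real.rpow_intCast, ← Real.rpow_mul hp'.le, div_eq_mul_inv]

theorem adm_real : Adm Rat.AbsoluteValue.real := by
  intro a ha
  have h1 : (1 : ℝ) ≤ |(a : ℝ)| := by exact_mod_cast Int.one_le_abs ha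
  simp only [Rat.AbsoluteValue.real_eq_abs, Rat.cast_intCast, Rat.cast_abs]
  exact ⟨(inv_le_one_of_one_le₀ h1).trans h1, le_rfl⟩

theorem adm_padic (p : ℕ) [hp : Fact p.Prime] : Adm (Rat.AbsoluteValue.padic p) := by
  intro a ha
  have h1 : (1 : ℝ) ≤ |(a : ℝ)| := by exact_mod_cast Int.one_le_abs ha
  refine ⟨?_, (Rat.AbsoluteValue.padic_le_one p a).trans h1⟩
  rw [Rat.AbsoluteValue.padic_eq_padicNorm, padicNorm.eq_zpow_of_nonzero (by exact_mod_cast ha),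
    padicValRat.of_int, zpow_neg, zpow_natCast]
  have h2 : ((p : ℤ) ^ padicValInt p a) ≤ |a| :=
    Int.le_of_dvd (abs_pos.2 ha) ((dvd_abs _ _).2 (padicValInt_dvd a))
  have h3 : (0 : ℝ) < (p : ℝ) ^ padicValInt p a := pow_pos (by exact_mod_cast hp.out.pos) _
  push_cast
  exact inv_anti₀ h3 (by exact_mod_cast h2)

end Sc

end Pool.Agent.MP_1e211b_nt.H60
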